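import Pool.Agent.Lib.MP_abc193_lc.Sim

namespace Pool.Agent.SPCA81

open V3

set_option linter.unusedSimpArgs false

/-! ## Translations -/

/-- translation by the vector with `(t,y)`-coordinates `(a,b)` -/
def tr (a b : ℤ) (α : Config) : Config := fun c => α (c.1 - a - b, c.2 - b)

theorem F_tr (a b : ℤ) (α : Config) : globalMap f (tr a b α) = tr a b (globalMap f α) := by
  funext ⟨x, y⟩
  simp only [globalMap, tr]
  have e1 : y - 1 - b = y - b - 1 := by ring
  have e2 : x - 1 - a - b = x - a - b - 1 := by ring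
  have e3 : y + 1 - b = y - b + 1 := by ring
  have e4 : x + 1 - a - b = x - a - b + 1 := by ring
  simp only [e1, e2, e3, e4]

theorem iter_tr (a b : ℤ) (n : ℕ) (α : Config) :
    (globalMap f)^[n] (tr a b α) = tr a b ((globalMap f)^[n] α) := by
  induction n generalizing α with
  | zero => rfl
  | succ n ih => rw [Function.iterate_succ_apply, Function.iterate_succ_apply, F_tr, ih]

def shM (a b : ℤ) (M : List (Edge × V3)) : List (Edge × V3) :=
  M.map (fun e => ((e.1.1, e.1.2.1 + a, e.1.2.2 + b), e.2))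

theorem lookup_shM (a b : ℤ) (M : List (Edge × V3)) (c : Bool) (t y : ℤ) :
    (shM a b M).lookup (c, t, y) = M.lookup (c, t - a, y - b) := by
  induction M with
  | nil => rfl
  | cons e M ih =>
    obtain ⟨⟨c', t', y'⟩, v⟩ := e
    simp only [shM, List.map_cons, List.lookup_cons] at ih ⊢
    rw [ih]
    have : ((c, t, y) == ((c', t' + a, y' + b) : Edge)) = ((c, t - a, y - b) == (c', t', y')) := by
      rw [Bool.eq_iff_iff, beq_iff_eq, beq_iff_eq]
      simp only [Prod.mk.injEq]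
      constructor
      · rintro ⟨h1, h2, h3⟩
        exact ⟨h1, by omega, by omega⟩
      · rintro ⟨h1, h2, h3⟩
        exact ⟨h1, by omega, by omega⟩
    rw [this]

theorem cfg_parity (σ : Edge → V3) (p p' : ℤ) (h : (p - p') % 2 = 0) : cfg σ p = cfg σ p' := by
  funext c
  simp only [cfg]
  by_cases h1 : (c.1 - c.2 - p) % 2 = 0
  · have : (c.1 - c.2 - p') % 2 = 0 := by omega
    simp [h1, this]
  · have : ¬ (c.1 - c.2 - p') % 2 = 0 := by omega
    simp [h1, this]

theorem tr_cfg (K : ℤ → ℤ → Prop) (M : List (Edge × V3)) (a b p : ℤ) :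
    tr a b (cfg (ov (fun t y => K (t + a) (y + b)) M) p) = cfg (ov K (shM a b M)) (p + a) := by
  have key : ∀ c t y, ov K (shM a b M) (c, t, y) =
      ov (fun t y => K (t + a) (y + b)) M (c, t - a, y - b) := by
    intro c t y
    unfold ov
    rw [lookup_shM]
    congr 1
    cases c
    · rfl
    · have : base (fun t y => K (t + a) (y + b)) (true, t - a, y - b) =
        base K (true, t - a + a, y - b + b) := rfl
      rw [this, sub_add_cancel, sub_add_cancel]
  funext ⟨x, y⟩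
  simp only [tr, cfg, key]
  have e1 : x - a - b - (y - b) = x - y - a := by ring
  have e2 : x - y - (p + a) = x - y - a - p := by ring
  have e3 : x - y - a + 1 = x - y + 1 - a := by ring
  have e4 : y - b - 1 = y - 1 - b := by ring
  have e5 : x - y - a - 1 = x - y - 1 - a := by ring
  simp only [e1, e2, e3, e4, e5]

theorem run_shift {K : ℤ → ℤ → Prop} {k : List (ℤ × ℤ)} {P : ℤ → ℤ → Bool} (a b : ℤ)
    (hK : ∀ t y, P t y = true → (K (t + a) (y + b) ↔ (t, y) ∈ k)) {n : ℕ}
    {p : ℤ} {M M' : List (Edge × V3)} (h : run k P p M n = some M') :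
    (globalMap f)^[n] (cfg (ov K (shM a b M)) (p + a)) = cfg (ov K (shM a b M')) (p + n + a) := by
  rw [← tr_cfg, iter_tr, run_spec (K := fun t y => K (t + a) (y + b)) hK n p M M' h, tr_cfg]

/-! ## Reachability -/

def Leads0 (α β : Config) : Prop := ∃ n : ℕ, (globalMap f)^[n] α = β
def Leads (α β : Config) : Prop := ∃ n : ℕ, n ≥ 1 ∧ (globalMap f)^[n] α = β

theorem Leads.to0 {α β : Config} (h : Leads α β) : Leads0 α β := by
  obtain ⟨n, _, h⟩ := h
  exact ⟨n, h⟩

theorem Leads0.refl (α : Config) : Leads0 α α := ⟨0, rfl⟩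

theorem Leads0.trans {α β γ : Config} (h : Leads0 α β) (h' : Leads0 β γ) : Leads0 α γ := by
  obtain ⟨n, rfl⟩ := h
  obtain ⟨m, rfl⟩ := h'
  exact ⟨m + n, Function.iterate_add_apply _ _ _ _⟩

theorem Leads.trans0 {α β γ : Config} (h : Leads α β) (h' : Leads0 β γ) : Leads α γ := by
  obtain ⟨n, hn, rfl⟩ := h
  obtain ⟨m, rfl⟩ := h'
  exact ⟨m + n, by omega, Function.iterate_add_apply _ _ _ _⟩

theorem Leads0.trans1 {α β γ : Config} (h : Leads0 α β) (h' : Leads β γ) : Leads α γ := by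
  obtain ⟨n, rfl⟩ := h
  obtain ⟨m, hm, rfl⟩ := h'
  exact ⟨m + n, by omega, Function.iterate_add_apply _ _ _ _⟩

theorem Leads.trans {α β γ : Config} (h : Leads α β) (h' : Leads β γ) : Leads α γ :=
  h.trans0 h'.to0

/-! ## Movers and free flight -/

/-- value `2` on the vertical edge `(t,y)`; `q = 0`: about to enter the vertex `(t,y)` from above
(moving down), `q = 1`: about to enter `(t-1,y+1)` from below (moving up) (for even `t`) -/
noncomputable def Vt (K : ℤ → ℤ → Prop) (t y p : ℤ) : Config := cfg (ov K [((true, t, y), w)]) p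

/-- value `2` on the horizontal edge `(t,y)` -/
noncomputable def Hz (K : ℤ → ℤ → Prop) (t y p : ℤ) : Config := cfg (ov K [((false, t, y), w)]) p

theorem Vt_parity (K : ℤ → ℤ → Prop) (t y p p' : ℤ) (h : (p - p') % 2 = 0) :
    Vt K t y p = Vt K t y p' := cfg_parity _ _ _ h

theorem Hz_parity (K : ℤ → ℤ → Prop) (t y p p' : ℤ) (h : (p - p') % 2 = 0) :
    Hz K t y p = Hz K t y p' := cfg_parity _ _ _ h

/-- one step to the right -/
theorem Rt_step {K : ℤ → ℤ → Prop} {t y : ℤ} (h1 : ¬ K (t + 2) (y - 1)) (h2 : ¬ K (t + 1) y) :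
    Leads (Hz K t y (t + 1)) (Hz K (t + 1) y (t + 2)) := by
  have h : run [] (fun t y => decide ((t = 1 ∧ y = -1) ∨ (t = 0 ∧ y = 0))) 0
      [((false, -1, 0), w)] 1 = some [((false, 0, 0), w)] := by decide +kernel
  have hr := run_shift (K := K) (t + 1) y (by
    intro t' y' hP
    simp only [decide_eq_true_eq] at hP
    simp only [List.not_mem_nil, iff_false]
    rcases hP with ⟨rfl, rfl⟩ | ⟨rfl, rfl⟩
    · rw [show (1 : ℤ) + (t + 1) = t + 2 by ring, show (-1 : ℤ) + y = y - 1 by ring]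
      exact h1
    · rw [show (0 : ℤ) + (t + 1) = t + 1 by ring, show (0 : ℤ) + y = y by ring]
      exact h2) h
  refine ⟨1, le_rfl, ?_⟩
  have e1 : shM (t + 1) y [((false, -1, 0), w)] = [((false, t, y), w)] := by
    simp only [shM, List.map_cons, List.map_nil]
    rw [show (-1 : ℤ) + (t + 1) = t by ring, show (0 : ℤ) + y = y by ring]
  have e2 : shM (t + 1) y [((false, 0, 0), w)] = [((false, t + 1, y), w)] := by
    simp only [shM, List.map_cons, List.map_nil]
    rw [show (0 : ℤ) + (t + 1) = t + 1 by ring, show (0 : ℤ) + y = y by ring]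
  rw [e1, e2] at hr
  unfold Hz
  rw [show cfg (ov K [((false, t, y), w)]) (t + 1) = cfg (ov K [((false, t, y), w)]) (0 + (t + 1))
    by rw [zero_add], hr]
  exact cfg_parity _ _ _ (by omega)

/-- one step to the left -/
theorem Lf_step {K : ℤ → ℤ → Prop} {t y : ℤ} (h1 : ¬ K (t + 1) (y - 1)) (h2 : ¬ K t y) :
    Leads (Hz K t y t) (Hz K (t - 1) y (t - 1)) := by
  have h : run [] (fun t y => decide ((t = 1 ∧ y = -1) ∨ (t = 0 ∧ y = 0))) 0
      [((false, 0, 0), w)] 1 = some [((false, -1, 0), w)] := by decide +kernel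
  have hr := run_shift (K := K) t y (by
    intro t' y' hP
    simp only [decide_eq_true_eq] at hP
    simp only [List.not_mem_nil, iff_false]
    rcases hP with ⟨rfl, rfl⟩ | ⟨rfl, rfl⟩
    · rw [show (1 : ℤ) + t = t + 1 by ring, show (-1 : ℤ) + y = y - 1 by ring]
      exact h1
    · rw [show (0 : ℤ) + t = t by ring, show (0 : ℤ) + y = y by ring]
      exact h2) h
  refine ⟨1, le_rfl, ?_⟩
  have e1 : shM t y [((false, -1, 0), w)] = [((false, t - 1, y), w)] := by
    simp only [shM, List.map_cons, List.map_nil]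
    rw [show (-1 : ℤ) + t = t - 1 by ring, show (0 : ℤ) + y = y by ring]
  have e2 : shM t y [((false, 0, 0), w)] = [((false, t, y), w)] := by
    simp only [shM, List.map_cons, List.map_nil]
    rw [show (0 : ℤ) + t = t by ring, show (0 : ℤ) + y = y by ring]
  rw [e1, e2] at hr
  unfold Hz
  rw [show cfg (ov K [((false, t, y), w)]) t = cfg (ov K [((false, t, y), w)]) (0 + t) by
    rw [zero_add], hr]
  exact cfg_parity _ _ _ (by omega)

/-- one period (two steps) up: from the vertical edge `(t,y)` to `(t,y+1)` -/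
theorem Up_step {K : ℤ → ℤ → Prop} {t y : ℤ} (h1 : ¬ K t y) (h2 : ¬ K (t - 1) (y + 1))
    (h3 : ¬ K (t + 1) y) (h4 : ¬ K t (y + 1)) :
    Leads (Vt K t y (t - 1)) (Vt K t (y + 1) (t - 1)) := by
  have h : run [] (fun t y => decide ((t = 0 ∧ y = 0) ∨ (t = -1 ∧ y = 1) ∨ (t = 1 ∧ y = 0) ∨
      (t = 0 ∧ y = 1))) (-1) [((true, 0, 0), w)] 2 = some [((true, 0, 1), w)] := by
    decide +kernel
  have hr := run_shift (K := K) t y (by
    intro t' y' hP
    simp only [decide_eq_true_eq] at hP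
    simp only [List.not_mem_nil, iff_false]
    rcases hP with ⟨rfl, rfl⟩ | ⟨rfl, rfl⟩ | ⟨rfl, rfl⟩ | ⟨rfl, rfl⟩
    · simpa using h1
    · rw [show (-1 : ℤ) + t = t - 1 by ring, show (1 : ℤ) + y = y + 1 by ring]
      exact h2
    · rw [show (1 : ℤ) + t = t + 1 by ring, show (0 : ℤ) + y = y by ring]
      exact h3
    · rw [show (0 : ℤ) + t = t by ring, show (1 : ℤ) + y = y + 1 by ring]
      exact h4) h
  refine ⟨2, by norm_num, ?_⟩
  have e1 : shM t y [((true, 0, 0), w)] = [((true, t, y), w)] := by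
    simp only [shM, List.map_cons, List.map_nil, zero_add]
  have e2 : shM t y [((true, 0, 1), w)] = [((true, t, y + 1), w)] := by
    simp only [shM, List.map_cons, List.map_nil, zero_add]
    rw [show (1 : ℤ) + y = y + 1 by ring]
  rw [e1, e2] at hr
  unfold Vt
  rw [show t - 1 = -1 + t by ring, hr]
  exact cfg_parity _ _ _ (by omega)

/-- one period (two steps) down: from the vertical edge `(t,y)` to `(t,y-1)` -/
theorem Dn_step {K : ℤ → ℤ → Prop} {t y : ℤ} (h1 : ¬ K t y) (h2 : ¬ K (t + 1) (y - 1))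
    (h3 : ¬ K t (y - 1)) (h4 : ¬ K (t - 1) y) :
    Leads (Vt K t y t) (Vt K t (y - 1) t) := by
  have h : run [] (fun t y => decide ((t = 0 ∧ y = 0) ∨ (t = 1 ∧ y = -1) ∨ (t = 0 ∧ y = -1) ∨
      (t = -1 ∧ y = 0))) 0 [((true, 0, 0), w)] 2 = some [((true, 0, -1), w)] := by
    decide +kernel
  have hr := run_shift (K := K) t y (by
    intro t' y' hP
    simp only [decide_eq_true_eq] at hP
    simp only [List.not_mem_nil, iff_false]
    rcases hP with ⟨rfl, rfl⟩ | ⟨rfl, rfl⟩ | ⟨rfl, rfl⟩ | ⟨rfl, rfl⟩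
    · simpa using h1
    · rw [show (1 : ℤ) + t = t + 1 by ring, show (-1 : ℤ) + y = y - 1 by ring]
      exact h2
    · rw [show (0 : ℤ) + t = t by ring, show (-1 : ℤ) + y = y - 1 by ring]
      exact h3
    · rw [show (-1 : ℤ) + t = t - 1 by ring, show (0 : ℤ) + y = y by ring]
      exact h4) h
  refine ⟨2, by norm_num, ?_⟩
  have e1 : shM t y [((true, 0, 0), w)] = [((true, t, y), w)] := by
    simp only [shM, List.map_cons, List.map_nil, zero_add]
  have e2 : shM t y [((true, 0, -1), w)] = [((true, t, y - 1), w)] := by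
    simp only [shM, List.map_cons, List.map_nil, zero_add]
    rw [show (-1 : ℤ) + y = y - 1 by ring]
  rw [e1, e2] at hr
  unfold Vt
  rw [show cfg (ov K [((true, t, y), w)]) t = cfg (ov K [((true, t, y), w)]) (0 + t) by
    rw [zero_add], hr]
  exact cfg_parity _ _ _ (by omega)

theorem Rt_flight {K : ℤ → ℤ → Prop} {t t' y : ℤ} (h : t ≤ t')
    (h1 : ∀ s, t + 2 ≤ s → s ≤ t' + 1 → ¬ K s (y - 1))
    (h2 : ∀ s, t + 1 ≤ s → s ≤ t' → ¬ K s y) :
    Leads0 (Hz K t y (t + 1)) (Hz K t' y (t' + 1)) := by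
  obtain ⟨n, hn⟩ : ∃ n : ℕ, t' = t + n := ⟨(t' - t).toNat, by omega⟩
  subst hn
  clear h
  induction n with
  | zero => simpa using Leads0.refl _
  | succ n ih =>
    refine (ih (fun s hs hs' => h1 s hs (by push_cast; omega))
      (fun s hs hs' => h2 s hs (by push_cast; omega))).trans ?_
    have := Rt_step (K := K) (t := t + n) (y := y) (h1 _ (by omega) (by push_cast; omega))
      (h2 _ (by omega) (by push_cast; omega))
    have := this.to0
    push_cast
    rw [show t + ((n : ℤ) + 1) = t + n + 1 by ring, show t + (n : ℤ) + 1 + 1 = t + n + 2 by ring]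
    exact this

theorem Lf_flight {K : ℤ → ℤ → Prop} {t t' y : ℤ} (h : t' ≤ t)
    (h1 : ∀ s, t' + 2 ≤ s → s ≤ t + 1 → ¬ K s (y - 1))
    (h2 : ∀ s, t' + 1 ≤ s → s ≤ t → ¬ K s y) :
    Leads0 (Hz K t y t) (Hz K t' y t') := by
  obtain ⟨n, hn⟩ : ∃ n : ℕ, t = t' + n := ⟨(t - t').toNat, by omega⟩
  subst hn
  clear h
  induction n with
  | zero => simpa using Leads0.refl _
  | succ n ih =>
    have := Lf_step (K := K) (t := t' + (n + 1 : ℕ)) (y := y)
      (h1 _ (by push_cast; omega) (by push_cast; omega))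
      (h2 _ (by push_cast; omega) (by push_cast; omega))
    have := this.to0
    refine this.trans ?_
    push_cast
    rw [show t' + ((n : ℤ) + 1) - 1 = t' + n by ring]
    exact ih (fun s hs hs' => h1 s hs (by push_cast; omega))
      (fun s hs hs' => h2 s hs (by push_cast; omega))

theorem Up_flight {K : ℤ → ℤ → Prop} {t y y' : ℤ} (h : y ≤ y')
    (h1 : ∀ s, y ≤ s → s ≤ y' → ¬ K (t - 1) s ∧ ¬ K t s ∧ ¬ K (t + 1) s) :
    Leads0 (Vt K t y (t - 1)) (Vt K t y' (t - 1)) := by
  obtain ⟨n, hn⟩ : ∃ n : ℕ, y' = y + n := ⟨(y' - y).toNat, by omega⟩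
  subst hn
  clear h
  induction n with
  | zero => simpa using Leads0.refl _
  | succ n ih =>
    refine (ih (fun s hs hs' => h1 s hs (by push_cast; omega))).trans ?_
    have a1 := h1 (y + n) (by omega) (by push_cast; omega)
    have a2 := h1 (y + n + 1) (by omega) (by push_cast; omega)
    have := (Up_step (K := K) (t := t) (y := y + n) a1.2.1 a2.1 a1.2.2 a2.2.1).to0
    push_cast
    rw [show y + ((n : ℤ) + 1) = y + n + 1 by ring]
    exact this

theorem Dn_flight {K : ℤ → ℤ → Prop} {t y y' : ℤ} (h : y' ≤ y)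
    (h1 : ∀ s, y' ≤ s → s ≤ y → ¬ K (t - 1) s ∧ ¬ K t s ∧ ¬ K (t + 1) s) :
    Leads0 (Vt K t y t) (Vt K t y' t) := by
  obtain ⟨n, hn⟩ : ∃ n : ℕ, y = y' + n := ⟨(y - y').toNat, by omega⟩
  subst hn
  clear h
  induction n with
  | zero => simpa using Leads0.refl _
  | succ n ih =>
    have a1 := h1 (y' + (n + 1 : ℕ)) (by push_cast; omega) (by push_cast; omega)
    have a2 := h1 (y' + (n + 1 : ℕ) - 1) (by push_cast; omega) (by push_cast; omega)
    have := (Dn_step (K := K) (t := t) (y := y' + (n + 1 : ℕ)) a1.2.1 a2.2.2 a2.2.1 a1.1).to0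
    refine this.trans ?_
    push_cast
    rw [show y' + ((n : ℤ) + 1) - 1 = y' + n by ring]
    exact ih (fun s hs hs' => h1 s hs (by push_cast; omega))

/-! ## Corners -/

def kCL : List (ℤ × ℤ) := [(7, 2), (6, 3)]
def kCR : List (ℤ × ℤ) := [(3, 3), (4, 2), (4, 5), (6, 4), (7, 3), (7, 4), (7, 5)]

def PC (t y : ℤ) : Bool := decide (0 ≤ t ∧ t ≤ 12 ∧ -1 ≤ y ∧ y ≤ 11)

theorem sim_leads {K : ℤ → ℤ → Prop} {k : List (ℤ × ℤ)} {P : ℤ → ℤ → Bool} (a b : ℤ)
    (hK : ∀ t y, P t y = true → (K (t + a) (y + b) ↔ (t, y) ∈ k)) {n : ℕ}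
    {p : ℤ} {M M' : List (Edge × V3)} (h : run k P p M n = some M') (hn : n ≥ 1) (q q' : ℤ)
    (hq : (q - p - a) % 2 = 0) (hq' : (q' - p - n - a) % 2 = 0) :
    Leads (cfg (ov K (shM a b M)) q) (cfg (ov K (shM a b M')) q') := by
  refine ⟨n, hn, ?_⟩
  rw [cfg_parity _ q (p + a) (by omega), run_shift a b hK h]
  exact cfg_parity _ _ _ (by omega)

theorem CL_up {K : ℤ → ℤ → Prop} (a b : ℤ)
    (hK : ∀ t y, 0 ≤ t → t ≤ 12 → -1 ≤ y → y ≤ 11 → (K (t + a) (y + b) ↔ (t, y) ∈ kCL)) :
    Leads (Vt K (6 + a) (-1 + b) (5 + a)) (Hz K (11 + a) (3 + b) (11 + a + 1)) := by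
  have h : run kCL PC 5 [((true, 6, -1), w)] 13 = some [((false, 11, 3), w)] := by decide +kernel
  exact sim_leads a b (by
    intro t y hP
    simp only [PC, decide_eq_true_eq] at hP
    exact hK t y hP.1 hP.2.1 hP.2.2.1 hP.2.2.2) h (by norm_num) _ _ (by omega) (by omega)

theorem CL_left {K : ℤ → ℤ → Prop} (a b : ℤ)
    (hK : ∀ t y, 0 ≤ t → t ≤ 12 → -1 ≤ y → y ≤ 11 → (K (t + a) (y + b) ↔ (t, y) ∈ kCL)) :
    Leads (Hz K (11 + a) (3 + b) (11 + a)) (Vt K (6 + a) (-1 + b) (6 + a)) := by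
  have h : run kCL PC 11 [((false, 11, 3), w)] 13 = some [((true, 6, -1), w)] := by
    decide +kernel
  exact sim_leads a b (by
    intro t y hP
    simp only [PC, decide_eq_true_eq] at hP
    exact hK t y hP.1 hP.2.1 hP.2.2.1 hP.2.2.2) h (by norm_num) _ _ (by omega) (by omega)

theorem CR_right {K : ℤ → ℤ → Prop} (a b : ℤ)
    (hK : ∀ t y, 0 ≤ t → t ≤ 12 → -1 ≤ y → y ≤ 11 → (K (t + a) (y + b) ↔ (t, y) ∈ kCR)) :
    Leads (Hz K (-1 + a) (3 + b) (-1 + a + 1)) (Vt K (6 + a) (-1 + b) (6 + a)) := by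
  have h : run kCR PC 0 [((false, -1, 3), w)] 34 = some [((true, 6, -1), w)] := by
    decide +kernel
  exact sim_leads a b (by
    intro t y hP
    simp only [PC, decide_eq_true_eq] at hP
    exact hK t y hP.1 hP.2.1 hP.2.2.1 hP.2.2.2) h (by norm_num) _ _ (by omega) (by omega)

theorem CR_up {K : ℤ → ℤ → Prop} (a b : ℤ)
    (hK : ∀ t y, 0 ≤ t → t ≤ 12 → -1 ≤ y → y ≤ 11 → (K (t + a) (y + b) ↔ (t, y) ∈ kCR)) :
    Leads (Vt K (6 + a) (-1 + b) (5 + a)) (Hz K (-1 + a) (3 + b) (-1 + a)) := by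
  have h : run kCR PC 5 [((true, 6, -1), w)] 34 = some [((false, -1, 3), w)] := by
    decide +kernel
  exact sim_leads a b (by
    intro t y hP
    simp only [PC, decide_eq_true_eq] at hP
    exact hK t y hP.1 hP.2.1 hP.2.2.1 hP.2.2.2) h (by norm_num) _ _ (by omega) (by omega)

/-! ## Adding a marker to the background -/

def ins (x : ℤ × ℤ) (K : ℤ → ℤ → Prop) : ℤ → ℤ → Prop := fun t y => (t, y) = x ∨ K t y

theorem ov_ins (K : ℤ → ℤ → Prop) (x : ℤ × ℤ) (e : Edge) (v : V3) (h : e ≠ (true, x)) :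
    ov (ins x K) [(e, v)] = ov K [(e, v), ((true, x), o)] := by
  classical
  funext e'
  unfold ov
  simp only [List.lookup_cons, List.lookup_nil]
  by_cases h1 : e' = e
  · simp [h1]
  · have h1' : (e' == e) = false := by simpa using h1
    by_cases h2 : e' = (true, x)
    · subst h2
      obtain ⟨t, y⟩ := x
      simp [h1', base, ins]
    · have h2' : (e' == (true, x)) = false := by simpa using h2
      simp only [h1', h2', Option.getD_none]
      obtain ⟨c, t, y⟩ := e'
      cases c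
      · rfl
      · have : (t, y) ≠ x := by
          rintro rfl
          exact h2 rfl
        simp [base, ins, this]

theorem ov_ins' (K : ℤ → ℤ → Prop) (x : ℤ × ℤ) (e : Edge) (v : V3) (h : e ≠ (true, x)) :
    ov (ins x K) [(e, v)] = ov K [((true, x), o), (e, v)] := by
  rw [ov_ins K x e v h]
  funext e'
  unfold ov
  simp only [List.lookup_cons, List.lookup_nil]
  by_cases h1 : e' = e
  · have h1' : (e' == e) = true := by simpa using h1
    have h2' : (e' == (true, x)) = false := by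
      rw [h1]
      simpa using h
    simp [h1', h2']
  · have h1' : (e' == e) = false := by simpa using h1
    simp [h1']

/-! ## Blocks -/

inductive Kind | X | L
  deriving DecidableEq

def kX : List (ℤ × ℤ) :=
  [(7, 2), (15, 3), (16, 2), (16, 7), (19, 2), (29, 7), (30, 6), (41, 3), (42, 2)]
def kL : List (ℤ × ℤ) :=
  [(7, 6), (19, 5), (31, 2), (39, 3), (40, 2), (40, 9), (41, 8), (53, 9), (54, 8)]

def stat : Kind → List (ℤ × ℤ)
  | .X => kX
  | .L => kL

/-- position of the dynamic marker of a block in state `s` -/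
def dyn : Kind → ℕ → ℤ × ℤ
  | .X, s => if s = 0 then (17, 7) else (18, 6)
  | .L, s => (40 + s, 6)

/-- transitions of the blocks: state, port of entry, new state, port of exit -/
inductive BT : Kind → ℕ → ℕ → ℕ → ℕ → Prop
  | x01 : BT .X 0 0 0 1
  | x10 : BT .X 0 1 0 0
  | x2 : BT .X 0 2 1 1
  | x3 : BT .X 0 3 1 0
  | y0 : BT .X 1 0 0 3
  | y1 : BT .X 1 1 0 2
  | inc (d : ℕ) : BT .L d 1 (d + 1) 0
  | dec (d : ℕ) : BT .L (d + 1) 0 d 1
  | t0 : BT .L 0 2 0 3
  | tp (d : ℕ) (h : 2 ≤ d) : BT .L d 2 d 4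
  | r0 : BT .L 0 3 0 2
  | rp (d : ℕ) (h : 2 ≤ d) : BT .L d 4 d 2

def PX (_ y : ℤ) : Bool := decide (-1 ≤ y ∧ y ≤ 11)
def PA (t y : ℤ) : Bool := decide (-1 ≤ y ∧ y ≤ 11 ∧ ¬ (40 ≤ t ∧ y = 6))
def PB (t y : ℤ) : Bool := decide (-1 ≤ y ∧ y ≤ 11 ∧ ¬ (42 ≤ t ∧ y = 6))
def PM (t y : ℤ) : Bool := decide (-1 ≤ y ∧ y ≤ 1 ∧ -6 ≤ t)

theorem X_sim {K : ℤ → ℤ → Prop} (a b : ℤ) (ha : a % 2 = 0) {k : List (ℤ × ℤ)}
    (hK : ∀ t y, -1 ≤ y → y ≤ 11 → (K (t + a) (y + b) ↔ (t, y) ∈ k))
    (s s' : ℤ × ℤ) (u u' : ℤ) (n : ℕ)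
    (hs : s ≠ (u, 11)) (hs' : s' ≠ (u', 11)) (hn : n % 2 = 1) (hu : u % 2 = 0)
    (hr : run k PX 0 [((true, u, 11), w), ((true, s), o)] n =
        some [((true, s'), o), ((true, u', 11), w)] ∨
      run k PX 0 [((true, u, 11), w), ((true, s), o)] n =
        some [((true, u', 11), w), ((true, s'), o)]) :
    Leads (Vt (ins (s.1 + a, s.2 + b) K) (u + a) (11 + b) 0)
      (Vt (ins (s'.1 + a, s'.2 + b) K) (u' + a) (11 + b) 1) := by
  have hK' : ∀ t y, PX t y = true → (K (t + a) (y + b) ↔ (t, y) ∈ k) := by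
    intro t y hP
    simp only [PX, decide_eq_true_eq] at hP
    exact hK t y hP.1 hP.2
  have ne1 : ((true, u + a, 11 + b) : Edge) ≠ (true, s.1 + a, s.2 + b) := by
    intro h
    simp only [Prod.mk.injEq, true_and] at h
    apply hs
    ext
    · simp only; omega
    · simp only; omega
  have ne2 : ((true, u' + a, 11 + b) : Edge) ≠ (true, s'.1 + a, s'.2 + b) := by
    intro h
    simp only [Prod.mk.injEq, true_and] at h
    apply hs'
    ext
    · simp only; omega
    · simp only; omega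
  unfold Vt
  rw [ov_ins K _ _ _ ne1]
  rcases hr with hr | hr
  · rw [ov_ins' K _ _ _ ne2]
    exact sim_leads a b hK' hr (by omega) 0 1 (by omega) (by omega)
  · rw [ov_ins K _ _ _ ne2]
    exact sim_leads a b hK' hr (by omega) 0 1 (by omega) (by omega)

theorem mem_kL {t y : ℤ} (h : (t, y) ∈ kL) : (t = 7 ∧ y = 6) ∨ (t = 19 ∧ y = 5) ∨
    (t = 31 ∧ y = 2) ∨ (t = 39 ∧ y = 3) ∨ (t = 40 ∧ y = 2) ∨ (t = 40 ∧ y = 9) ∨
    (t = 41 ∧ y = 8) ∨ (t = 53 ∧ y = 9) ∨ (t = 54 ∧ y = 8) := by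
  simpa [kL] using h

theorem ins_not {K : ℤ → ℤ → Prop} {a b : ℤ}
    (hK : ∀ t y, -1 ≤ y → y ≤ 11 → (K (t + a) (y + b) ↔ (t, y) ∈ kL)) (m : ℤ) {t y : ℤ}
    (hy : -1 ≤ y) (hy' : y ≤ 11) (h1 : (t, y) ∉ kL) (h2 : ¬ (t = m ∧ y = 6)) :
    ¬ ins (m + a, 6 + b) K (t + a) (y + b) := by
  rintro (h | h)
  · simp only [Prod.mk.injEq] at h
    exact h2 ⟨by omega, by omega⟩
  · exact h1 ((hK t y hy hy').1 h)

theorem ins_iff {K : ℤ → ℤ → Prop} {a b : ℤ}
    (hK : ∀ t y, -1 ≤ y → y ≤ 11 → (K (t + a) (y + b) ↔ (t, y) ∈ kL)) (m : ℤ) {t y : ℤ}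
    (hy : -1 ≤ y) (hy' : y ≤ 11) (h2 : ¬ (t = m ∧ y = 6)) :
    ins (m + a, 6 + b) K (t + a) (y + b) ↔ (t, y) ∈ kL := by
  rw [← hK t y hy hy']
  constructor
  · rintro (h | h)
    · simp only [Prod.mk.injEq] at h
      exact absurd ⟨by omega, by omega⟩ h2
    · exact h
  · exact Or.inr

theorem lane_inc {K : ℤ → ℤ → Prop} (a b : ℤ) (ha : a % 2 = 0)
    (hK : ∀ t y, -1 ≤ y → y ≤ 11 → (K (t + a) (y + b) ↔ (t, y) ∈ kL)) (d : ℕ) :
    Leads (Vt (ins (40 + d + a, 6 + b) K) (18 + a) (11 + b) 0)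
      (Vt (ins (40 + (d + 1 : ℕ) + a, 6 + b) K) (6 + a) (11 + b) 1) := by
  -- turn
  have r1 : run kL PA 0 [((true, 18, 11), w)] 11 = some [((false, 18, 6), w)] := by
    decide +kernel
  have s1 : Leads (Vt (ins (40 + d + a, 6 + b) K) (18 + a) (11 + b) 0)
      (Hz (ins (40 + d + a, 6 + b) K) (18 + a) (6 + b) (18 + a + 1)) := by
    refine sim_leads a b ?_ r1 (by norm_num) _ _ (by omega) (by omega)
    intro t y hP
    simp only [PA, decide_eq_true_eq] at hP
    exact ins_iff hK _ hP.1 hP.2.1 (by omega)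
  -- flight
  have s2 : Leads0 (Hz (ins (40 + d + a, 6 + b) K) (18 + a) (6 + b) (18 + a + 1))
      (Hz (ins (40 + d + a, 6 + b) K) (33 + d + a) (6 + b) (33 + d + a + 1)) := by
    refine Rt_flight (by omega) ?_ ?_
    · intro s hs hs'
      have := ins_not hK (40 + d) (t := s - a) (y := 5) (by norm_num) (by norm_num)
        (by intro h; have := mem_kL h; omega) (by omega)
      rwa [sub_add_cancel, show (5 : ℤ) + b = 6 + b - 1 by ring] at this
    · intro s hs hs'
      have := ins_not hK (40 + d) (t := s - a) (y := 6) (by norm_num) (by norm_num)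
        (by intro h; have := mem_kL h; omega) (by omega)
      rwa [sub_add_cancel] at this
  -- bounce
  have r3 : run [] PM 0 [((false, -7, 0), w), ((true, 0, 0), o)] 14 =
      some [((true, 1, 0), o), ((false, -6, 1), w)] := by decide +kernel
  have s3 : Leads (Hz (ins (40 + d + a, 6 + b) K) (33 + d + a) (6 + b) (33 + d + a + 1))
      (Hz (ins (40 + (d + 1 : ℕ) + a, 6 + b) K) (34 + d + a) (7 + b) (34 + d + a)) := by
    have := sim_leads (K := K) (40 + d + a) (6 + b) (k := []) (P := PM) (by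
      intro t y hP
      simp only [PM, decide_eq_true_eq] at hP
      have h := hK (t + (40 + d)) (y + 6) (by omega) (by omega)
      rw [show t + (40 + (d : ℤ) + a) = t + (40 + d) + a by ring,
        show y + (6 + b) = y + 6 + b by ring, h]
      simp only [List.not_mem_nil, iff_false]
      intro hm
      have := mem_kL hm
      omega) r3 (by norm_num) (33 + d + a + 1) (34 + d + a) (by omega) (by push_cast; omega)
    unfold Hz
    rw [ov_ins K _ _ _ (by simp), ov_ins' K _ _ _ (by simp)]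
    simp only [shM, List.map_cons, List.map_nil] at this
    rw [show (-7 : ℤ) + (40 + d + a) = 33 + d + a by ring,
      show (0 : ℤ) + (6 + b) = 6 + b by ring, show (0 : ℤ) + (40 + d + a) = 40 + d + a by ring,
      show (1 : ℤ) + (40 + d + a) = 40 + (d + 1 : ℕ) + a by push_cast; ring,
      show (-6 : ℤ) + (40 + d + a) = 34 + d + a by ring,
      show (1 : ℤ) + (6 + b) = 7 + b by ring] at this
    exact this
  -- flight back
  have s4 : Leads0 (Hz (ins (40 + (d + 1 : ℕ) + a, 6 + b) K) (34 + d + a) (7 + b) (34 + d + a))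
      (Hz (ins (40 + (d + 1 : ℕ) + a, 6 + b) K) (30 + a) (7 + b) (30 + a)) := by
    refine Lf_flight (by omega) ?_ ?_
    · intro s hs hs'
      have := ins_not hK (40 + (d + 1 : ℕ)) (t := s - a) (y := 6) (by norm_num) (by norm_num)
        (by intro h; have := mem_kL h; omega) (by push_cast; omega)
      rw [show (7 : ℤ) + b - 1 = 6 + b by ring]
      rwa [sub_add_cancel] at this
    · intro s hs hs'
      have := ins_not hK (40 + (d + 1 : ℕ)) (t := s - a) (y := 7) (by norm_num) (by norm_num)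
        (by intro h; have := mem_kL h; omega) (by omega)
      rwa [sub_add_cancel] at this
  -- turn
  have r5 : run kL PA 0 [((false, 30, 7), w)] 33 = some [((true, 6, 11), w)] := by
    decide +kernel
  have s5 : Leads (Hz (ins (40 + (d + 1 : ℕ) + a, 6 + b) K) (30 + a) (7 + b) (30 + a))
      (Vt (ins (40 + (d + 1 : ℕ) + a, 6 + b) K) (6 + a) (11 + b) 1) := by
    refine sim_leads a b ?_ r5 (by norm_num) _ _ (by omega) (by omega)
    intro t y hP
    simp only [PA, decide_eq_true_eq] at hP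
    exact ins_iff hK _ hP.1 hP.2.1 (by push_cast; omega)
  exact (((s1.trans0 s2).trans s3).trans0 s4).trans s5

theorem lane_dec {K : ℤ → ℤ → Prop} (a b : ℤ) (ha : a % 2 = 0)
    (hK : ∀ t y, -1 ≤ y → y ≤ 11 → (K (t + a) (y + b) ↔ (t, y) ∈ kL)) (d : ℕ) :
    Leads (Vt (ins (40 + (d + 1 : ℕ) + a, 6 + b) K) (6 + a) (11 + b) 0)
      (Vt (ins (40 + d + a, 6 + b) K) (18 + a) (11 + b) 1) := by
  -- turn
  have r1 : run kL PA 0 [((true, 6, 11), w)] 9 = some [((false, 6, 7), w)] := by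
    decide +kernel
  have s1 : Leads (Vt (ins (40 + (d + 1 : ℕ) + a, 6 + b) K) (6 + a) (11 + b) 0)
      (Hz (ins (40 + (d + 1 : ℕ) + a, 6 + b) K) (6 + a) (7 + b) (6 + a + 1)) := by
    refine sim_leads a b ?_ r1 (by norm_num) _ _ (by omega) (by omega)
    intro t y hP
    simp only [PA, decide_eq_true_eq] at hP
    exact ins_iff hK _ hP.1 hP.2.1 (by omega)
  -- flight
  have s2 : Leads0 (Hz (ins (40 + (d + 1 : ℕ) + a, 6 + b) K) (6 + a) (7 + b) (6 + a + 1))
      (Hz (ins (40 + (d + 1 : ℕ) + a, 6 + b) K) (34 + d + a) (7 + b) (34 + d + a + 1)) := by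
    refine Rt_flight (by omega) ?_ ?_
    · intro s hs hs'
      have := ins_not hK (40 + (d + 1 : ℕ)) (t := s - a) (y := 6) (by norm_num) (by norm_num)
        (by intro h; have := mem_kL h; omega) (by push_cast; omega)
      rw [show (7 : ℤ) + b - 1 = 6 + b by ring]
      rwa [sub_add_cancel] at this
    · intro s hs hs'
      have := ins_not hK (40 + (d + 1 : ℕ)) (t := s - a) (y := 7) (by norm_num) (by norm_num)
        (by intro h; have := mem_kL h; omega) (by omega)
      rwa [sub_add_cancel] at this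
  -- bounce
  have r3 : run [] PM 0 [((false, -7, 1), w), ((true, 0, 0), o)] 12 =
      some [((false, -6, 0), w), ((true, -1, 0), o)] := by decide +kernel
  have s3 : Leads (Hz (ins (40 + (d + 1 : ℕ) + a, 6 + b) K) (34 + d + a) (7 + b) (34 + d + a + 1))
      (Hz (ins (40 + d + a, 6 + b) K) (35 + d + a) (6 + b) (35 + d + a)) := by
    have := sim_leads (K := K) (40 + (d + 1 : ℕ) + a) (6 + b) (k := []) (P := PM) (by
      intro t y hP
      simp only [PM, decide_eq_true_eq] at hP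
      have h := hK (t + (40 + (d + 1 : ℕ))) (y + 6) (by omega) (by omega)
      rw [show t + (40 + ((d + 1 : ℕ) : ℤ) + a) = t + (40 + (d + 1 : ℕ)) + a by ring,
        show y + (6 + b) = y + 6 + b by ring, h]
      simp only [List.not_mem_nil, iff_false]
      intro hm
      have := mem_kL hm
      omega) r3 (by norm_num) (34 + d + a + 1) (35 + d + a) (by push_cast; omega)
      (by push_cast; omega)
    unfold Hz
    rw [ov_ins K _ _ _ (by simp), ov_ins K _ _ _ (by simp)]
    simp only [shM, List.map_cons, List.map_nil] at this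
    rw [show (-7 : ℤ) + (40 + (d + 1 : ℕ) + a) = 34 + d + a by push_cast; ring,
      show (1 : ℤ) + (6 + b) = 7 + b by ring,
      show (0 : ℤ) + (40 + (d + 1 : ℕ) + a) = 40 + (d + 1 : ℕ) + a by ring,
      show (0 : ℤ) + (6 + b) = 6 + b by ring,
      show (-6 : ℤ) + (40 + (d + 1 : ℕ) + a) = 35 + d + a by push_cast; ring,
      show (-1 : ℤ) + (40 + (d + 1 : ℕ) + a) = 40 + d + a by push_cast; ring] at this
    exact this
  -- flight back
  have s4 : Leads0 (Hz (ins (40 + d + a, 6 + b) K) (35 + d + a) (6 + b) (35 + d + a))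
      (Hz (ins (40 + d + a, 6 + b) K) (30 + a) (6 + b) (30 + a)) := by
    refine Lf_flight (by omega) ?_ ?_
    · intro s hs hs'
      have := ins_not hK (40 + d) (t := s - a) (y := 5) (by norm_num) (by norm_num)
        (by intro h; have := mem_kL h; omega) (by omega)
      rwa [sub_add_cancel, show (5 : ℤ) + b = 6 + b - 1 by ring] at this
    · intro s hs hs'
      have := ins_not hK (40 + d) (t := s - a) (y := 6) (by norm_num) (by norm_num)
        (by intro h; have := mem_kL h; omega) (by omega)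
      rwa [sub_add_cancel] at this
  -- turn
  have r5 : run kL PA 0 [((false, 30, 6), w)] 23 = some [((true, 18, 11), w)] := by
    decide +kernel
  have s5 : Leads (Hz (ins (40 + d + a, 6 + b) K) (30 + a) (6 + b) (30 + a))
      (Vt (ins (40 + d + a, 6 + b) K) (18 + a) (11 + b) 1) := by
    refine sim_leads a b ?_ r5 (by norm_num) _ _ (by omega) (by omega)
    intro t y hP
    simp only [PA, decide_eq_true_eq] at hP
    exact ins_iff hK _ hP.1 hP.2.1 (by omega)
  exact (((s1.trans0 s2).trans s3).trans0 s4).trans s5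

theorem lane_pos {K : ℤ → ℤ → Prop} (a b : ℤ) (ha : a % 2 = 0)
    (hK : ∀ t y, -1 ≤ y → y ≤ 11 → (K (t + a) (y + b) ↔ (t, y) ∈ kL)) (d : ℕ) (hd : 2 ≤ d)
    (u u' : ℤ)
    (hr : run kL PB 0 [((true, u, 11), w)] 57 = some [((true, u', 11), w)]) :
    Leads (Vt (ins (40 + d + a, 6 + b) K) (u + a) (11 + b) 0)
      (Vt (ins (40 + d + a, 6 + b) K) (u' + a) (11 + b) 1) := by
  refine sim_leads a b ?_ hr (by norm_num) _ _ (by omega) (by omega)
  intro t y hP
  simp only [PB, decide_eq_true_eq] at hP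
  exact ins_iff hK _ hP.1 hP.2.1 (by omega)

theorem block_thm {κ : Kind} {s p s' p' : ℕ} (h : BT κ s p s' p') {K : ℤ → ℤ → Prop} (a b : ℤ)
    (ha : a % 2 = 0)
    (hK : ∀ t y, -1 ≤ y → y ≤ 11 → (K (t + a) (y + b) ↔ (t, y) ∈ stat κ)) :
    Leads (Vt (ins ((dyn κ s).1 + a, (dyn κ s).2 + b) K) (6 + 12 * p + a) (11 + b) 0)
      (Vt (ins ((dyn κ s').1 + a, (dyn κ s').2 + b) K) (6 + 12 * p' + a) (11 + b) 1) := by
  cases h with
  | x01 =>
    exact X_sim a b ha hK (17, 7) (17, 7) 6 18 45 (by decide) (by decide) rfl rfl (by decide +kernel)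
  | x10 =>
    exact X_sim a b ha hK (17, 7) (17, 7) 18 6 45 (by decide) (by decide) rfl rfl (by decide +kernel)
  | x2 =>
    exact X_sim a b ha hK (17, 7) (18, 6) 30 18 31 (by decide) (by decide) rfl rfl
      (by decide +kernel)
  | x3 =>
    exact X_sim a b ha hK (17, 7) (18, 6) 42 6 83 (by decide) (by decide) rfl rfl
      (by decide +kernel)
  | y0 =>
    exact X_sim a b ha hK (18, 6) (17, 7) 6 42 83 (by decide) (by decide) rfl rfl
      (by decide +kernel)
  | y1 =>
    exact X_sim a b ha hK (18, 6) (17, 7) 18 30 31 (by decide) (by decide) rfl rfl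
      (by decide +kernel)
  | inc =>
    exact lane_inc a b ha hK s
  | dec =>
    exact lane_dec a b ha hK s'
  | t0 =>
    exact X_sim a b ha hK (40, 6) (40, 6) 30 42 45 (by decide) (by decide) rfl rfl
      (by decide +kernel)
  | tp =>
    exact lane_pos a b ha hK s (by assumption) 30 54 (by decide +kernel)
  | r0 =>
    exact X_sim a b ha hK (40, 6) (40, 6) 42 30 45 (by decide) (by decide) rfl rfl
      (by decide +kernel)
  | rp =>
    exact lane_pos a b ha hK s (by assumption) 54 30 (by decide +kernel)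

end Pool.Agent.SPCA81
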