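import Pool.Agent.Lib.MP_abc193_lc.Net
import Pool.Agent.Lib.MP_99e598_lc.Comp

namespace Pool.Agent.SPCA81

open Pool.Agent.AttrHIF (eqB)

set_option linter.unusedSimpArgs false

/-! ## The compiled network -/

/-- the rules whose states and counters are in range -/
def rules' (M : Machine) : List Rule :=
  M.2.2.filter (fun r => decide (r.1 < M.2.1) && (decide (r.2.1 < M.1) &&
    decide (r.2.2.2 < M.2.1)))

def nE (M : Machine) : ℕ := (rules' M).length
def rl (M : Machine) (e : ℕ) : Rule := (rules' M).getD e (0, 0, 0, 0)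
def src (M : Machine) (e : ℕ) : ℕ := (rl M e).1
def ctr (M : Machine) (e : ℕ) : ℕ := (rl M e).2.1
def op (M : Machine) (e : ℕ) : Fin 5 := (rl M e).2.2.1
def dst (M : Machine) (e : ℕ) : ℕ := (rl M e).2.2.2
/-- number of lanes: lanes `2q`, `2q+1` belong to the state `q`, lane `2m+i` to the counter `i` -/
def nL (M : Machine) : ℕ := 2 * M.2.1 + M.1

/-- the first `e < n` with `P e` (and `E` if there is none) -/
def firstE (E : ℕ) (P : ℕ → Bool) (n : ℕ) : ℕ :=
  Nat.rec (motive := fun _ => ℕ) E
    (fun n r => bif decide (r < E) then r else bif P n then n else E) n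

theorem firstE_spec (E : ℕ) (P : ℕ → Bool) (n : ℕ) (hn : n ≤ E) :
    (firstE E P n < E → firstE E P n < n ∧ P (firstE E P n) = true) ∧
    (∀ e < n, P e = true → firstE E P n ≤ e) := by
  induction n with
  | zero =>
    refine ⟨fun h => ?_, fun e he => by omega⟩
    exact absurd h (lt_irrefl E)
  | succ n ih =>
    have ih' := ih (by omega)
    have hs : firstE E P (n + 1) =
        bif decide (firstE E P n < E) then firstE E P n else bif P n then n else E := rfl
    by_cases h1 : firstE E P n < E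
    · have hs' : firstE E P (n + 1) = firstE E P n := by
        rw [hs]; simp [h1]
      rw [hs']
      refine ⟨fun h => ⟨by have := (ih'.1 h).1; omega, (ih'.1 h).2⟩, fun e he hP => ?_⟩
      rcases Nat.lt_or_ge e n with h | h
      · exact ih'.2 e h hP
      · have := (ih'.1 h1).1; omega
    · by_cases h2 : P n = true
      · have hs' : firstE E P (n + 1) = n := by
          rw [hs]; simp [h1, h2]
        rw [hs']
        refine ⟨fun _ => ⟨by omega, h2⟩, fun e he hP => ?_⟩
        rcases Nat.lt_or_ge e n with h | h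
        · have := ih'.2 e h hP; omega
        · omega
      · have hs' : firstE E P (n + 1) = E := by
          rw [hs]; simp [h1, h2]
        rw [hs']
        refine ⟨fun h => absurd h (lt_irrefl E), fun e he hP => ?_⟩
        rcases Nat.lt_or_ge e n with h | h
        · have := ih'.2 e h hP; omega
        · have : e = n := by omega
          subst this
          exact absurd hP h2

theorem firstE_congr (E : ℕ) (P P' : ℕ → Bool) (n : ℕ) (h : ∀ e < n, P e = P' e) :
    firstE E P n = firstE E P' n := by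
  induction n with
  | zero => rfl
  | succ n ih =>
    have hs : firstE E P (n + 1) =
        bif decide (firstE E P n < E) then firstE E P n else bif P n then n else E := rfl
    have hs' : firstE E P' (n + 1) =
        bif decide (firstE E P' n < E) then firstE E P' n else bif P' n then n else E := rfl
    rw [hs, hs', ih (fun e he => h e (by omega)), h n (by omega)]

def first (M : Machine) (P : ℕ → Bool) : ℕ := firstE (nE M) P (nE M)

theorem first_lt {M : Machine} {P : ℕ → Bool} (h : first M P < nE M) : P (first M P) = true :=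
  ((firstE_spec (nE M) P (nE M) le_rfl).1 h).2

theorem first_le {M : Machine} {P : ℕ → Bool} {e : ℕ} (he : e < nE M) (h : P e = true) :
    first M P ≤ e :=
  (firstE_spec (nE M) P (nE M) le_rfl).2 e he h

theorem first_congr {M : Machine} {P P' : ℕ → Bool} (h : ∀ e < nE M, P e = P' e) :
    first M P = first M P' := firstE_congr _ _ _ _ h

/-- canonical edges leaving / entering a state -/
def oZ (M : Machine) (q : ℕ) : ℕ :=
  first M (fun e => eqB (src M e) q && eqB (op M e) 0)
def oN (M : Machine) (q : ℕ) : ℕ :=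
  first M (fun e => eqB (src M e) q && !(eqB (op M e) 0))
def iZ (M : Machine) (q : ℕ) : ℕ :=
  first M (fun e => eqB (dst M e) q && eqB (op M e) 0)
def iN (M : Machine) (q : ℕ) : ℕ :=
  first M (fun e => eqB (dst M e) q && !(eqB (op M e) 0))

/-- the operation does not change the counters -/
def nop (M : Machine) (e : ℕ) : Bool := eqB (op M e) 1 || eqB (op M e) 3

/-- out-junction of `q`: `0` none, `1` single, `2` pair -/
def kO (M : Machine) (q : ℕ) : ℕ :=
  bif decide (oZ M q < nE M) then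
    (bif decide (oN M q < nE M) then
      (bif nop M (oN M q) && eqB (dst M (oZ M q)) (dst M (oN M q)) then 1 else 2)
    else 1)
  else (bif decide (oN M q < nE M) then 1 else 0)
def eO (M : Machine) (q : ℕ) : ℕ := bif decide (oZ M q < nE M) then oZ M q else oN M q

/-- in-junction of `q` -/
def kI (M : Machine) (q : ℕ) : ℕ :=
  bif decide (iZ M q < nE M) then
    (bif decide (iN M q < nE M) then
      (bif nop M (iN M q) && eqB (src M (iZ M q)) (src M (iN M q)) then 1 else 2)
    else 1)
  else (bif decide (iN M q < nE M) then 1 else 0)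
def eI (M : Machine) (q : ℕ) : ℕ := bif decide (iZ M q < nE M) then iZ M q else iN M q

/-- the counter stored by a lane -/
def lc (M : Machine) (l : ℕ) : ℕ :=
  bif decide (l < 2 * M.2.1) then
    (bif eqB (l % 2) 0 then ctr M (iZ M (l / 2)) else ctr M (oZ M (l / 2)))
  else l - 2 * M.2.1

/-- direction of the unit operation at site `(e,j)`: `true` = increment -/
def dirI (M : Machine) (e j : ℕ) : Bool :=
  bif eqB (lc M (j / 2)) (ctr M e) && eqB (op M e) 4 then true
  else bif eqB (lc M (j / 2)) (ctr M e) && eqB (op M e) 2 then false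
  else eqB (j % 2) 0

def pin (M : Machine) (e j : ℕ) : ℕ := bif dirI M e j then 2 else 3
def pout (M : Machine) (e j : ℕ) : ℕ := bif dirI M e j then 3 else 2

abbrev Blk := ℕ × ℕ × ℕ
abbrev Port := Blk × ℕ

def fin (M : Machine) (e : ℕ) : Port :=
  bif eqB (kI M (dst M e)) 1 && eqB (eI M (dst M e)) e then ((0, dst M e, 0), 0)
  else bif eqB (kI M (dst M e)) 2 && eqB (iZ M (dst M e)) e then ((1, 2 * dst M e, 0), 3)
  else bif eqB (kI M (dst M e)) 2 && eqB (iN M (dst M e)) e then ((1, 2 * dst M e, 0), 4)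
  else ((2, e, 2 * nL M - 1), pout M e (2 * nL M - 1))

def start (M : Machine) (e : ℕ) : Port :=
  bif eqB (kO M (src M e)) 1 && eqB (eO M (src M e)) e then ((0, src M e, 0), 1)
  else bif eqB (kO M (src M e)) 2 && eqB (oZ M (src M e)) e then ((1, 2 * src M e + 1, 0), 3)
  else bif eqB (kO M (src M e)) 2 && eqB (oN M (src M e)) e then ((1, 2 * src M e + 1, 0), 4)
  else ((2, e, 0), pin M e 0)

def partnerD (M : Machine) (P : Port) : Port :=
  bif eqB P.2 0 then
    (bif eqB (kI M P.1.2.1) 1 then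
      ((2, eI M P.1.2.1, 2 * nL M - 1), pout M (eI M P.1.2.1) (2 * nL M - 1))
    else bif eqB (kI M P.1.2.1) 2 then ((1, 2 * P.1.2.1, 0), 2) else P)
  else bif eqB P.2 1 then
    (bif eqB (kO M P.1.2.1) 1 then ((2, eO M P.1.2.1, 0), pin M (eO M P.1.2.1) 0)
    else bif eqB (kO M P.1.2.1) 2 then ((1, 2 * P.1.2.1 + 1, 0), 2) else P)
  else P

def partnerL (M : Machine) (P : Port) : Port :=
  bif eqB P.2 0 then (bif eqB (nE M) 0 then P else ((2, 0, 2 * P.1.2.1), 0))
  else bif eqB P.2 1 then (bif eqB (nE M) 0 then P else ((2, nE M - 1, 2 * P.1.2.1 + 1), 1))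
  else bif decide (P.1.2.1 < 2 * M.2.1) then
    (bif eqB (P.1.2.1 % 2) 0 then
      (bif eqB (kI M (P.1.2.1 / 2)) 2 then
        (bif eqB P.2 2 then ((0, P.1.2.1 / 2, 0), 0)
        else bif eqB P.2 3 then ((2, iZ M (P.1.2.1 / 2), 2 * nL M - 1),
          pout M (iZ M (P.1.2.1 / 2)) (2 * nL M - 1))
        else ((2, iN M (P.1.2.1 / 2), 2 * nL M - 1),
          pout M (iN M (P.1.2.1 / 2)) (2 * nL M - 1)))
      else P)
    else
      (bif eqB (kO M (P.1.2.1 / 2)) 2 then
        (bif eqB P.2 2 then ((0, P.1.2.1 / 2, 0), 1)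
        else bif eqB P.2 3 then ((2, oZ M (P.1.2.1 / 2), 0), pin M (oZ M (P.1.2.1 / 2)) 0)
        else ((2, oN M (P.1.2.1 / 2), 0), pin M (oN M (P.1.2.1 / 2)) 0))
      else P))
  else P

def partnerS (M : Machine) (P : Port) : Port :=
  bif eqB P.2 0 then
    (bif eqB (P.1.2.2 % 2) 0 then
      (bif eqB P.1.2.1 0 then ((1, P.1.2.2 / 2, 0), 0)
      else ((2, P.1.2.1 - 1, P.1.2.2 + 1), 1))
    else ((2, P.1.2.1, P.1.2.2 - 1), 1))
  else bif eqB P.2 1 then
    (bif eqB (P.1.2.2 % 2) 0 then ((2, P.1.2.1, P.1.2.2 + 1), 0)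
    else (bif eqB (P.1.2.1 + 1) (nE M) then ((1, P.1.2.2 / 2, 0), 1)
      else ((2, P.1.2.1 + 1, P.1.2.2 - 1), 0)))
  else bif eqB P.2 (pin M P.1.2.1 P.1.2.2) then
    (bif eqB P.1.2.2 0 then start M P.1.2.1
    else ((2, P.1.2.1, P.1.2.2 - 1), pout M P.1.2.1 (P.1.2.2 - 1)))
  else bif eqB P.2 (pout M P.1.2.1 P.1.2.2) then
    (bif eqB (P.1.2.2 + 1) (2 * nL M) then fin M P.1.2.1
    else ((2, P.1.2.1, P.1.2.2 + 1), pin M P.1.2.1 (P.1.2.2 + 1)))
  else P

/-- the wire at a port -/
def partner (M : Machine) (P : Port) : Port :=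
  bif eqB P.1.1 0 then partnerD M P
  else bif eqB P.1.1 1 then partnerL M P
  else partnerS M P

/-- the list of blocks -/
def blocks (M : Machine) : List Blk :=
  (List.range M.2.1).map (fun q => (0, q, 0)) ++
    ((List.range (nL M)).map (fun l => (1, l, 0)) ++
      (List.range (nE M)).flatMap (fun e => (List.range (2 * nL M)).map (fun j => (2, e, j))))

theorem mem_blocks {M : Machine} {B : Blk} : B ∈ blocks M ↔
    (B.1 = 0 ∧ B.2.1 < M.2.1 ∧ B.2.2 = 0) ∨ (B.1 = 1 ∧ B.2.1 < nL M ∧ B.2.2 = 0) ∨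
    (B.1 = 2 ∧ B.2.1 < nE M ∧ B.2.2 < 2 * nL M) := by
  obtain ⟨a, b, c⟩ := B
  simp only [blocks, List.mem_append, List.mem_map, List.mem_range, List.mem_flatMap,
    Prod.mk.injEq]
  constructor
  · rintro (⟨q, hq, rfl, rfl, rfl⟩ | ⟨l, hl, rfl, rfl, rfl⟩ | ⟨e, he, j, hj, rfl, rfl, rfl⟩)
    · exact Or.inl ⟨rfl, hq, rfl⟩
    · exact Or.inr (Or.inl ⟨rfl, hl, rfl⟩)
    · exact Or.inr (Or.inr ⟨rfl, he, hj⟩)
  · rintro (⟨rfl, h, rfl⟩ | ⟨rfl, h, rfl⟩ | ⟨rfl, h, h'⟩)
    · exact Or.inl ⟨b, h, rfl, rfl, rfl⟩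
    · exact Or.inr (Or.inl ⟨b, h, rfl, rfl, rfl⟩)
    · exact Or.inr (Or.inr ⟨b, h, c, h', rfl, rfl, rfl⟩)

/-! ### properties of the junctions -/

theorem cond_if {α : Type*} (b : Bool) (x y : α) : (bif b then x else y) = if b then x else y := by
  cases b <;> rfl

theorem eqB_false {β : Type*} [DecidableEq β] (a b : β) : eqB a b = false ↔ a ≠ b := by
  rw [← not_iff_not]
  simp

theorem oZ_spec {M : Machine} {q : ℕ} (h : oZ M q < nE M) :
    src M (oZ M q) = q ∧ op M (oZ M q) = 0 := by
  have : (eqB (src M (oZ M q)) q && eqB (op M (oZ M q)) 0) = true := first_lt h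
  simpa [Bool.and_eq_true] using this

theorem oN_spec {M : Machine} {q : ℕ} (h : oN M q < nE M) :
    src M (oN M q) = q ∧ op M (oN M q) ≠ 0 := by
  have : (eqB (src M (oN M q)) q && !(eqB (op M (oN M q)) 0)) = true := first_lt h
  simpa [Bool.and_eq_true, eqB_false] using this

theorem iZ_spec {M : Machine} {q : ℕ} (h : iZ M q < nE M) :
    dst M (iZ M q) = q ∧ op M (iZ M q) = 0 := by
  have : (eqB (dst M (iZ M q)) q && eqB (op M (iZ M q)) 0) = true := first_lt h
  simpa [Bool.and_eq_true] using this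

theorem iN_spec {M : Machine} {q : ℕ} (h : iN M q < nE M) :
    dst M (iN M q) = q ∧ op M (iN M q) ≠ 0 := by
  have : (eqB (dst M (iN M q)) q && !(eqB (op M (iN M q)) 0)) = true := first_lt h
  simpa [Bool.and_eq_true, eqB_false] using this

theorem kO_one {M : Machine} {q : ℕ} (h : kO M q = 1) : eO M q < nE M ∧ src M (eO M q) = q := by
  unfold kO at h
  unfold eO
  by_cases h1 : oZ M q < nE M
  · simp only [h1, decide_true, cond_true]
    exact ⟨trivial, (oZ_spec h1).1⟩
  · simp only [h1, decide_false, cond_false] at h ⊢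
    by_cases h2 : oN M q < nE M
    · exact ⟨h2, (oN_spec h2).1⟩
    · simp [h2] at h

theorem kO_two {M : Machine} {q : ℕ} (h : kO M q = 2) : oZ M q < nE M ∧ oN M q < nE M := by
  unfold kO at h
  by_cases h1 : oZ M q < nE M
  · by_cases h2 : oN M q < nE M
    · exact ⟨h1, h2⟩
    · simp [h1, h2] at h
  · by_cases h2 : oN M q < nE M <;> simp [h1, h2] at h

theorem kI_one {M : Machine} {q : ℕ} (h : kI M q = 1) : eI M q < nE M ∧ dst M (eI M q) = q := by
  unfold kI at h
  unfold eI
  by_cases h1 : iZ M q < nE M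
  · simp only [h1, decide_true, cond_true]
    exact ⟨trivial, (iZ_spec h1).1⟩
  · simp only [h1, decide_false, cond_false] at h ⊢
    by_cases h2 : iN M q < nE M
    · exact ⟨h2, (iN_spec h2).1⟩
    · simp [h2] at h

theorem kI_two {M : Machine} {q : ℕ} (h : kI M q = 2) : iZ M q < nE M ∧ iN M q < nE M := by
  unfold kI at h
  by_cases h1 : iZ M q < nE M
  · by_cases h2 : iN M q < nE M
    · exact ⟨h1, h2⟩
    · simp [h1, h2] at h
  · by_cases h2 : iN M q < nE M <;> simp [h1, h2] at h

theorem rl_valid {M : Machine} {e : ℕ} (he : e < nE M) :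
    rl M e ∈ M.2.2 ∧ src M e < M.2.1 ∧ ctr M e < M.1 ∧ dst M e < M.2.1 := by
  have h1 : rl M e ∈ rules' M := by
    unfold rl
    rw [List.getD_eq_getElem _ _ he]
    exact List.getElem_mem _
  have h2 := List.mem_filter.1 h1
  refine ⟨h2.1, ?_⟩
  simpa [src, ctr, dst, Bool.and_eq_true] using h2.2

theorem pin_cases (M : Machine) (e j : ℕ) :
    (pin M e j = 2 ∧ pout M e j = 3) ∨ (pin M e j = 3 ∧ pout M e j = 2) := by
  unfold pin pout
  cases dirI M e j <;> simp


/-! ### the wiring is an involution -/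

theorem fin_cases {M : Machine} {e : ℕ} :
    (kI M (dst M e) = 1 ∧ eI M (dst M e) = e ∧ fin M e = ((0, dst M e, 0), 0)) ∨
    (kI M (dst M e) = 2 ∧ iZ M (dst M e) = e ∧ fin M e = ((1, 2 * dst M e, 0), 3)) ∨
    (kI M (dst M e) = 2 ∧ iZ M (dst M e) ≠ e ∧ iN M (dst M e) = e ∧
      fin M e = ((1, 2 * dst M e, 0), 4)) ∨
    (fin M e = ((2, e, 2 * nL M - 1), pout M e (2 * nL M - 1))) := by
  unfold fin
  simp only [cond_if, Bool.and_eq_true, Pool.Agent.AttrHIF.eqB_iff]
  by_cases h1 : kI M (dst M e) = 1 ∧ eI M (dst M e) = e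
  · simp [h1]
  · by_cases h2 : kI M (dst M e) = 2 ∧ iZ M (dst M e) = e
    · simp [h1, h2]
    · by_cases h3 : kI M (dst M e) = 2 ∧ iN M (dst M e) = e
      · simp only [h1, h2, h3, if_false, if_true, and_self]
        have : iZ M (dst M e) ≠ e := fun h => h2 ⟨h3.1, h⟩
        simp [this]
      · simp [h1, h2, h3]

theorem start_cases {M : Machine} {e : ℕ} :
    (kO M (src M e) = 1 ∧ eO M (src M e) = e ∧ start M e = ((0, src M e, 0), 1)) ∨
    (kO M (src M e) = 2 ∧ oZ M (src M e) = e ∧ start M e = ((1, 2 * src M e + 1, 0), 3)) ∨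
    (kO M (src M e) = 2 ∧ oZ M (src M e) ≠ e ∧ oN M (src M e) = e ∧
      start M e = ((1, 2 * src M e + 1, 0), 4)) ∨
    (start M e = ((2, e, 0), pin M e 0)) := by
  unfold start
  simp only [cond_if, Bool.and_eq_true, Pool.Agent.AttrHIF.eqB_iff]
  by_cases h1 : kO M (src M e) = 1 ∧ eO M (src M e) = e
  · simp [h1]
  · by_cases h2 : kO M (src M e) = 2 ∧ oZ M (src M e) = e
    · simp [h1, h2]
    · by_cases h3 : kO M (src M e) = 2 ∧ oN M (src M e) = e
      · simp only [h1, h2, h3, if_false, if_true, and_self]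
        have : oZ M (src M e) ≠ e := fun h => h2 ⟨h3.1, h⟩
        simp [this]
      · simp [h1, h2, h3]

theorem fin_one {M : Machine} {q : ℕ} (h : kI M q = 1) : fin M (eI M q) = ((0, q, 0), 0) := by
  have h1 := (kI_one h).2
  unfold fin
  simp [cond_if, h1, h]

theorem fin_twoZ {M : Machine} {q : ℕ} (h : kI M q = 2) : fin M (iZ M q) = ((1, 2 * q, 0), 3) := by
  have h1 := (iZ_spec (kI_two h).1).1
  have : eqB (2 : ℕ) 1 = false := rfl
  unfold fin
  simp [cond_if, h1, h, this]

theorem fin_twoN {M : Machine} {q : ℕ} (h : kI M q = 2) : fin M (iN M q) = ((1, 2 * q, 0), 4) := by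
  have h1 := (iN_spec (kI_two h).2)
  have h2 := (iZ_spec (kI_two h).1)
  have hne : iZ M q ≠ iN M q := by
    intro h
    rw [h] at h2
    exact h1.2 h2.2
  have h3 : eqB (iZ M q) (iN M q) = false := (eqB_false _ _).2 hne
  have : eqB (2 : ℕ) 1 = false := rfl
  unfold fin
  simp [cond_if, h1.1, h, this, h3, hne]

theorem start_one {M : Machine} {q : ℕ} (h : kO M q = 1) : start M (eO M q) = ((0, q, 0), 1) := by
  have h1 := (kO_one h).2
  unfold start
  simp [cond_if, h1, h]

theorem start_twoZ {M : Machine} {q : ℕ} (h : kO M q = 2) :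
    start M (oZ M q) = ((1, 2 * q + 1, 0), 3) := by
  have h1 := (oZ_spec (kO_two h).1).1
  have : eqB (2 : ℕ) 1 = false := rfl
  unfold start
  simp [cond_if, h1, h, this]

theorem start_twoN {M : Machine} {q : ℕ} (h : kO M q = 2) :
    start M (oN M q) = ((1, 2 * q + 1, 0), 4) := by
  have h1 := (oN_spec (kO_two h).2)
  have h2 := (oZ_spec (kO_two h).1)
  have hne : oZ M q ≠ oN M q := by
    intro h
    rw [h] at h2
    exact h1.2 h2.2
  have h3 : eqB (oZ M q) (oN M q) = false := (eqB_false _ _).2 hne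
  have : eqB (2 : ℕ) 1 = false := rfl
  unfold start
  simp [cond_if, h1.1, h, this, h3, hne]

/-- values of `partner` -/
theorem pa_D0 (M : Machine) (q : ℕ) : partner M ((0, q, 0), 0) =
    if kI M q = 1 then ((2, eI M q, 2 * nL M - 1), pout M (eI M q) (2 * nL M - 1))
    else if kI M q = 2 then ((1, 2 * q, 0), 2) else ((0, q, 0), 0) := by
  simp [partner, partnerD, cond_if]

theorem pa_D1 (M : Machine) (q : ℕ) : partner M ((0, q, 0), 1) =
    if kO M q = 1 then ((2, eO M q, 0), pin M (eO M q) 0)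
    else if kO M q = 2 then ((1, 2 * q + 1, 0), 2) else ((0, q, 0), 1) := by
  simp [partner, partnerD, cond_if]

theorem pa_Dx (M : Machine) (q p : ℕ) (h0 : p ≠ 0) (h1 : p ≠ 1) :
    partner M ((0, q, 0), p) = ((0, q, 0), p) := by
  simp [partner, partnerD, cond_if, h0, h1]

theorem pa_L0 (M : Machine) (l : ℕ) : partner M ((1, l, 0), 0) =
    if nE M = 0 then ((1, l, 0), 0) else ((2, 0, 2 * l), 0) := by
  simp [partner, partnerL, cond_if]

theorem pa_L1 (M : Machine) (l : ℕ) : partner M ((1, l, 0), 1) =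
    if nE M = 0 then ((1, l, 0), 1) else ((2, nE M - 1, 2 * l + 1), 1) := by
  simp [partner, partnerL, cond_if]

theorem pa_Le2 (M : Machine) (q : ℕ) (hq : q < M.2.1) (h : kI M q = 2) :
    partner M ((1, 2 * q, 0), 2) = ((0, q, 0), 0) := by
  have h1 : 2 * q < 2 * M.2.1 := by omega
  have h2 : 2 * q / 2 = q := by omega
  simp [partner, partnerL, cond_if, h1, h2, h]

theorem pa_Le3 (M : Machine) (q : ℕ) (hq : q < M.2.1) (h : kI M q = 2) :
    partner M ((1, 2 * q, 0), 3) = ((2, iZ M q, 2 * nL M - 1), pout M (iZ M q) (2 * nL M - 1)) := by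
  have h1 : 2 * q < 2 * M.2.1 := by omega
  have h2 : 2 * q / 2 = q := by omega
  simp [partner, partnerL, cond_if, h1, h2, h]

theorem pa_Le4 (M : Machine) (q : ℕ) (hq : q < M.2.1) (h : kI M q = 2) :
    partner M ((1, 2 * q, 0), 4) = ((2, iN M q, 2 * nL M - 1), pout M (iN M q) (2 * nL M - 1)) := by
  have h1 : 2 * q < 2 * M.2.1 := by omega
  have h2 : 2 * q / 2 = q := by omega
  simp [partner, partnerL, cond_if, h1, h2, h]

theorem pa_Lo2 (M : Machine) (q : ℕ) (hq : q < M.2.1) (h : kO M q = 2) :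
    partner M ((1, 2 * q + 1, 0), 2) = ((0, q, 0), 1) := by
  have h1 : 2 * q + 1 < 2 * M.2.1 := by omega
  have h2 : (2 * q + 1) / 2 = q := by omega
  have h3 : (2 * q + 1) % 2 = 1 := by omega
  simp [partner, partnerL, cond_if, h1, h2, h, h3]

theorem pa_Lo3 (M : Machine) (q : ℕ) (hq : q < M.2.1) (h : kO M q = 2) :
    partner M ((1, 2 * q + 1, 0), 3) = ((2, oZ M q, 0), pin M (oZ M q) 0) := by
  have h1 : 2 * q + 1 < 2 * M.2.1 := by omega
  have h2 : (2 * q + 1) / 2 = q := by omega
  have h3 : (2 * q + 1) % 2 = 1 := by omega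
  simp [partner, partnerL, cond_if, h1, h2, h, h3]

theorem pa_Lo4 (M : Machine) (q : ℕ) (hq : q < M.2.1) (h : kO M q = 2) :
    partner M ((1, 2 * q + 1, 0), 4) = ((2, oN M q, 0), pin M (oN M q) 0) := by
  have h1 : 2 * q + 1 < 2 * M.2.1 := by omega
  have h2 : (2 * q + 1) / 2 = q := by omega
  have h3 : (2 * q + 1) % 2 = 1 := by omega
  simp [partner, partnerL, cond_if, h1, h2, h, h3]

/-- the remaining lane ports are unused -/
theorem pa_Lx (M : Machine) (l p : ℕ) (h0 : p ≠ 0) (h1 : p ≠ 1)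
    (h : ¬ (∃ q < M.2.1, l = 2 * q ∧ kI M q = 2) ∧ ¬ (∃ q < M.2.1, l = 2 * q + 1 ∧ kO M q = 2)) :
    partner M ((1, l, 0), p) = ((1, l, 0), p) := by
  obtain ⟨ha, hb⟩ := h
  simp only [partner, partnerL, cond_if, Pool.Agent.AttrHIF.eqB_iff, h0, h1, if_false,
    decide_eq_true_eq]
  rw [if_neg (by norm_num), if_pos trivial]
  split_ifs with h2 h3 h4 h5 h6 h7 h8 h9
  all_goals first
    | rfl
    | exact absurd ⟨l / 2, by omega, by omega, h4⟩ ha
    | exact absurd ⟨l / 2, by omega, by omega, h7⟩ hb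

theorem pa_S0e (M : Machine) (e l : ℕ) : partner M ((2, e, 2 * l), 0) =
    if e = 0 then ((1, l, 0), 0) else ((2, e - 1, 2 * l + 1), 1) := by
  have h1 : 2 * l % 2 = 0 := by omega
  have h2 : 2 * l / 2 = l := by omega
  simp [partner, partnerS, cond_if, h1, h2]

theorem pa_S0o (M : Machine) (e l : ℕ) :
    partner M ((2, e, 2 * l + 1), 0) = ((2, e, 2 * l), 1) := by
  have h1 : (2 * l + 1) % 2 = 1 := by omega
  simp [partner, partnerS, cond_if, h1]

theorem pa_S1e (M : Machine) (e l : ℕ) :
    partner M ((2, e, 2 * l), 1) = ((2, e, 2 * l + 1), 0) := by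
  have h1 : 2 * l % 2 = 0 := by omega
  simp [partner, partnerS, cond_if, h1]

theorem pa_S1o (M : Machine) (e l : ℕ) : partner M ((2, e, 2 * l + 1), 1) =
    if e + 1 = nE M then ((1, l, 0), 1) else ((2, e + 1, 2 * l), 0) := by
  have h1 : (2 * l + 1) % 2 = 1 := by omega
  have h2 : (2 * l + 1) / 2 = l := by omega
  simp [partner, partnerS, cond_if, h1, h2]

theorem pa_Sin (M : Machine) (e j : ℕ) : partner M ((2, e, j), pin M e j) =
    if j = 0 then start M e else ((2, e, j - 1), pout M e (j - 1)) := by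
  have h0 : pin M e j ≠ 0 := by rcases pin_cases M e j with h | h <;> omega
  have h1 : pin M e j ≠ 1 := by rcases pin_cases M e j with h | h <;> omega
  simp [partner, partnerS, cond_if, h0, h1]

theorem pa_Sout (M : Machine) (e j : ℕ) : partner M ((2, e, j), pout M e j) =
    if j + 1 = 2 * nL M then fin M e else ((2, e, j + 1), pin M e (j + 1)) := by
  have h0 : pout M e j ≠ 0 := by rcases pin_cases M e j with h | h <;> omega
  have h1 : pout M e j ≠ 1 := by rcases pin_cases M e j with h | h <;> omega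
  have h2 : pout M e j ≠ pin M e j := by rcases pin_cases M e j with h | h <;> omega
  simp [partner, partnerS, cond_if, h0, h1, h2]

theorem pa_S4 (M : Machine) (e j p : ℕ) (h : 4 ≤ p) : partner M ((2, e, j), p) = ((2, e, j), p) := by
  have h0 : p ≠ 0 := by omega
  have h1 : p ≠ 1 := by omega
  have h2 : p ≠ pin M e j := by rcases pin_cases M e j with h | h <;> omega
  have h3 : p ≠ pout M e j := by rcases pin_cases M e j with h | h <;> omega
  simp [partner, partnerS, cond_if, h0, h1, h2, h3]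

/-- ports of existing blocks -/
def PV (M : Machine) (P : Port) : Prop := P.1 ∈ blocks M ∧ P.2 < 5

theorem PV_D {M : Machine} {q p : ℕ} : PV M ((0, q, 0), p) ↔ q < M.2.1 ∧ p < 5 := by
  simp [PV, mem_blocks]

theorem PV_L {M : Machine} {l p : ℕ} : PV M ((1, l, 0), p) ↔ l < nL M ∧ p < 5 := by
  simp [PV, mem_blocks]

theorem PV_S {M : Machine} {e j p : ℕ} :
    PV M ((2, e, j), p) ↔ (e < nE M ∧ j < 2 * nL M) ∧ p < 5 := by
  simp [PV, mem_blocks]

theorem partner_spec (M : Machine) (P : Port) (hP : PV M P) :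
    PV M (partner M P) ∧ partner M (partner M P) = P := by
  have hfin : ∀ e < nE M, PV M (fin M e) ∧
      partner M (fin M e) = ((2, e, 2 * nL M - 1), pout M e (2 * nL M - 1)) := by
    intro e he
    have hd := (rl_valid he).2.2.2
    have hnL : 0 < nL M := by unfold nL; omega
    have hp : pout M e (2 * nL M - 1) < 5 := by
      rcases pin_cases M e (2 * nL M - 1) with h | h <;> omega
    rcases fin_cases (M := M) (e := e) with ⟨h1, h2, h3⟩ | ⟨h1, h2, h3⟩ | ⟨h1, h2, h2', h3⟩ | h3
    · rw [h3, pa_D0, if_pos h1, h2, PV_D]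
      exact ⟨⟨hd, by norm_num⟩, rfl⟩
    · rw [h3, pa_Le3 M _ hd h1, h2, PV_L]
      exact ⟨⟨by unfold nL; omega, by norm_num⟩, rfl⟩
    · rw [h3, pa_Le4 M _ hd h1, h2', PV_L]
      exact ⟨⟨by unfold nL; omega, by norm_num⟩, rfl⟩
    · have h4 := pa_Sout M e (2 * nL M - 1)
      rw [if_pos (by omega)] at h4
      rw [h3, h4, h3, PV_S]
      exact ⟨⟨⟨he, by omega⟩, hp⟩, rfl⟩
  have hstart : ∀ e < nE M, PV M (start M e) ∧
      partner M (start M e) = ((2, e, 0), pin M e 0) := by
    intro e he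
    have hd := (rl_valid he).2.1
    have hnL : 0 < nL M := by unfold nL; omega
    have hp : pin M e 0 < 5 := by
      rcases pin_cases M e 0 with h | h <;> omega
    rcases start_cases (M := M) (e := e) with ⟨h1, h2, h3⟩ | ⟨h1, h2, h3⟩ | ⟨h1, h2, h2', h3⟩ | h3
    · rw [h3, pa_D1, if_pos h1, h2, PV_D]
      exact ⟨⟨hd, by norm_num⟩, rfl⟩
    · rw [h3, pa_Lo3 M _ hd h1, h2, PV_L]
      exact ⟨⟨by unfold nL; omega, by norm_num⟩, rfl⟩
    · rw [h3, pa_Lo4 M _ hd h1, h2', PV_L]
      exact ⟨⟨by unfold nL; omega, by norm_num⟩, rfl⟩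
    · have h4 := pa_Sin M e 0
      rw [if_pos rfl] at h4
      rw [h3, h4, h3, PV_S]
      exact ⟨⟨⟨he, by omega⟩, hp⟩, rfl⟩
  obtain ⟨⟨tg, a, c⟩, p⟩ := P
  have hB := hP.1
  have hp := hP.2
  simp only at hB hp
  rw [mem_blocks] at hB
  simp only at hB
  rcases hB with ⟨rfl, ha, rfl⟩ | ⟨rfl, ha, rfl⟩ | ⟨rfl, ha, hc⟩
  · -- D
    by_cases p0 : p = 0
    · subst p0
      rw [pa_D0]
      split_ifs with h1 h2
      · have h3 := kI_one h1
        have h4 := pa_Sout M (eI M a) (2 * nL M - 1)
        have hnL : 0 < nL M := by unfold nL; omega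
        rw [if_pos (by omega), fin_one h1] at h4
        refine ⟨?_, h4⟩
        rw [PV_S]
        refine ⟨⟨h3.1, by omega⟩, ?_⟩
        rcases pin_cases M (eI M a) (2 * nL M - 1) with h | h <;> omega
      · rw [pa_Le2 M a ha h2, PV_L]
        exact ⟨⟨by unfold nL; omega, by norm_num⟩, rfl⟩
      · refine ⟨hP, ?_⟩
        rw [pa_D0, if_neg h1, if_neg h2]
    · by_cases p1 : p = 1
      · subst p1
        rw [pa_D1]
        split_ifs with h1 h2
        · have h3 := kO_one h1
          have h4 := pa_Sin M (eO M a) 0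
          have hnL : 0 < nL M := by unfold nL; omega
          rw [if_pos rfl, start_one h1] at h4
          refine ⟨?_, h4⟩
          rw [PV_S]
          refine ⟨⟨h3.1, by omega⟩, ?_⟩
          rcases pin_cases M (eO M a) 0 with h | h <;> omega
        · rw [pa_Lo2 M a ha h2, PV_L]
          exact ⟨⟨by unfold nL; omega, by norm_num⟩, rfl⟩
        · refine ⟨hP, ?_⟩
          rw [pa_D1, if_neg h1, if_neg h2]
      · rw [pa_Dx M a p p0 p1, pa_Dx M a p p0 p1]
        exact ⟨hP, rfl⟩
  · -- L
    by_cases p0 : p = 0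
    · subst p0
      rw [pa_L0]
      split_ifs with h
      · rw [pa_L0, if_pos h]
        exact ⟨hP, rfl⟩
      · rw [pa_S0e, if_pos rfl, PV_S]
        exact ⟨⟨⟨by omega, by omega⟩, by norm_num⟩, rfl⟩
    · by_cases p1 : p = 1
      · subst p1
        rw [pa_L1]
        split_ifs with h
        · rw [pa_L1, if_pos h]
          exact ⟨hP, rfl⟩
        · rw [pa_S1o, if_pos (by omega), PV_S]
          exact ⟨⟨⟨by omega, by omega⟩, by norm_num⟩, rfl⟩
      · by_cases hI : ∃ q < M.2.1, a = 2 * q ∧ kI M q = 2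
        · obtain ⟨q, hq, rfl, hk⟩ := hI
          have hk2 := kI_two hk
          have hnL : 0 < nL M := by unfold nL; omega
          have p234 : p = 2 ∨ p = 3 ∨ p = 4 := by omega
          rcases p234 with rfl | rfl | rfl
          · rw [pa_Le2 M q hq hk, pa_D0, if_neg (by omega), if_pos hk, PV_D]
            exact ⟨⟨hq, by norm_num⟩, rfl⟩
          · rw [pa_Le3 M q hq hk, pa_Sout, if_pos (by omega), fin_twoZ hk, PV_S]
            refine ⟨⟨⟨hk2.1, by omega⟩, ?_⟩, rfl⟩
            rcases pin_cases M (iZ M q) (2 * nL M - 1) with h | h <;> omega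
          · rw [pa_Le4 M q hq hk, pa_Sout, if_pos (by omega), fin_twoN hk, PV_S]
            refine ⟨⟨⟨hk2.2, by omega⟩, ?_⟩, rfl⟩
            rcases pin_cases M (iN M q) (2 * nL M - 1) with h | h <;> omega
        · by_cases hO : ∃ q < M.2.1, a = 2 * q + 1 ∧ kO M q = 2
          · obtain ⟨q, hq, rfl, hk⟩ := hO
            have hk2 := kO_two hk
            have hnL : 0 < nL M := by unfold nL; omega
            have p234 : p = 2 ∨ p = 3 ∨ p = 4 := by omega
            rcases p234 with rfl | rfl | rfl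
            · rw [pa_Lo2 M q hq hk, pa_D1, if_neg (by omega), if_pos hk, PV_D]
              exact ⟨⟨hq, by norm_num⟩, rfl⟩
            · rw [pa_Lo3 M q hq hk, pa_Sin, if_pos rfl, start_twoZ hk, PV_S]
              refine ⟨⟨⟨hk2.1, by omega⟩, ?_⟩, rfl⟩
              rcases pin_cases M (oZ M q) 0 with h | h <;> omega
            · rw [pa_Lo4 M q hq hk, pa_Sin, if_pos rfl, start_twoN hk, PV_S]
              refine ⟨⟨⟨hk2.2, by omega⟩, ?_⟩, rfl⟩
              rcases pin_cases M (oN M q) 0 with h | h <;> omega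
          · rw [pa_Lx M a p p0 p1 ⟨hI, hO⟩, pa_Lx M a p p0 p1 ⟨hI, hO⟩]
            exact ⟨hP, rfl⟩
  · -- S
    obtain ⟨l, hl⟩ : ∃ l, c = 2 * l ∨ c = 2 * l + 1 := ⟨c / 2, by omega⟩
    by_cases p0 : p = 0
    · subst p0
      rcases hl with rfl | rfl
      · rw [pa_S0e]
        split_ifs with h
        · subst h
          rw [pa_L0, if_neg (by omega), PV_L]
          exact ⟨⟨by omega, by norm_num⟩, rfl⟩
        · rw [pa_S1o, if_neg (by omega), PV_S]
          refine ⟨⟨⟨by omega, by omega⟩, by norm_num⟩, ?_⟩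
          rw [show a - 1 + 1 = a by omega]
      · rw [pa_S0o, pa_S1e, PV_S]
        exact ⟨⟨⟨by omega, by omega⟩, by norm_num⟩, rfl⟩
    · by_cases p1 : p = 1
      · subst p1
        rcases hl with rfl | rfl
        · rw [pa_S1e, pa_S0o, PV_S]
          exact ⟨⟨⟨by omega, by omega⟩, by norm_num⟩, rfl⟩
        · rw [pa_S1o]
          split_ifs with h
          · rw [pa_L1, if_neg (by omega), PV_L]
            refine ⟨⟨by omega, by norm_num⟩, ?_⟩
            rw [show nE M - 1 = a by omega]
          · rw [pa_S0e, if_neg (by omega), PV_S]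
            refine ⟨⟨⟨by omega, by omega⟩, by norm_num⟩, ?_⟩
            rw [show a + 1 - 1 = a by omega]
      · by_cases p4 : 4 ≤ p
        · rw [pa_S4 M a c p p4, pa_S4 M a c p p4]
          exact ⟨hP, rfl⟩
        · by_cases hpi : p = pin M a c
          · subst hpi
            rw [pa_Sin]
            split_ifs with h
            · subst h
              exact hstart a ha
            · have h5 := pa_Sout M a (c - 1)
              rw [if_neg (by omega), show c - 1 + 1 = c by omega] at h5
              rw [h5, PV_S]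
              refine ⟨⟨⟨ha, by omega⟩, ?_⟩, rfl⟩
              rcases pin_cases M a (c - 1) with h | h <;> omega
          · have hpo : p = pout M a c := by
              rcases pin_cases M a c with h | h <;> omega
            subst hpo
            rw [pa_Sout]
            split_ifs with h
            · have := hfin a ha
              rw [show 2 * nL M - 1 = c by omega] at this
              exact this
            · have h5 := pa_Sin M a (c + 1)
              rw [if_neg (by omega), show c + 1 - 1 = c by omega] at h5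
              rw [h5, PV_S]
              refine ⟨⟨⟨ha, by omega⟩, ?_⟩, rfl⟩
              rcases pin_cases M a (c + 1) with h | h <;> omega

end Pool.Agent.SPCA81
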