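import Mathlib

/-!
# Square partitioned cellular automata with 81 states: definitions

Parts of a cell are listed in the order top, right, bottom, left.
-/

namespace Pool.Agent.SPCA81

/-- The state set `{0,1,2}⁴` of a cell; the four components are the parts `(T, R, B, L)`. -/
abbrev Cell := Fin 3 × Fin 3 × Fin 3 × Fin 3

/-- A configuration `ℤ² → {0,1,2}⁴`. -/
abbrev Config := ℤ × ℤ → Cell

/-- The global map `F_f(α)(x,y) = f(T(α(x,y-1)), R(α(x-1,y)), B(α(x,y+1)), L(α(x+1,y)))`. -/
def globalMap (f : Cell → Cell) (α : Config) : Config := fun p =>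
  f ((α (p.1, p.2 - 1)).1, (α (p.1 - 1, p.2)).2.1, (α (p.1, p.2 + 1)).2.2.1,
    (α (p.1 + 1, p.2)).2.2.2)

/-- The SPCA with local function `f` is reversible: `f` is a bijection. -/
def Reversible (f : Cell → Cell) : Prop := Function.Bijective f

/-- `f_rev(t,r,b,l) = (b,l,t,r)`. -/
def frev (c : Cell) : Cell := (c.2.2.1, c.2.2.2, c.1, c.2.1)

/-- `H^rev = F_{f_rev}`: reversal of all particle directions. -/
def Hrev : Config → Config := globalMap frev

/-- Strict T-symmetry of a reversible SPCA: `H^rev ∘ F_f ∘ H^rev` is the (two-sided) inverse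
of `F_f`. -/
def StrictlyTSymmetric (f : Cell → Cell) : Prop :=
  Reversible f ∧
    Function.LeftInverse (Hrev ∘ globalMap f ∘ Hrev) (globalMap f) ∧
    Function.RightInverse (Hrev ∘ globalMap f ∘ Hrev) (globalMap f)

/-- The support of a configuration: the set of non-quiescent cells. -/
def support (α : Config) : Set (ℤ × ℤ) := {p | α p ≠ 0}

/-- The finite configuration coded by a list of cells: the value at `p` is the superposition
(componentwise maximum) of all cell states listed at position `p`, and `(0,0,0,0)` if nothing is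
listed there. -/
def conf (l : List ((ℤ × ℤ) × Cell)) : Config := fun p =>
  (l.filter (fun e => e.1 = p)).foldr (fun e a => e.2 ⊔ a) 0

/-- Rules (quadruples) `[q, i, x, q']` of a counter machine.  The operation `x` is
`0` = `Z`: counter `i` is zero, `1` = `P`: counter `i` is positive,
`2` = `-`: decrement counter `i`, `3` = `0`: leave counter `i` unchanged,
`4` = `+`: increment counter `i`. -/
abbrev Rule := ℕ × ℕ × Fin 5 × ℕ

/-- A counter machine: the number `k` of counters, the number `m` of states (the states are
`0, …, m-1`) and the list of rules. -/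
abbrev Machine := ℕ × ℕ × List Rule

/-- number of counters -/
abbrev Machine.k (M : Machine) : ℕ := M.1
/-- number of states -/
abbrev Machine.m (M : Machine) : ℕ := M.2.1
/-- the list of rules -/
abbrev Machine.rules (M : Machine) : List Rule := M.2.2

/-- The action of operation `x` on counter `i`. -/
def Act {k : ℕ} (x : Fin 5) (i : Fin k) (n n' : Fin k → ℕ) : Prop :=
  (x = 0 ∧ n i = 0 ∧ n' = n) ∨
  (x = 1 ∧ 0 < n i ∧ n' = n) ∨
  (x = 2 ∧ 0 < n i ∧ n' = Function.update n i (n i - 1)) ∨
  (x = 3 ∧ n' = n) ∨
  (x = 4 ∧ n' = Function.update n i (n i + 1))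

/-- The step relation of a counter machine on `Q × ℕ^k`. -/
def Machine.Step (M : Machine) (a b : Fin M.m × (Fin M.k → ℕ)) : Prop :=
  ∃ r ∈ M.rules, ∃ i : Fin M.k,
    r.1 = a.1 ∧ r.2.1 = i ∧ r.2.2.2 = b.1 ∧ Act r.2.2.1 i a.2 b.2

/-- A reversible counter machine: at least one counter, and the step relation is the graph of an
injective partial map. -/
def Machine.Rev (M : Machine) : Prop :=
  1 ≤ M.k ∧ (∀ a b c, M.Step a b → M.Step a c → b = c) ∧
    (∀ a b c, M.Step a c → M.Step b c → a = b)

/-- The pieces whose superposition is `enc(q,n)`: piece `none` is `β_q`, piece `some i` is the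
translate of `μ_i` by `c n_i v_i`. -/
def piece (c : ℕ) (β : List ((ℤ × ℤ) × Cell)) {k : ℕ} (μ : Fin k → List ((ℤ × ℤ) × Cell))
    (v : Fin k → ℤ × ℤ) (n : Fin k → ℕ) : Option (Fin k) → Config
  | none => conf β
  | some i => fun p => conf (μ i) (p - ((c * n i : ℕ) : ℤ) • v i)

/-- The superposition of the pieces. -/
noncomputable def superpose {k : ℕ} (P : Option (Fin k) → Config) : Config := fun p =>
  Finset.univ.sup (fun j => P j p)

/-- The SPCA with local function `f` is Turing universal with finite configurations: from every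
reversible counter machine `M` one can compute an integer `c ≥ 1`, finite configurations `β_q`
and `μ_i` and nonzero vectors `v_i` such that, with `enc(q,n)` the superposition of `β_q` and the
translates of `μ_i` by `c n_i v_i`, these pieces have pairwise disjoint supports and every step
`(q,n) ⊢ (q',n')` is simulated by `t ≥ 1` steps of the SPCA. -/
def TuringUniversalFinite (f : Cell → Cell) : Prop :=
  f 0 = 0 ∧
  ∃ (c : Machine → ℕ) (β μ : Machine × ℕ → List ((ℤ × ℤ) × Cell)) (v : Machine × ℕ → ℤ × ℤ),
    Computable c ∧ Computable β ∧ Computable μ ∧ Computable v ∧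
    ∀ M : Machine, M.Rev →
      1 ≤ c M ∧ (∀ i < M.k, v (M, i) ≠ 0) ∧
      (∀ (q : Fin M.m) (n : Fin M.k → ℕ),
        Pairwise (fun j j' => Disjoint
          (support (piece (c M) (β (M, q)) (fun i => μ (M, i)) (fun i => v (M, i)) n j))
          (support (piece (c M) (β (M, q)) (fun i => μ (M, i)) (fun i => v (M, i)) n j')))) ∧
      (∀ (q q' : Fin M.m) (n n' : Fin M.k → ℕ), M.Step (q, n) (q', n') →
        ∃ t ≥ 1, (globalMap f)^[t]
            (superpose (piece (c M) (β (M, q)) (fun i => μ (M, i)) (fun i => v (M, i)) n)) =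
          superpose (piece (c M) (β (M, q')) (fun i => μ (M, i)) (fun i => v (M, i)) n'))

end Pool.Agent.SPCA81
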