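import Pool.Agent.Lib.MP_abc193_lc.Sem

namespace Pool.Agent.SPCA81

open Pool.Agent.AttrHIF (eqB)
open V3

set_option linter.unusedSimpArgs false

/-! ## Finite configurations from marks -/

/-- the cell entry of a mark: value `v` on the vertical edge `(t,y)`, at an even time -/
def mk (m : ℕ × ℕ × Fin 3) : (ℤ × ℤ) × Cell :=
  bif eqB (m.1 % 2) 1 then (((m.1 + m.2.1 : ℕ), (m.2.1 : ℕ)), (m.2.2, 0, 0, 0))
  else (((m.1 + m.2.1 : ℕ), (m.2.1 + 1 : ℕ)), (0, 0, m.2.2, 0))

theorem zero_le_cell (c : Cell) : (0 : Cell) ≤ c :=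
  ⟨Fin.zero_le _, Fin.zero_le _, Fin.zero_le _, Fin.zero_le _⟩

theorem zero_le_fin (a : Fin 3) : V3.toFin z ≤ a := Fin.zero_le a

theorem conf_cons (e : (ℤ × ℤ) × Cell) (l : List ((ℤ × ℤ) × Cell)) (p : ℤ × ℤ) :
    conf (e :: l) p = if e.1 = p then e.2 ⊔ conf l p else conf l p := by
  unfold conf
  rw [List.filter_cons]
  by_cases h : e.1 = p <;> simp [h]

theorem conf_le {l : List ((ℤ × ℤ) × Cell)} {p : ℤ × ℤ} {c : Cell}
    (h : ∀ e ∈ l, e.1 = p → e.2 ≤ c) : conf l p ≤ c := by
  induction l with
  | nil => exact zero_le_cell c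
  | cons e l ih =>
    rw [conf_cons]
    have ih' := ih (fun e he => h e (List.mem_cons_of_mem _ he))
    split_ifs with h1
    · exact sup_le (h e (by simp) h1) ih'
    · exact ih'

theorem le_conf {l : List ((ℤ × ℤ) × Cell)} {p : ℤ × ℤ} {e : (ℤ × ℤ) × Cell} (he : e ∈ l)
    (h : e.1 = p) : e.2 ≤ conf l p := by
  induction l with
  | nil => simp at he
  | cons e' l ih =>
    rw [conf_cons]
    rcases List.mem_cons.1 he with rfl | he
    · rw [if_pos h]
      exact le_sup_left
    · split_ifs
      · exact (ih he).trans le_sup_right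
      · exact ih he

theorem conf_support {l : List ((ℤ × ℤ) × Cell)} {p : ℤ × ℤ} (h : conf l p ≠ 0) :
    ∃ e ∈ l, e.1 = p := by
  by_contra hc
  push Not at hc
  apply h
  apply le_antisymm _ (zero_le_cell _)
  exact conf_le (fun e he h' => absurd h' (hc e he))

theorem conf_shift (l : List ((ℤ × ℤ) × Cell)) (s p : ℤ × ℤ) :
    conf (l.map (fun e => (e.1 + s, e.2))) p = conf l (p - s) := by
  induction l with
  | nil => rfl
  | cons e l ih =>
    rw [List.map_cons, conf_cons, conf_cons, ih]
    have : (e.1 + s = p) ↔ (e.1 = p - s) := by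
      constructor
      · rintro rfl; simp
      · rintro h; rw [h]; simp
    simp only [this]

theorem superpose_eq {k : ℕ} (L : Option (Fin k) → List (ℕ × ℕ × Fin 3)) (σ : Edge → V3)
    (h1 : ∀ j, ∀ m ∈ L j, (σ (true, (m.1 : ℤ), (m.2.1 : ℤ))).toFin = m.2.2)
    (h2 : ∀ t y, σ (true, t, y) ≠ z → ∃ j, ∃ m ∈ L j, (m.1 : ℤ) = t ∧ (m.2.1 : ℤ) = y)
    (h3 : ∀ t y, σ (false, t, y) = z) :
    superpose (fun j => conf ((L j).map mk)) = cfg σ 0 := by
  funext p
  obtain ⟨x, y⟩ := p
  apply le_antisymm
  · apply Finset.sup_le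
    intro j _
    apply conf_le
    intro e he hp
    obtain ⟨m, hm, rfl⟩ := List.mem_map.1 he
    have hv := h1 j m hm
    obtain ⟨t, y', v⟩ := m
    simp only at hv
    unfold mk at hp ⊢
    simp only at hp ⊢
    rcases Nat.mod_two_eq_zero_or_one t with h | h
    · have hb : eqB (t % 2) 1 = false := by rw [h]; rfl
      rw [hb] at hp ⊢
      simp only [cond_false, Prod.mk.injEq] at hp ⊢
      obtain ⟨hx, hy⟩ := hp
      have hpar : ¬ (x - y - 0) % 2 = 0 := by push_cast at hx hy; omega
      unfold cfg
      simp only [hpar, if_false]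
      have e1 : x - y + 1 = t := by push_cast at hx hy; omega
      have e2 : y - 1 = y' := by push_cast at hx hy; omega
      rw [e1, e2, hv]
      exact ⟨Fin.zero_le _, Fin.zero_le _, le_rfl, Fin.zero_le _⟩
    · have hb : eqB (t % 2) 1 = true := by rw [h]; rfl
      rw [hb] at hp ⊢
      simp only [cond_true, Prod.mk.injEq] at hp ⊢
      obtain ⟨hx, hy⟩ := hp
      have hpar : ¬ (x - y - 0) % 2 = 0 := by push_cast at hx hy; omega
      unfold cfg
      simp only [hpar, if_false]
      have e1 : x - y = t := by push_cast at hx hy; omega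
      have e2 : y = y' := by push_cast at hx hy; omega
      rw [e1, e2, hv]
      exact ⟨le_rfl, Fin.zero_le _, Fin.zero_le _, Fin.zero_le _⟩
  · unfold cfg
    simp only
    split_ifs with hpar
    · exact zero_le_cell _
    · have hle : ∀ j, conf ((L j).map mk) (x, y) ≤
          superpose (fun j => conf ((L j).map mk)) (x, y) := by
        intro j
        exact Finset.le_sup (f := fun j => conf ((L j).map mk) (x, y)) (Finset.mem_univ j)
      refine ⟨?_, ?_, ?_, ?_⟩
      · -- T
        by_cases hz : σ (true, x - y, y) = z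
        · rw [hz]; exact zero_le_fin _
        · obtain ⟨j, m, hm, ht, hy⟩ := h2 _ _ hz
          have hv := h1 j m hm
          rw [ht, hy] at hv
          have hb : eqB (m.1 % 2) 1 = true := by
            have : m.1 % 2 = 1 := by omega
            rw [this]; rfl
          have hmk : mk m = ((x, y), (m.2.2, 0, 0, 0)) := by
            unfold mk
            rw [hb]
            simp only [cond_true, Prod.mk.injEq, and_true]
            push_cast
            constructor <;> omega
          have h4 := le_conf (List.mem_map_of_mem (f := mk) hm) (p := (x, y)) (by rw [hmk])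
          have h5 := (h4.trans (hle j)).1
          rw [hmk] at h5
          rw [hv]
          exact h5
      · show (σ (false, x - y, y)).toFin ≤ _
        rw [h3]; exact zero_le_fin _
      · -- B
        by_cases hz : σ (true, x - y + 1, y - 1) = z
        · rw [hz]; exact zero_le_fin _
        · obtain ⟨j, m, hm, ht, hy⟩ := h2 _ _ hz
          have hv := h1 j m hm
          rw [ht, hy] at hv
          have hb : eqB (m.1 % 2) 1 = false := by
            have : m.1 % 2 = 0 := by omega
            rw [this]; rfl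
          have hmk : mk m = ((x, y), (0, 0, m.2.2, 0)) := by
            unfold mk
            rw [hb]
            simp only [cond_false, Prod.mk.injEq, and_true]
            push_cast
            constructor <;> omega
          have h4 := le_conf (List.mem_map_of_mem (f := mk) hm) (p := (x, y)) (by rw [hmk])
          have h5 := (h4.trans (hle j)).2.2.1
          rw [hmk] at h5
          rw [hv]
          exact h5
      · show (σ (false, x - y - 1, y)).toFin ≤ _
        rw [h3]; exact zero_le_fin _

/-! ## The pieces -/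

def kCLn : List (ℕ × ℕ) := [(7, 2), (6, 3)]
def kCRn : List (ℕ × ℕ) := [(3, 3), (4, 2), (4, 5), (6, 4), (7, 3), (7, 4), (7, 5)]
def kXn : List (ℕ × ℕ) :=
  [(7, 2), (15, 3), (16, 2), (16, 7), (19, 2), (29, 7), (30, 6), (41, 3), (42, 2)]
def kLn : List (ℕ × ℕ) :=
  [(7, 6), (19, 5), (31, 2), (39, 3), (40, 2), (40, 9), (41, 8), (53, 9), (54, 8)]

def tos (l : List (ℕ × ℕ)) (a b : ℕ) : List (ℕ × ℕ × Fin 3) :=
  l.map (fun s => (s.1 + a, s.2 + b, 1))

/-- marks of a block (the dynamic mark is included for the memory elements) -/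
def blkMarks (B : Blk) : List (ℕ × ℕ × Fin 3) :=
  bif eqB B.1 1 then tos kLn (60 * code B) (12 * code B)
  else (17 + 60 * code B, 7 + 12 * code B, 1) :: tos kXn (60 * code B) (12 * code B)

/-- marks of the wire leaving a port to the right -/
def wireMarks (M : Machine) (P : Port) : List (ℕ × ℕ × Fin 3) :=
  bif decide (idx P < idx (partner M P)) then
    tos kCLn (12 * idx P) (12 * (nN M + idx P)) ++
      tos kCRn (12 * idx (partner M P)) (12 * (nN M + idx P))
  else []

def betaMarks (M : Machine) (q : ℕ) : List (ℕ × ℕ × Fin 3) :=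
  (6 + 12 * (5 * code (0, q, 0)), 11 + 12 * code (0, q, 0), 2) ::
    ((blocks M).flatMap blkMarks ++
      (blocks M).flatMap (fun B => (List.range 5).flatMap (fun p => wireMarks M (B, p))))

def muMarks (M : Machine) (i : ℕ) : List (ℕ × ℕ × Fin 3) :=
  (List.range (nL M)).flatMap (fun l =>
    bif eqB (lc M l) i then [(40 + 60 * code (1, l, 0), 6 + 12 * code (1, l, 0), 1)] else [])

def beta (p : Machine × ℕ) : List ((ℤ × ℤ) × Cell) := (betaMarks p.1 p.2).map mk
def mu (p : Machine × ℕ) : List ((ℤ × ℤ) × Cell) := (muMarks p.1 p.2).map mk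

theorem mem_tos {l : List (ℕ × ℕ)} {a b : ℕ} {m : ℕ × ℕ × Fin 3} :
    m ∈ tos l a b ↔ m.2.2 = 1 ∧ ∃ s ∈ l, m.1 = s.1 + a ∧ m.2.1 = s.2 + b := by
  obtain ⟨t, y, v⟩ := m
  simp only [tos, List.mem_map, Prod.mk.injEq]
  constructor
  · rintro ⟨s, hs, rfl, rfl, rfl⟩
    exact ⟨rfl, s, hs, rfl, rfl⟩
  · rintro ⟨rfl, s, hs, rfl, rfl⟩
    exact ⟨s, hs, rfl, rfl, rfl⟩

/-- integer and natural versions of the lists of marks -/
theorem cast_mem {l : List (ℕ × ℕ)} {k : List (ℤ × ℤ)}
    (h : k = l.map (fun s => ((s.1 : ℤ), (s.2 : ℤ)))) (t y : ℤ) :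
    (t, y) ∈ k ↔ ∃ s ∈ l, (s.1 : ℤ) = t ∧ (s.2 : ℤ) = y := by
  rw [h]
  simp [List.mem_map]

theorem kCL_cast : kCL = kCLn.map (fun s => ((s.1 : ℤ), (s.2 : ℤ))) := rfl
theorem kCR_cast : kCR = kCRn.map (fun s => ((s.1 : ℤ), (s.2 : ℤ))) := rfl
theorem kX_cast : kX = kXn.map (fun s => ((s.1 : ℤ), (s.2 : ℤ))) := rfl
theorem kL_cast : kL = kLn.map (fun s => ((s.1 : ℤ), (s.2 : ℤ))) := rfl

theorem tos_iff {l : List (ℕ × ℕ)} {k : List (ℤ × ℤ)}
    (h : k = l.map (fun s => ((s.1 : ℤ), (s.2 : ℤ)))) (a b : ℕ) (t y : ℤ) :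
    (t - a, y - b) ∈ k ↔ ∃ m ∈ tos l a b, (m.1 : ℤ) = t ∧ (m.2.1 : ℤ) = y := by
  rw [cast_mem h]
  constructor
  · rintro ⟨s, hs, h1, h2⟩
    refine ⟨(s.1 + a, s.2 + b, 1), mem_tos.2 ⟨rfl, s, hs, rfl, rfl⟩, ?_, ?_⟩
    · push_cast; omega
    · push_cast; omega
  · rintro ⟨m, hm, rfl, rfl⟩
    obtain ⟨_, s, hs, h1, h2⟩ := mem_tos.1 hm
    refine ⟨s, hs, ?_, ?_⟩
    · rw [h1]; push_cast; ring
    · rw [h2]; push_cast; ring

theorem ctr_lt {M : Machine} (hk : 1 ≤ M.1) (e : ℕ) : ctr M e < M.1 := by
  by_cases he : e < nE M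
  · exact (rl_valid he).2.2.1
  · have : rl M e = (0, 0, 0, 0) := by
      unfold rl
      rw [List.getD_eq_default]
      exact not_lt.1 he
    unfold ctr
    rw [this]
    exact hk

theorem lc_lt {M : Machine} (hk : 1 ≤ M.1) {l : ℕ} (hl : l < nL M) : lc M l < M.1 := by
  unfold lc
  simp only [cond_if]
  split_ifs with h1 h2
  · exact ctr_lt hk _
  · exact ctr_lt hk _
  · simp only [decide_eq_true_eq] at h1
    unfold nL at hl
    omega

/-- the marks of the piece `j` of `enc(q,n)` -/
def pieceMarks (M : Machine) (q : ℕ) (n : Fin M.k → ℕ) : Option (Fin M.k) → List (ℕ × ℕ × Fin 3)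
  | none => betaMarks M q
  | some i => (muMarks M i).map (fun m => (m.1 + 2 * n i, m.2.1, m.2.2))

theorem mk_shift (m : ℕ × ℕ × Fin 3) (n : ℕ) :
    mk (m.1 + 2 * n, m.2.1, m.2.2) = ((mk m).1 + (((2 * n : ℕ) : ℤ), (0 : ℤ)), (mk m).2) := by
  unfold mk
  have : (m.1 + 2 * n) % 2 = m.1 % 2 := by omega
  simp only [this]
  cases eqB (m.1 % 2) 1
  · simp only [cond_false, Prod.mk_add_mk, Prod.mk.injEq, and_true, add_zero]
    push_cast
    ring
  · simp only [cond_true, Prod.mk_add_mk, Prod.mk.injEq, and_true, add_zero]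
    push_cast
    ring

theorem piece_eq (M : Machine) (q : ℕ) (n : Fin M.k → ℕ) :
    piece 2 (beta (M, q)) (fun i : Fin M.k => mu (M, i)) (fun _ => (1, 0)) n =
      fun j => conf ((pieceMarks M q n j).map mk) := by
  funext j
  cases j with
  | none => rfl
  | some i =>
    funext p
    show conf (mu (M, i)) (p - ((2 * n i : ℕ) : ℤ) • ((1, 0) : ℤ × ℤ)) = _
    rw [← conf_shift]
    congr 1
    simp only [mu, pieceMarks, List.map_map]
    apply List.map_congr_left
    intro m _
    simp only [Function.comp]
    rw [mk_shift]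
    simp

/-- the edge state of `enc(q,n)` -/
noncomputable def encσ (M : Machine) (q : ℕ) (n : ℕ → ℕ) : Edge → V3 :=
  ov ((theNet M).World (fun b => st0 M n (dcode b)))
    [((true, 6 + 12 * ((5 * code (0, q, 0) : ℕ) : ℤ), 11 + 12 * (code (0, q, 0) : ℤ)), w)]

theorem C_encσ (M : Machine) (q : ℕ) (n : ℕ → ℕ) :
    C M (st0 M n) ((0, q, 0), 0) = cfg (encσ M q n) 0 := by
  unfold C Net.At Vt encσ
  have h1 : idx ((0, q, 0), 0) = 5 * code (0, q, 0) := by simp [idx]
  have h2 : 5 * code (0, q, 0) / 5 = code (0, q, 0) := by omega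
  rw [h1, h2]

theorem encσ_true (M : Machine) (q : ℕ) (n : ℕ → ℕ) (t y : ℤ) :
    encσ M q n (true, t, y) =
      if t = 6 + 12 * ((5 * code (0, q, 0) : ℕ) : ℤ) ∧ y = 11 + 12 * (code (0, q, 0) : ℤ) then w
      else base ((theNet M).World (fun b => st0 M n (dcode b))) (true, t, y) := by
  unfold encσ ov
  rw [List.lookup_cons]
  by_cases h : t = 6 + 12 * ((5 * code (0, q, 0) : ℕ) : ℤ) ∧ y = 11 + 12 * (code (0, q, 0) : ℤ)
  · rw [if_pos h, h.1, h.2]
    simp
  · rw [if_neg h]
    have : ((true, t, y) == ((true, 6 + 12 * ((5 * code (0, q, 0) : ℕ) : ℤ),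
        11 + 12 * (code (0, q, 0) : ℤ)) : Edge)) = false := by
      rw [beq_eq_false_iff_ne]
      intro h2
      simp only [Prod.mk.injEq, true_and] at h2
      exact h h2
    rw [this]
    rfl

theorem blk_net {M : Machine} {B : Blk} (hB : B ∈ blocks M) : (theNet M).Blk (code B) (kindB B) :=
  ⟨B, hB, rfl, rfl⟩

/-- every mark except the mover belongs to the world -/
theorem mark_world {M : Machine} {q : ℕ} {n : Fin M.k → ℕ} (j : Option (Fin M.k))
    (m : ℕ × ℕ × Fin 3) (hm : m ∈ pieceMarks M q n j) :
    m = (6 + 12 * (5 * code (0, q, 0)), 11 + 12 * code (0, q, 0), 2) ∨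
      (m.2.2 = 1 ∧ (theNet M).World (fun b => st0 M (ext n) (dcode b)) m.1 m.2.1) := by
  cases j with
  | none =>
    simp only [pieceMarks, betaMarks, List.mem_cons, List.mem_append, List.mem_flatMap] at hm
    rcases hm with rfl | ⟨B, hB, hm⟩ | ⟨B, hB, p, hp, hm⟩
    · exact Or.inl rfl
    · right
      unfold blkMarks at hm
      by_cases h1 : B.1 = 1
      · have hb : eqB B.1 1 = true := by rw [h1]; rfl
        rw [hb, cond_true] at hm
        refine ⟨(mem_tos.1 hm).1, Or.inl ⟨code B, kindB B, blk_net hB, Or.inl ?_⟩⟩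
        have hk : kindB B = .L := by simp [kindB, h1]
        rw [hk]
        have := (tos_iff kL_cast (60 * code B) (12 * code B) m.1 m.2.1).2 ⟨m, hm, rfl, rfl⟩
        push_cast at this
        exact this
      · have hb : eqB B.1 1 = false := (eqB_false _ _).2 h1
        have hk : kindB B = .X := by simp [kindB, h1]
        rw [hb, cond_false, List.mem_cons] at hm
        rcases hm with rfl | hm
        · refine ⟨rfl, Or.inl ⟨code B, kindB B, blk_net hB, Or.inr ?_⟩⟩
          have hs : st0 M (ext n) (dcode (code B)) = 0 := by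
            rw [dcode_code]; simp [st0, h1]
          rw [hk]
          simp only [hs, dyn, if_true, Prod.mk.injEq]
          push_cast
          constructor <;> ring
        · refine ⟨(mem_tos.1 hm).1, Or.inl ⟨code B, kindB B, blk_net hB, Or.inl ?_⟩⟩
          rw [hk]
          have := (tos_iff kX_cast (60 * code B) (12 * code B) m.1 m.2.1).2 ⟨m, hm, rfl, rfl⟩
          push_cast at this
          exact this
    · right
      unfold wireMarks at hm
      by_cases h1 : idx (B, p) < idx (partner M (B, p))
      · have hPV : PV M (B, p) := ⟨hB, by simpa using hp⟩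
        have hsp := partner_spec M _ hPV
        have hw : (theNet M).Wire (idx (B, p)) (idx (partner M (B, p))) :=
          ⟨h1, (B, p), _, hPV, hsp.1, rfl, rfl, rfl⟩
        rw [decide_eq_true h1, cond_true, List.mem_append] at hm
        have hN : (theNet M).N = nN M := rfl
        rcases hm with hm | hm
        · refine ⟨(mem_tos.1 hm).1, Or.inr ⟨_, _, hw, Or.inl ?_⟩⟩
          have := (tos_iff kCL_cast _ _ m.1 m.2.1).2 ⟨m, hm, rfl, rfl⟩
          push_cast at this
          rw [hN]
          exact this
        · refine ⟨(mem_tos.1 hm).1, Or.inr ⟨_, _, hw, Or.inr ?_⟩⟩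
          have := (tos_iff kCR_cast _ _ m.1 m.2.1).2 ⟨m, hm, rfl, rfl⟩
          push_cast at this
          rw [hN]
          exact this
      · rw [decide_eq_false h1, cond_false] at hm
        simp at hm
  | some i =>
    right
    simp only [pieceMarks, List.mem_map, muMarks, List.mem_flatMap, List.mem_range] at hm
    obtain ⟨m', ⟨l, hl, hm'⟩, rfl⟩ := hm
    by_cases h1 : lc M l = i
    · have hb : eqB (lc M l) (i : ℕ) = true := by rw [h1]; simp
      rw [hb, cond_true, List.mem_singleton] at hm'
      subst hm'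
      refine ⟨rfl, Or.inl ⟨code (1, l, 0), kindB (1, l, 0), blk_net (lane_mem hl), Or.inr ?_⟩⟩
      have hs : st0 M (ext n) (dcode (code (1, l, 0))) = 2 * n i := by
        rw [dcode_code]
        simp only [st0, if_true]
        rw [h1, ext_val n i.2]
      rw [kind_lane]
      simp only [hs, dyn, Prod.mk.injEq]
      push_cast
      constructor <;> ring
    · have hb : eqB (lc M l) (i : ℕ) = false := (eqB_false _ _).2 h1
      rw [hb, cond_false] at hm'
      simp at hm'

theorem World_row {R : Net} {s : ℕ → ℕ} {t y : ℤ} (h : R.World s t y) : y % 12 ≤ 9 := by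
  rcases h with ⟨b', κ', hb', h' | h'⟩ | ⟨i', j', hw, h' | h'⟩
  · have := stat_bd h'; omega
  · have := dyn_bd h'; omega
  · have := kCL_bd h'; omega
  · have := kCR_bd h'; omega

theorem enc_eq {M : Machine} (hk : 1 ≤ M.k) (q : ℕ) (n : Fin M.k → ℕ) :
    superpose (piece 2 (beta (M, q)) (fun i : Fin M.k => mu (M, i)) (fun _ => (1, 0)) n) =
      C M (st0 M (ext n)) ((0, q, 0), 0) := by
  rw [piece_eq, C_encσ]
  apply superpose_eq
  · intro j m hm
    rw [encσ_true]
    rcases mark_world j m hm with rfl | ⟨hv, hW⟩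
    · rw [if_pos ⟨by push_cast; rfl, by push_cast; rfl⟩]
      rfl
    · have := World_row hW
      rw [if_neg (by intro h; omega), hv]
      simp only [base, hW, if_true]
      rfl
  · intro t y hne
    rw [encσ_true] at hne
    split_ifs at hne with hmov
    · refine ⟨none, (6 + 12 * (5 * code (0, q, 0)), 11 + 12 * code (0, q, 0), 2), ?_, ?_, ?_⟩
      · simp [pieceMarks, betaMarks]
      · rw [hmov.1]; push_cast; rfl
      · rw [hmov.2]; push_cast; rfl
    · have hW : (theNet M).World (fun b => st0 M (ext n) (dcode b)) t y := by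
        by_contra hW
        apply hne
        simp only [base, hW, if_false]
      rcases hW with ⟨b, κ, ⟨B, hB, rfl, rfl⟩, h⟩ | ⟨i, j, ⟨hij, P, Q, hP, hQ, hPQ, rfl, rfl⟩, h⟩
      · by_cases h1 : B.1 = 1
        · have hb : eqB B.1 1 = true := by rw [h1]; rfl
          have hk' : kindB B = .L := by simp [kindB, h1]
          rw [hk'] at h
          rcases h with h | h
          · have := (tos_iff kL_cast (60 * code B) (12 * code B) t y).1 (by push_cast; exact h)
            obtain ⟨m, hm, e1, e2⟩ := this
            refine ⟨none, m, ?_, e1, e2⟩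
            simp only [pieceMarks, betaMarks, List.mem_cons, List.mem_append, List.mem_flatMap]
            refine Or.inr (Or.inl ⟨B, hB, ?_⟩)
            unfold blkMarks
            rw [hb, cond_true]
            exact hm
          · have hB' := mem_blocks.1 hB
            obtain ⟨a, l, c⟩ := B
            simp only at h1 hB'
            subst h1
            have hc : c = 0 ∧ l < nL M := by omega
            obtain ⟨rfl, hl⟩ := hc
            have hlc : lc M l < M.k := lc_lt hk hl
            refine ⟨some ⟨lc M l, hlc⟩,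
              (40 + 60 * code (1, l, 0) + 2 * n ⟨lc M l, hlc⟩, 6 + 12 * code (1, l, 0), 1), ?_, ?_, ?_⟩
            · simp only [pieceMarks, List.mem_map, muMarks, List.mem_flatMap, List.mem_range]
              refine ⟨(40 + 60 * code (1, l, 0), 6 + 12 * code (1, l, 0), 1), ⟨l, hl, ?_⟩, rfl⟩
              have hbb : eqB (lc M l) (lc M l) = true := by simp
              show _ ∈ (bif eqB (lc M l) (lc M l) then _ else _)
              rw [hbb, cond_true]
              exact List.mem_cons_self
            · have hs : st0 M (ext n) (dcode (code (1, l, 0))) = 2 * n ⟨lc M l, hlc⟩ := by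
                rw [dcode_code]
                simp only [st0, if_true]
                rw [ext_val n hlc]
              simp only [hs, dyn, Prod.mk.injEq] at h
              push_cast at h ⊢
              omega
            · simp only [dyn, Prod.mk.injEq] at h
              push_cast
              omega
        · have hb : eqB B.1 1 = false := (eqB_false _ _).2 h1
          have hk' : kindB B = .X := by simp [kindB, h1]
          rw [hk'] at h
          rcases h with h | h
          · have := (tos_iff kX_cast (60 * code B) (12 * code B) t y).1 (by push_cast; exact h)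
            obtain ⟨m, hm, e1, e2⟩ := this
            refine ⟨none, m, ?_, e1, e2⟩
            simp only [pieceMarks, betaMarks, List.mem_cons, List.mem_append, List.mem_flatMap]
            refine Or.inr (Or.inl ⟨B, hB, ?_⟩)
            unfold blkMarks
            rw [hb, cond_false]
            exact List.mem_cons_of_mem _ hm
          · have hs : st0 M (ext n) (dcode (code B)) = 0 := by
              rw [dcode_code]; simp [st0, h1]
            simp only [hs, dyn, if_true, Prod.mk.injEq] at h
            refine ⟨none, (17 + 60 * code B, 7 + 12 * code B, 1), ?_, ?_, ?_⟩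
            · simp only [pieceMarks, betaMarks, List.mem_cons, List.mem_append, List.mem_flatMap]
              refine Or.inr (Or.inl ⟨B, hB, ?_⟩)
              unfold blkMarks
              rw [hb, cond_false]
              exact List.mem_cons_self
            · push_cast; omega
            · push_cast; omega
      · have hN : (theNet M).N = nN M := rfl
        rw [hN] at h
        have hlt : idx P < idx (partner M P) := by rw [hPQ]; exact hij
        have hmem : ∀ m ∈ wireMarks M P, m ∈ betaMarks M q := by
          intro m hm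
          simp only [betaMarks, List.mem_cons, List.mem_append, List.mem_flatMap]
          exact Or.inr (Or.inr ⟨P.1, hP.1, P.2, by simpa using hP.2, hm⟩)
        have hwm : wireMarks M P = tos kCLn (12 * idx P) (12 * (nN M + idx P)) ++
            tos kCRn (12 * idx (partner M P)) (12 * (nN M + idx P)) := by
          unfold wireMarks
          rw [decide_eq_true hlt, cond_true]
        rcases h with h | h
        · have := (tos_iff kCL_cast (12 * idx P) (12 * (nN M + idx P)) t y).1
            (by push_cast; exact h)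
          obtain ⟨m, hm, e1, e2⟩ := this
          refine ⟨none, m, hmem m ?_, e1, e2⟩
          rw [hwm, List.mem_append]
          exact Or.inl hm
        · have := (tos_iff kCR_cast (12 * idx Q) (12 * (nN M + idx P)) t y).1
            (by push_cast; exact h)
          obtain ⟨m, hm, e1, e2⟩ := this
          refine ⟨none, m, hmem m ?_, e1, e2⟩
          rw [hwm, List.mem_append, hPQ]
          exact Or.inr hm
  · intro t y
    unfold encσ ov
    have : (((false, t, y) : Edge) == (true, 6 + 12 * ((5 * code (0, q, 0) : ℕ) : ℤ),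
        11 + 12 * (code (0, q, 0) : ℤ))) = false := by
      rw [beq_eq_false_iff_ne]
      simp
    rw [List.lookup_cons, this]
    rfl

end Pool.Agent.SPCA81
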