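import Pool.Agent.Lib.MP_abc193_lc.Final

/-! # Universality with a faithful coding

The convention `TuringUniversalFinite` alone does not say that the coding `(q, n) ↦ enc(q, n)` is
faithful.  `FaithfulUniversalFinite` asks in addition that every piece is nonempty and that
different pairs `(q, n)` have different codes. -/

namespace Pool.Agent.SPCA81

open Pool.Agent.AttrHIF (eqB)

set_option linter.unusedSimpArgs false

/-- The SPCA with local function `f` is Turing universal with finite configurations and a faithful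
coding: from every reversible counter machine `M` one can compute an integer `c ≥ 1`, finite
configurations `β_q` and `μ_i` and nonzero vectors `v_i` such that, with `enc(q,n)` the
superposition of `β_q` and the translates of `μ_i` by `c n_i v_i`, all these pieces have nonempty
support, `enc` is injective on the pairs `(q,n)`, the pieces have pairwise disjoint supports and
every step `(q,n) ⊢ (q',n')` is simulated by `t ≥ 1` steps of the SPCA. -/
def FaithfulUniversalFinite (f : Cell → Cell) : Prop :=
  f 0 = 0 ∧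
  ∃ (c : Machine → ℕ) (β μ : Machine × ℕ → List ((ℤ × ℤ) × Cell)) (v : Machine × ℕ → ℤ × ℤ),
    Computable c ∧ Computable β ∧ Computable μ ∧ Computable v ∧
    ∀ M : Machine, M.Rev →
      1 ≤ c M ∧ (∀ i < M.k, v (M, i) ≠ 0) ∧
      (∀ (q : Fin M.m) (n : Fin M.k → ℕ) (j : Option (Fin M.k)), (support
        (piece (c M) (β (M, q)) (fun i => μ (M, i)) (fun i => v (M, i)) n j)).Nonempty) ∧
      (∀ (q q' : Fin M.m) (n n' : Fin M.k → ℕ),
        superpose (piece (c M) (β (M, q)) (fun i => μ (M, i)) (fun i => v (M, i)) n) =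
          superpose (piece (c M) (β (M, q')) (fun i => μ (M, i)) (fun i => v (M, i)) n') →
        q = q' ∧ n = n') ∧
      (∀ (q : Fin M.m) (n : Fin M.k → ℕ),
        Pairwise (fun j j' => Disjoint
          (support (piece (c M) (β (M, q)) (fun i => μ (M, i)) (fun i => v (M, i)) n j))
          (support (piece (c M) (β (M, q)) (fun i => μ (M, i)) (fun i => v (M, i)) n j')))) ∧
      (∀ (q q' : Fin M.m) (n n' : Fin M.k → ℕ), M.Step (q, n) (q', n') →
        ∃ t ≥ 1, (globalMap f)^[t]
            (superpose (piece (c M) (β (M, q)) (fun i => μ (M, i)) (fun i => v (M, i)) n)) =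
          superpose (piece (c M) (β (M, q')) (fun i => μ (M, i)) (fun i => v (M, i)) n'))

theorem le_enc {k : ℕ} (L : Option (Fin k) → List (ℕ × ℕ × Fin 3)) (j : Option (Fin k))
    (m : ℕ × ℕ × Fin 3) (hm : m ∈ L j) :
    (mk m).2 ≤ superpose (fun j => conf ((L j).map mk)) (mk m).1 :=
  (le_conf (List.mem_map_of_mem (f := mk) hm) rfl).trans
    (Finset.le_sup (f := fun j => conf ((L j).map mk) (mk m).1) (Finset.mem_univ j))

theorem enc_le {k : ℕ} (L : Option (Fin k) → List (ℕ × ℕ × Fin 3)) (p : ℤ × ℤ) (c : Cell)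
    (h : ∀ j, ∀ m ∈ L j, (mk m).1 = p → (mk m).2 ≤ c) :
    superpose (fun j => conf ((L j).map mk)) p ≤ c := by
  apply Finset.sup_le
  intro j _
  apply conf_le
  intro e he hp
  obtain ⟨m, hm, rfl⟩ := List.mem_map.1 he
  exact h j m hm hp

theorem mk_le_one (m : ℕ × ℕ × Fin 3) (h : m.2.2 = 1) : (mk m).2 ≤ ((1, 1, 1, 1) : Cell) := by
  unfold mk
  rw [h]
  cases eqB (m.1 % 2) 1
  · show ((0, 0, 1, 0) : Cell) ≤ (1, 1, 1, 1)
    decide
  · show ((1, 0, 0, 0) : Cell) ≤ (1, 1, 1, 1)
    decide

/-- the mark of the mover in the code of the state `q` -/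
def mover (q : ℕ) : ℕ × ℕ × Fin 3 := (6 + 12 * (5 * code (0, q, 0)), 11 + 12 * code (0, q, 0), 2)

theorem mk_mover (q : ℕ) : mk (mover q) =
    ((((6 + 12 * (5 * code (0, q, 0)) + (11 + 12 * code (0, q, 0)) : ℕ) : ℤ),
      ((11 + 12 * code (0, q, 0) + 1 : ℕ) : ℤ)), ((0, 0, 2, 0) : Cell)) := by
  have hb : eqB ((mover q).1 % 2) 1 = false := by
    have : (mover q).1 % 2 = 0 := by
      show (6 + 12 * (5 * code (0, q, 0))) % 2 = 0
      omega
    rw [this]; rfl
  unfold mk
  rw [hb]
  rfl

theorem mover_mem (M : Machine) (q : ℕ) (n : Fin M.k → ℕ) : mover q ∈ pieceMarks M q n none := by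
  simp [pieceMarks, betaMarks, mover]

/-- the marks of the counter pieces -/
theorem mu_mark {M : Machine} {q : ℕ} {n : Fin M.k → ℕ} {i : Fin M.k} {m : ℕ × ℕ × Fin 3}
    (hm : m ∈ pieceMarks M q n (some i)) :
    ∃ l, lc M l = i ∧ m = (40 + 60 * code (1, l, 0) + 2 * n i, 6 + 12 * code (1, l, 0), 1) := by
  simp only [pieceMarks, List.mem_map, muMarks, List.mem_flatMap, List.mem_range] at hm
  obtain ⟨m', ⟨l, hl, hm'⟩, rfl⟩ := hm
  by_cases h1 : lc M l = i
  · have hb : eqB (lc M l) (i : ℕ) = true := by rw [h1]; simp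
    rw [hb, cond_true, List.mem_singleton] at hm'
    subst hm'
    exact ⟨l, h1, rfl⟩
  · have hb : eqB (lc M l) (i : ℕ) = false := (eqB_false _ _).2 h1
    rw [hb, cond_false] at hm'
    simp at hm'

/-- the lane of the counter `i` -/
def laneC (M : Machine) (i : Fin M.k) : ℕ := 2 * M.2.1 + i

theorem lc_laneC (M : Machine) (i : Fin M.k) : lc M (laneC M i) = i := by
  unfold lc laneC
  have h : decide (2 * M.2.1 + (i : ℕ) < 2 * M.2.1) = false := by
    rw [decide_eq_false_iff_not]; omega
  rw [h, cond_false]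
  omega

/-- the mark of the counter `i` in its lane -/
def cmark (M : Machine) (n : Fin M.k → ℕ) (i : Fin M.k) : ℕ × ℕ × Fin 3 :=
  (40 + 60 * code (1, laneC M i, 0) + 2 * n i, 6 + 12 * code (1, laneC M i, 0), 1)

theorem cmark_mem (M : Machine) (q : ℕ) (n : Fin M.k → ℕ) (i : Fin M.k) :
    cmark M n i ∈ pieceMarks M q n (some i) := by
  simp only [pieceMarks, List.mem_map, muMarks, List.mem_flatMap, List.mem_range]
  refine ⟨(40 + 60 * code (1, laneC M i, 0), 6 + 12 * code (1, laneC M i, 0), 1),
    ⟨laneC M i, ?_, ?_⟩, rfl⟩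
  · have := i.2
    unfold laneC nL
    have h2 : M.k = M.1 := rfl
    omega
  · have hb : eqB (lc M (laneC M i)) (i : ℕ) = true := by rw [lc_laneC]; simp
    rw [hb, cond_true]
    exact List.mem_cons_self

theorem mk_even (m : ℕ × ℕ × Fin 3) (h : m.1 % 2 = 0) :
    mk m = ((((m.1 + m.2.1 : ℕ) : ℤ), ((m.2.1 + 1 : ℕ) : ℤ)), ((0, 0, m.2.2, 0) : Cell)) := by
  have hb : eqB (m.1 % 2) 1 = false := by rw [h]; rfl
  unfold mk
  rw [hb]
  rfl

theorem mk_cmark (M : Machine) (n : Fin M.k → ℕ) (i : Fin M.k) : mk (cmark M n i) =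
    ((((40 + 60 * code (1, laneC M i, 0) + 2 * n i + (6 + 12 * code (1, laneC M i, 0)) : ℕ) : ℤ),
      ((6 + 12 * code (1, laneC M i, 0) + 1 : ℕ) : ℤ)), ((0, 0, 1, 0) : Cell)) := by
  rw [mk_even]
  · rfl
  · show (40 + 60 * code (1, laneC M i, 0) + 2 * n i) % 2 = 0
    omega

theorem piece_nonempty (M : Machine) (q : ℕ) (n : Fin M.k → ℕ) (j : Option (Fin M.k)) :
    (support (piece 2 (beta (M, q)) (fun i : Fin M.k => mu (M, i)) (fun _ => (1, 0)) n j)).Nonempty := by
  rw [piece_eq]
  have key : ∀ m ∈ pieceMarks M q n j, (mk m).2 ≠ 0 →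
      (support (conf ((pieceMarks M q n j).map mk))).Nonempty := by
    intro m hm h0
    refine ⟨(mk m).1, ?_⟩
    intro h
    have h1 := le_conf (List.mem_map_of_mem (f := mk) hm) (p := (mk m).1) rfl
    rw [h] at h1
    exact h0 (le_antisymm h1 (zero_le_cell _))
  cases j with
  | none =>
    refine key (mover q) (mover_mem M q n) ?_
    rw [mk_mover]
    show ((0, 0, 2, 0) : Cell) ≠ 0
    decide
  | some i =>
    refine key (cmark M n i) (cmark_mem M q n i) ?_
    rw [mk_cmark]
    show ((0, 0, 1, 0) : Cell) ≠ 0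
    decide

theorem enc_inj_state {M : Machine} {q q' : ℕ} {n n' : Fin M.k → ℕ}
    (h : superpose (piece 2 (beta (M, q)) (fun i : Fin M.k => mu (M, i)) (fun _ => (1, 0)) n) =
      superpose (piece 2 (beta (M, q')) (fun i : Fin M.k => mu (M, i)) (fun _ => (1, 0)) n')) :
    q = q' := by
  by_contra hne
  rw [piece_eq, piece_eq] at h
  have h1 := le_enc (pieceMarks M q n) none (mover q) (mover_mem M q n)
  rw [h] at h1
  have h2 := enc_le (pieceMarks M q' n') (mk (mover q)).1 (1, 1, 1, 1) (by
    intro j m hm hp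
    rcases mark_world j m hm with hm' | ⟨hv, _⟩
    · exfalso
      have hm2 : m = mover q' := hm'
      rw [hm2, mk_mover, mk_mover] at hp
      simp only [Prod.mk.injEq] at hp
      have hc : code (0, q', 0) = code (0, q, 0) := by
        have := hp.2
        push_cast at this
        omega
      have := code_inj hc
      simp only [Prod.mk.injEq, true_and, and_true] at this
      exact hne this.symm
    · exact mk_le_one m hv)
  have h3 := h1.trans h2
  rw [mk_mover] at h3
  exact absurd (show ((0, 0, 2, 0) : Cell) ≤ (1, 1, 1, 1) from h3) (by decide)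

theorem enc_inj_counter {M : Machine} {q q' : ℕ} {n n' : Fin M.k → ℕ}
    (h : superpose (piece 2 (beta (M, q)) (fun i : Fin M.k => mu (M, i)) (fun _ => (1, 0)) n) =
      superpose (piece 2 (beta (M, q')) (fun i : Fin M.k => mu (M, i)) (fun _ => (1, 0)) n')) :
    n = n' := by
  funext i
  by_contra hne
  rw [piece_eq, piece_eq] at h
  have h1 := le_enc (pieceMarks M q n) (some i) (cmark M n i) (cmark_mem M q n i)
  rw [h] at h1
  have h2 := enc_le (pieceMarks M q' n') (mk (cmark M n i)).1 0 (by
    intro j m hm hp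
    exfalso
    have hrow : (mk m).1.2 = 7 + 12 * (code (1, laneC M i, 0) : ℤ) := by
      rw [hp, mk_cmark]
      push_cast
      ring
    cases j with
    | none => exact beta_row m hm hrow
    | some i' =>
      obtain ⟨l, hl, rfl⟩ := mu_mark hm
      rw [mk_even _ (by show (40 + 60 * code (1, l, 0) + 2 * n' i') % 2 = 0; omega)] at hp hrow
      have hc : code (1, l, 0) = code (1, laneC M i, 0) := by
        simp only at hrow
        push_cast at hrow
        omega
      have hl2 := code_inj hc
      simp only [Prod.mk.injEq, true_and, and_true] at hl2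
      subst hl2
      have hi : i' = i := by
        apply Fin.ext
        rw [← hl, lc_laneC]
      subst hi
      rw [mk_cmark] at hp
      simp only [Prod.mk.injEq] at hp
      have := hp.1
      push_cast at this
      apply hne
      omega)
  have h3 := h1.trans h2
  rw [mk_cmark] at h3
  exact absurd (show ((0, 0, 1, 0) : Cell) ≤ 0 from h3) (by decide)

/-- The SPCA with local function `f` is Turing universal with finite configurations, with a
faithful coding. -/
theorem faithful : FaithfulUniversalFinite f := by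
  refine ⟨f_zero, fun _ => 2, beta, mu, fun _ => (1, 0), Computable.const _, c_beta, c_mu,
    Computable.const _, ?_⟩
  intro M hM
  refine ⟨by norm_num, fun i _ => ?_, fun q n j => piece_nonempty M q n j,
    fun q q' n n' h => ⟨Fin.ext (enc_inj_state h), enc_inj_counter h⟩, fun q n => disj M q n, ?_⟩
  · intro h
    have := congrArg Prod.fst h
    simp at this
  · intro q q' n n' h
    obtain ⟨t, ht, h2⟩ := simulate hM h
    refine ⟨t, ht, ?_⟩
    rw [enc_eq hM.1, enc_eq hM.1]
    exact h2

end Pool.Agent.SPCA81
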