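import Pool.Agent.Lib.MP_abc193_lc.Encode

namespace Pool.Agent.SPCA81

open Pool.Agent.AttrHIF (eqB)

set_option linter.unusedSimpArgs false

/-! ## Disjointness -/

theorem mk_row (m : ℕ × ℕ × Fin 3) :
    ((m.1 % 2 = 1 ∧ (mk m).1.2 = (m.2.1 : ℤ)) ∨ (m.1 % 2 = 0 ∧ (mk m).1.2 = (m.2.1 : ℤ) + 1)) := by
  unfold mk
  rcases Nat.mod_two_eq_zero_or_one m.1 with h | h
  · right
    rw [h]
    refine ⟨rfl, ?_⟩
    show ((m.2.1 + 1 : ℕ) : ℤ) = _
    push_cast
    rfl
  · left
    rw [h]
    exact ⟨rfl, rfl⟩

theorem beta_row {M : Machine} {q l : ℕ} (m : ℕ × ℕ × Fin 3) (hm : m ∈ betaMarks M q) :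
    (mk m).1.2 ≠ 7 + 12 * (code (1, l, 0) : ℤ) := by
  intro h
  have hr := mk_row m
  rw [h] at hr
  simp only [betaMarks, List.mem_cons, List.mem_append, List.mem_flatMap] at hm
  rcases hm with rfl | ⟨B, hB, hm⟩ | ⟨B, hB, p, hp, hm⟩
  · simp only at hr
    push_cast at hr
    omega
  · unfold blkMarks at hm
    by_cases h1 : B.1 = 1
    · have hb : eqB B.1 1 = true := by rw [h1]; rfl
      rw [hb, cond_true] at hm
      obtain ⟨_, s, hs, h2, h3⟩ := mem_tos.1 hm
      rw [h2, h3] at hr
      push_cast at hr
      simp only [kLn, List.mem_cons, List.not_mem_nil, or_false] at hs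
      rcases hs with rfl | rfl | rfl | rfl | rfl | rfl | rfl | rfl | rfl <;> simp only at hr <;> omega
    · have hb : eqB B.1 1 = false := (eqB_false _ _).2 h1
      have hne : code B ≠ code (1, l, 0) := by
        intro e
        apply h1
        rw [code_inj e]
      rw [hb, cond_false, List.mem_cons] at hm
      rcases hm with rfl | hm
      · simp only at hr
        push_cast at hr
        omega
      · obtain ⟨_, s, hs, h2, h3⟩ := mem_tos.1 hm
        rw [h2, h3] at hr
        push_cast at hr
        simp only [kXn, List.mem_cons, List.not_mem_nil, or_false] at hs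
        rcases hs with rfl | rfl | rfl | rfl | rfl | rfl | rfl | rfl | rfl <;>
          simp only at hr <;> omega
  · unfold wireMarks at hm
    by_cases h1 : idx (B, p) < idx (partner M (B, p))
    · rw [decide_eq_true h1, cond_true, List.mem_append] at hm
      rcases hm with hm | hm
      · obtain ⟨_, s, hs, h2, h3⟩ := mem_tos.1 hm
        rw [h2, h3] at hr
        push_cast at hr
        simp only [kCLn, List.mem_cons, List.not_mem_nil, or_false] at hs
        rcases hs with rfl | rfl <;> simp only at hr <;> omega
      · obtain ⟨_, s, hs, h2, h3⟩ := mem_tos.1 hm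
        rw [h2, h3] at hr
        push_cast at hr
        simp only [kCRn, List.mem_cons, List.not_mem_nil, or_false] at hs
        rcases hs with rfl | rfl | rfl | rfl | rfl | rfl | rfl <;> simp only at hr <;> omega
    · rw [decide_eq_false h1, cond_false] at hm
      simp at hm

theorem mu_row {M : Machine} {q : ℕ} {n : Fin M.k → ℕ} {i : Fin M.k} (m : ℕ × ℕ × Fin 3)
    (hm : m ∈ pieceMarks M q n (some i)) :
    ∃ l, lc M l = i ∧ (mk m).1.2 = 7 + 12 * (code (1, l, 0) : ℤ) := by
  simp only [pieceMarks, List.mem_map, muMarks, List.mem_flatMap, List.mem_range] at hm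
  obtain ⟨m', ⟨l, hl, hm'⟩, rfl⟩ := hm
  by_cases h1 : lc M l = i
  · have hb : eqB (lc M l) (i : ℕ) = true := by rw [h1]; simp
    rw [hb, cond_true, List.mem_singleton] at hm'
    subst hm'
    refine ⟨l, h1, ?_⟩
    rcases mk_row (40 + 60 * code (1, l, 0) + 2 * n i, 6 + 12 * code (1, l, 0), 1) with h | h
    · have := h.1
      simp only at this
      omega
    · rw [h.2]
      push_cast
      ring
  · have hb : eqB (lc M l) (i : ℕ) = false := (eqB_false _ _).2 h1
    rw [hb, cond_false] at hm'
    simp at hm'

theorem disj (M : Machine) (q : ℕ) (n : Fin M.k → ℕ) :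
    Pairwise (fun j j' => Disjoint
      (support (piece 2 (beta (M, q)) (fun i : Fin M.k => mu (M, i)) (fun _ => (1, 0)) n j))
      (support (piece 2 (beta (M, q)) (fun i : Fin M.k => mu (M, i)) (fun _ => (1, 0)) n j'))) := by
  intro j j' hne
  rw [piece_eq, Set.disjoint_left]
  intro p hp hp'
  obtain ⟨e, he, h1⟩ := conf_support hp
  obtain ⟨e', he', h2⟩ := conf_support hp'
  obtain ⟨m, hm, rfl⟩ := List.mem_map.1 he
  obtain ⟨m', hm', rfl⟩ := List.mem_map.1 he'
  have hmm : (mk m).1.2 = (mk m').1.2 := by rw [h1, h2]
  cases j with
  | none =>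
    cases j' with
    | none => exact hne rfl
    | some i' =>
      obtain ⟨l, _, hl⟩ := mu_row m' hm'
      exact beta_row m hm (hmm.trans hl)
  | some i =>
    cases j' with
    | none =>
      obtain ⟨l, _, hl⟩ := mu_row m hm
      exact beta_row m' hm' (hmm.symm.trans hl)
    | some i' =>
      obtain ⟨l, hl1, hl⟩ := mu_row m hm
      obtain ⟨l', hl1', hl'⟩ := mu_row m' hm'
      have hc : code (1, l, 0) = code (1, l', 0) := by omega
      have := code_inj hc
      simp only [Prod.mk.injEq, true_and, and_true] at this
      subst this
      apply hne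
      rw [Option.some.injEq]
      apply Fin.ext
      rw [← hl1, ← hl1']

/-! ## Computability -/

section comp
open Pool.Agent.AttrHIF
variable {α : Type*} [Primcodable α]

@[fun_prop] theorem fp_intCast {f : α → ℕ} (hf : Computable f) :
    Computable (fun a => ((f a : ℕ) : ℤ)) := by
  have h : Computable (fun a => Denumerable.ofNat ℤ (2 * f a)) := by
    have h1 : Computable (fun a => 2 * f a) := by fun_prop
    exact (Primrec.ofNat ℤ).to_comp.comp h1
  refine h.of_eq (fun a => ?_)
  have h2 : Encodable.encode ((f a : ℕ) : ℤ) = 2 * f a := rfl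
  rw [← h2, Denumerable.ofNat_encode]

theorem fp_firstE {E n : α → ℕ} {P : α → ℕ → Bool} (hE : Computable E) (hn : Computable n)
    (hP : Computable (fun p : α × ℕ => P p.1 p.2)) :
    Computable (fun a => firstE (E a) (P a) (n a)) := by
  unfold firstE
  apply fp_natrec hn hE
  apply fp_cond
  · fun_prop
  · fun_prop
  · apply fp_cond
    · exact hP.comp (by fun_prop : Computable (fun p : α × ℕ × ℕ => (p.1, p.2.1)))
    · fun_prop
    · fun_prop

@[fun_prop] theorem c_rules {M : α → Machine} (hM : Computable M) :
    Computable (fun a => rules' (M a)) := by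
  unfold rules'
  fun_prop

@[fun_prop] theorem c_nE {M : α → Machine} (hM : Computable M) :
    Computable (fun a => nE (M a)) := by
  unfold nE
  fun_prop

@[fun_prop] theorem c_rl {M : α → Machine} {e : α → ℕ} (hM : Computable M) (he : Computable e) :
    Computable (fun a => rl (M a) (e a)) := by
  unfold rl
  fun_prop

@[fun_prop] theorem c_src {M : α → Machine} {e : α → ℕ} (hM : Computable M) (he : Computable e) :
    Computable (fun a => src (M a) (e a)) := by
  unfold src
  fun_prop

@[fun_prop] theorem c_ctr {M : α → Machine} {e : α → ℕ} (hM : Computable M) (he : Computable e) :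
    Computable (fun a => ctr (M a) (e a)) := by
  unfold ctr
  fun_prop

@[fun_prop] theorem c_op {M : α → Machine} {e : α → ℕ} (hM : Computable M) (he : Computable e) :
    Computable (fun a => op (M a) (e a)) := by
  unfold op
  fun_prop

@[fun_prop] theorem c_dst {M : α → Machine} {e : α → ℕ} (hM : Computable M) (he : Computable e) :
    Computable (fun a => dst (M a) (e a)) := by
  unfold dst
  fun_prop

@[fun_prop] theorem c_nL {M : α → Machine} (hM : Computable M) :
    Computable (fun a => nL (M a)) := by
  unfold nL
  fun_prop

@[fun_prop] theorem c_oZ {M : α → Machine} {q : α → ℕ} (hM : Computable M) (hq : Computable q) :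
    Computable (fun a => oZ (M a) (q a)) := by
  unfold oZ first
  apply fp_firstE <;> fun_prop

@[fun_prop] theorem c_oN {M : α → Machine} {q : α → ℕ} (hM : Computable M) (hq : Computable q) :
    Computable (fun a => oN (M a) (q a)) := by
  unfold oN first
  apply fp_firstE <;> fun_prop

@[fun_prop] theorem c_iZ {M : α → Machine} {q : α → ℕ} (hM : Computable M) (hq : Computable q) :
    Computable (fun a => iZ (M a) (q a)) := by
  unfold iZ first
  apply fp_firstE <;> fun_prop

@[fun_prop] theorem c_iN {M : α → Machine} {q : α → ℕ} (hM : Computable M) (hq : Computable q) :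
    Computable (fun a => iN (M a) (q a)) := by
  unfold iN first
  apply fp_firstE <;> fun_prop

@[fun_prop] theorem c_nop {M : α → Machine} {e : α → ℕ} (hM : Computable M) (he : Computable e) :
    Computable (fun a => nop (M a) (e a)) := by
  unfold nop
  fun_prop

@[fun_prop] theorem c_kO {M : α → Machine} {q : α → ℕ} (hM : Computable M) (hq : Computable q) :
    Computable (fun a => kO (M a) (q a)) := by
  unfold kO
  fun_prop

@[fun_prop] theorem c_kI {M : α → Machine} {q : α → ℕ} (hM : Computable M) (hq : Computable q) :
    Computable (fun a => kI (M a) (q a)) := by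
  unfold kI
  fun_prop

@[fun_prop] theorem c_eO {M : α → Machine} {q : α → ℕ} (hM : Computable M) (hq : Computable q) :
    Computable (fun a => eO (M a) (q a)) := by
  unfold eO
  fun_prop

@[fun_prop] theorem c_eI {M : α → Machine} {q : α → ℕ} (hM : Computable M) (hq : Computable q) :
    Computable (fun a => eI (M a) (q a)) := by
  unfold eI
  fun_prop

@[fun_prop] theorem c_lc {M : α → Machine} {q : α → ℕ} (hM : Computable M) (hq : Computable q) :
    Computable (fun a => lc (M a) (q a)) := by
  unfold lc
  fun_prop

@[fun_prop] theorem c_dirI {M : α → Machine} {e j : α → ℕ} (hM : Computable M)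
    (he : Computable e) (hj : Computable j) : Computable (fun a => dirI (M a) (e a) (j a)) := by
  unfold dirI
  fun_prop

@[fun_prop] theorem c_pin {M : α → Machine} {e j : α → ℕ} (hM : Computable M)
    (he : Computable e) (hj : Computable j) : Computable (fun a => pin (M a) (e a) (j a)) := by
  unfold pin
  fun_prop

@[fun_prop] theorem c_pout {M : α → Machine} {e j : α → ℕ} (hM : Computable M)
    (he : Computable e) (hj : Computable j) : Computable (fun a => pout (M a) (e a) (j a)) := by
  unfold pout
  fun_prop

@[fun_prop] theorem c_fin {M : α → Machine} {e : α → ℕ} (hM : Computable M) (he : Computable e) :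
    Computable (fun a => fin (M a) (e a)) := by
  unfold fin
  fun_prop

@[fun_prop] theorem c_start {M : α → Machine} {e : α → ℕ} (hM : Computable M) (he : Computable e) :
    Computable (fun a => start (M a) (e a)) := by
  unfold start
  fun_prop

@[fun_prop] theorem c_partnerD {M : α → Machine} {P : α → Port} (hM : Computable M)
    (hP : Computable P) : Computable (fun a => partnerD (M a) (P a)) := by
  unfold partnerD
  fun_prop

@[fun_prop] theorem c_partnerL {M : α → Machine} {P : α → Port} (hM : Computable M)
    (hP : Computable P) : Computable (fun a => partnerL (M a) (P a)) := by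
  unfold partnerL
  fun_prop

@[fun_prop] theorem c_partnerS {M : α → Machine} {P : α → Port} (hM : Computable M)
    (hP : Computable P) : Computable (fun a => partnerS (M a) (P a)) := by
  unfold partnerS
  fun_prop

@[fun_prop] theorem c_partner {M : α → Machine} {P : α → Port} (hM : Computable M)
    (hP : Computable P) : Computable (fun a => partner (M a) (P a)) := by
  unfold partner
  fun_prop

@[fun_prop] theorem c_code {B : α → Blk} (hB : Computable B) :
    Computable (fun a => code (B a)) := by
  unfold code
  fun_prop

@[fun_prop] theorem c_idx {P : α → Port} (hP : Computable P) :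
    Computable (fun a => idx (P a)) := by
  unfold idx
  fun_prop

@[fun_prop] theorem c_blocks {M : α → Machine} (hM : Computable M) :
    Computable (fun a => blocks (M a)) := by
  unfold blocks
  fun_prop

@[fun_prop] theorem c_nN {M : α → Machine} (hM : Computable M) :
    Computable (fun a => nN (M a)) := by
  unfold nN
  fun_prop

@[fun_prop] theorem c_tos {l : List (ℕ × ℕ)} {a b : α → ℕ} (ha : Computable a)
    (hb : Computable b) : Computable (fun x => tos l (a x) (b x)) := by
  unfold tos
  fun_prop

@[fun_prop] theorem c_blkMarks {B : α → Blk} (hB : Computable B) :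
    Computable (fun a => blkMarks (B a)) := by
  unfold blkMarks
  fun_prop

@[fun_prop] theorem c_wireMarks {M : α → Machine} {P : α → Port} (hM : Computable M)
    (hP : Computable P) : Computable (fun a => wireMarks (M a) (P a)) := by
  unfold wireMarks
  fun_prop

@[fun_prop] theorem c_betaMarks {M : α → Machine} {q : α → ℕ} (hM : Computable M)
    (hq : Computable q) : Computable (fun a => betaMarks (M a) (q a)) := by
  unfold betaMarks
  fun_prop

@[fun_prop] theorem c_muMarks {M : α → Machine} {q : α → ℕ} (hM : Computable M)
    (hq : Computable q) : Computable (fun a => muMarks (M a) (q a)) := by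
  unfold muMarks
  fun_prop

@[fun_prop] theorem c_mk {m : α → ℕ × ℕ × Fin 3} (hm : Computable m) :
    Computable (fun a => mk (m a)) := by
  unfold mk
  fun_prop

theorem c_beta : Computable beta := by
  unfold beta
  fun_prop

theorem c_mu : Computable mu := by
  unfold mu
  fun_prop

end comp

/-- The SPCA with local function `f` is Turing universal with finite configurations. -/
theorem universal : TuringUniversalFinite f := by
  refine ⟨f_zero, fun _ => 2, beta, mu, fun _ => (1, 0), Computable.const _, c_beta, c_mu,
    Computable.const _, ?_⟩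
  intro M hM
  refine ⟨by norm_num, fun i _ => ?_, fun q n => disj M q n, ?_⟩
  · intro h
    have := congrArg Prod.fst h
    simp at this
  · intro q q' n n' h
    obtain ⟨t, ht, h2⟩ := simulate hM h
    refine ⟨t, ht, ?_⟩
    rw [enc_eq hM.1, enc_eq hM.1]
    exact h2

end Pool.Agent.SPCA81
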