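import Pool.Agent.Lib.MP_abc193_lc.Blocks

namespace Pool.Agent.SPCA81

open V3

set_option linter.unusedSimpArgs false

/-! ## Networks of blocks: the geometry -/

/-- A network: block `b` sits in tile row `b`, tile columns `5b, …, 5b+4`; the wire `{i,j}`
(`i < j`) between the ports in the tile columns `i`, `j` uses the tile row `N + i`. -/
structure Net where
  N : ℕ
  Blk : ℕ → Kind → Prop
  Wire : ℕ → ℕ → Prop
  blk_lt : ∀ {b κ}, Blk b κ → b < N
  blk_uniq : ∀ {b κ κ'}, Blk b κ → Blk b κ' → κ = κ'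
  wire_lt : ∀ {i j}, Wire i j → i < j
  wire_N : ∀ {i j}, Wire i j → j < 5 * N
  wire_r : ∀ {i j j'}, Wire i j → Wire i j' → j = j'
  wire_l : ∀ {i i' j}, Wire i j → Wire i' j → i = i'
  wire_m : ∀ {i j k}, Wire i j → ¬ Wire j k

variable (R : Net)

/-- the static marks of the wires -/
def Net.W (t y : ℤ) : Prop :=
  ∃ i j : ℕ, R.Wire i j ∧ ((t - 12 * i, y - 12 * (R.N + i)) ∈ kCL ∨
    (t - 12 * j, y - 12 * (R.N + i)) ∈ kCR)

/-- all marks, for the state `s` of the blocks -/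
def Net.World (s : ℕ → ℕ) (t y : ℤ) : Prop :=
  (∃ (b : ℕ) (κ : Kind), R.Blk b κ ∧ ((t - 60 * b, y - 12 * b) ∈ stat κ ∨
    (t - 60 * b, y - 12 * b) = dyn κ (s b))) ∨ R.W t y

/-- all marks except the dynamic mark of block `b₀` -/
def Net.WorldX (s : ℕ → ℕ) (b₀ : ℕ) (t y : ℤ) : Prop :=
  (∃ (b : ℕ) (κ : Kind), R.Blk b κ ∧ ((t - 60 * b, y - 12 * b) ∈ stat κ ∨
    (b ≠ b₀ ∧ (t - 60 * b, y - 12 * b) = dyn κ (s b)))) ∨ R.W t y

theorem kCL_bd {t y : ℤ} (h : (t, y) ∈ kCL) : 6 ≤ t ∧ t ≤ 7 ∧ 2 ≤ y ∧ y ≤ 3 := by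
  simp only [kCL, List.mem_cons, Prod.mk.injEq, List.not_mem_nil, or_false] at h
  omega

theorem kCR_bd {t y : ℤ} (h : (t, y) ∈ kCR) : 3 ≤ t ∧ t ≤ 7 ∧ 2 ≤ y ∧ y ≤ 5 := by
  simp only [kCR, List.mem_cons, Prod.mk.injEq, List.not_mem_nil, or_false] at h
  omega

theorem stat_bd {κ : Kind} {t y : ℤ} (h : (t, y) ∈ stat κ) : 7 ≤ t ∧ t ≤ 54 ∧ 2 ≤ y ∧ y ≤ 9 := by
  cases κ
  · simp only [stat, kX, List.mem_cons, Prod.mk.injEq, List.not_mem_nil, or_false] at h
    omega
  · simp only [stat, kL, List.mem_cons, Prod.mk.injEq, List.not_mem_nil, or_false] at h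
    omega

theorem dyn_bd {κ : Kind} {s : ℕ} {t y : ℤ} (h : (t, y) = dyn κ s) : 17 ≤ t ∧ 6 ≤ y ∧ y ≤ 7 := by
  cases κ
  · simp only [dyn] at h
    split_ifs at h <;> simp only [Prod.mk.injEq] at h <;> omega
  · simp only [dyn, Prod.mk.injEq] at h
    omega

theorem World_ins (s : ℕ → ℕ) {b : ℕ} {κ : Kind} (hb : R.Blk b κ) :
    R.World s = ins ((dyn κ (s b)).1 + 60 * b, (dyn κ (s b)).2 + 12 * b) (R.WorldX s b) := by
  funext t y
  apply propext
  constructor
  · rintro (⟨b', κ', hb', h | h⟩ | h)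
    · exact Or.inr (Or.inl ⟨b', κ', hb', Or.inl h⟩)
    · by_cases e : b' = b
      · subst e
        have := R.blk_uniq hb hb'
        subst this
        left
        rw [← h]
        ext <;> simp
      · exact Or.inr (Or.inl ⟨b', κ', hb', Or.inr ⟨e, h⟩⟩)
    · exact Or.inr (Or.inr h)
  · rintro (h | (⟨b', κ', hb', h | ⟨_, h⟩⟩ | h))
    · refine Or.inl ⟨b, κ, hb, Or.inr ?_⟩
      simp only [Prod.mk.injEq] at h
      ext
      · simp only; omega
      · simp only; omega
    · exact Or.inl ⟨b', κ', hb', Or.inl h⟩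
    · exact Or.inl ⟨b', κ', hb', Or.inr h⟩
    · exact Or.inr h

theorem WorldX_update (s : ℕ → ℕ) (b v : ℕ) :
    R.WorldX (Function.update s b v) b = R.WorldX s b := by
  funext t y
  unfold Net.WorldX
  congr 1
  apply propext
  constructor
  · rintro ⟨b', κ', hb', h | ⟨e, h⟩⟩
    · exact ⟨b', κ', hb', Or.inl h⟩
    · rw [Function.update_of_ne e] at h
      exact ⟨b', κ', hb', Or.inr ⟨e, h⟩⟩
  · rintro ⟨b', κ', hb', h | ⟨e, h⟩⟩
    · exact ⟨b', κ', hb', Or.inl h⟩
    · refine ⟨b', κ', hb', Or.inr ⟨e, ?_⟩⟩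
      rw [Function.update_of_ne e]
      exact h

theorem WorldX_local (s : ℕ → ℕ) {b : ℕ} {κ : Kind} (hb : R.Blk b κ) (t y : ℤ) (h1 : -1 ≤ y)
    (h2 : y ≤ 11) : R.WorldX s b (t + 60 * b) (y + 12 * b) ↔ (t, y) ∈ stat κ := by
  have hbN := R.blk_lt hb
  constructor
  · rintro (⟨b', κ', hb', h | ⟨e, h⟩⟩ | ⟨i, j, hw, h | h⟩)
    · have := stat_bd h
      have e : b' = b := by omega
      subst e
      have := R.blk_uniq hb hb'
      subst this
      simpa using h
    · have := dyn_bd h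
      omega
    · have := kCL_bd h
      omega
    · have := kCR_bd h
      omega
  · intro h
    refine Or.inl ⟨b, κ, hb, Or.inl ?_⟩
    simpa using h

theorem block_world {s : ℕ → ℕ} {b : ℕ} {κ : Kind} (hb : R.Blk b κ) {p s' p' : ℕ}
    (h : BT κ (s b) p s' p') :
    Leads (Vt (R.World s) (6 + 12 * (5 * b + p : ℕ)) (11 + 12 * b) 0)
      (Vt (R.World (Function.update s b s')) (6 + 12 * (5 * b + p' : ℕ)) (11 + 12 * b) 1) := by
  have := block_thm h (K := R.WorldX s b) (60 * b) (12 * b) (by omega)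
    (fun t y h1 h2 => WorldX_local R s hb t y h1 h2)
  rw [World_ins R s hb, World_ins R _ hb, WorldX_update, Function.update_self]
  rw [show (6 : ℤ) + 12 * (5 * b + p : ℕ) = 6 + 12 * p + 60 * b by push_cast; ring,
    show (6 : ℤ) + 12 * (5 * b + p' : ℕ) = 6 + 12 * p' + 60 * b by push_cast; ring]
  exact this

/-- the columns above a port are free up to the row of its wire -/
theorem col_free (s : ℕ → ℕ) {i m : ℕ} (h : (∃ j, R.Wire i j ∧ m = i) ∨ R.Wire m i) (t y : ℤ)
    (h1 : 12 * ((i / 5 : ℕ) : ℤ) + 11 ≤ y) (h2 : y ≤ 12 * (R.N + m) - 1) (h3 : 12 * i + 5 ≤ t)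
    (h4 : t ≤ 12 * i + 7) : ¬ R.World s t y := by
  have hmi : m ≤ i := by
    rcases h with ⟨j, _, rfl⟩ | h
    · exact le_rfl
    · exact (R.wire_lt h).le
  rintro (⟨b', κ', hb', h' | h'⟩ | ⟨i', j', hw, h' | h'⟩)
  · have := stat_bd h'
    omega
  · have := dyn_bd h'
    omega
  · have := kCL_bd h'
    omega
  · have := kCR_bd h'
    have e : j' = i := by omega
    subst e
    rcases h with ⟨j, h, rfl⟩ | h
    · exact R.wire_m hw h
    · have := R.wire_l h hw
      omega

theorem tile_left (s : ℕ → ℕ) {i j : ℕ} (h : R.Wire i j) (t y : ℤ) (h1 : 0 ≤ t) (h2 : t ≤ 12)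
    (h3 : -1 ≤ y) (h4 : y ≤ 11) :
    R.World s (t + 12 * i) (y + 12 * (R.N + i)) ↔ (t, y) ∈ kCL := by
  have hij := R.wire_lt h
  constructor
  · rintro (⟨b', κ', hb', h' | h'⟩ | ⟨i', j', hw, h' | h'⟩)
    · have := stat_bd h'
      have := R.blk_lt hb'
      omega
    · have := dyn_bd h'
      have := R.blk_lt hb'
      omega
    · have := kCL_bd h'
      have e : i' = i := by omega
      subst e
      simpa using h'
    · have := kCR_bd h'
      have e : i' = i := by omega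
      subst e
      have := R.wire_r h hw
      omega
  · intro h'
    refine Or.inr ⟨i, j, h, Or.inl ?_⟩
    simpa using h'

theorem tile_right (s : ℕ → ℕ) {i j : ℕ} (h : R.Wire i j) (t y : ℤ) (h1 : 0 ≤ t) (h2 : t ≤ 12)
    (h3 : -1 ≤ y) (h4 : y ≤ 11) :
    R.World s (t + 12 * j) (y + 12 * (R.N + i)) ↔ (t, y) ∈ kCR := by
  have hij := R.wire_lt h
  constructor
  · rintro (⟨b', κ', hb', h' | h'⟩ | ⟨i', j', hw, h' | h'⟩)
    · have := stat_bd h'
      have := R.blk_lt hb'
      omega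
    · have := dyn_bd h'
      have := R.blk_lt hb'
      omega
    · have := kCL_bd h'
      have e : i' = i := by omega
      subst e
      omega
    · have := kCR_bd h'
      have e : i' = i := by omega
      subst e
      have := R.wire_r h hw
      subst this
      simpa using h'
  · intro h'
    refine Or.inr ⟨i, j, h, Or.inr ?_⟩
    simpa using h'

theorem middle (s : ℕ → ℕ) {i j : ℕ} (h : R.Wire i j) (t y : ℤ) (h1 : 12 * i + 12 ≤ t)
    (h2 : t ≤ 12 * j) (h3 : 2 ≤ y) (h4 : y ≤ 3) :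
    ¬ R.World s t (y + 12 * (R.N + i)) := by
  have hij := R.wire_lt h
  rintro (⟨b', κ', hb', h' | h'⟩ | ⟨i', j', hw, h' | h'⟩)
  · have := stat_bd h'
    have := R.blk_lt hb'
    omega
  · have := dyn_bd h'
    have := R.blk_lt hb'
    omega
  · have := kCL_bd h'
    have e : i' = i := by omega
    subst e
    omega
  · have := kCR_bd h'
    have e : i' = i := by omega
    subst e
    have := R.wire_r h hw
    omega

theorem wire_world_lr (s : ℕ → ℕ) {i j : ℕ} (h : R.Wire i j) :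
    Leads (Vt (R.World s) (6 + 12 * i) (11 + 12 * (i / 5 : ℕ)) 1)
      (Vt (R.World s) (6 + 12 * j) (11 + 12 * (j / 5 : ℕ)) 0) := by
  have hij := R.wire_lt h
  have hjN := R.wire_N h
  have s1 : Leads0 (Vt (R.World s) (6 + 12 * i) (11 + 12 * (i / 5 : ℕ)) (6 + 12 * i - 1))
      (Vt (R.World s) (6 + 12 * i) (-1 + 12 * (R.N + i)) (6 + 12 * i - 1)) := by
    refine Up_flight (by omega) ?_
    intro y hy hy'
    refine ⟨?_, ?_, ?_⟩ <;>
      exact col_free R s (m := i) (Or.inl ⟨j, h, rfl⟩) _ y (by omega) (by omega) (by omega)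
        (by omega)
  have s2 := CL_up (K := R.World s) (12 * i) (12 * (R.N + i))
    (fun t y h1 h2 h3 h4 => tile_left R s h t y h1 h2 h3 h4)
  have s3 : Leads0 (Hz (R.World s) (11 + 12 * i) (3 + 12 * (R.N + i)) (11 + 12 * i + 1))
      (Hz (R.World s) (-1 + 12 * j) (3 + 12 * (R.N + i)) (-1 + 12 * j + 1)) := by
    refine Rt_flight (by omega) ?_ ?_
    · intro t ht ht'
      rw [show (3 : ℤ) + 12 * (R.N + i) - 1 = 2 + 12 * (R.N + i) by ring]
      exact middle R s h t 2 (by omega) (by omega) (by norm_num) (by norm_num)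
    · intro t ht ht'
      exact middle R s h t 3 (by omega) (by omega) (by norm_num) (by norm_num)
  have s4 := CR_right (K := R.World s) (12 * j) (12 * (R.N + i))
    (fun t y h1 h2 h3 h4 => tile_right R s h t y h1 h2 h3 h4)
  have s5 : Leads0 (Vt (R.World s) (6 + 12 * j) (-1 + 12 * (R.N + i)) (6 + 12 * j))
      (Vt (R.World s) (6 + 12 * j) (11 + 12 * (j / 5 : ℕ)) (6 + 12 * j)) := by
    refine Dn_flight (by omega) ?_
    intro y hy hy'
    refine ⟨?_, ?_, ?_⟩ <;>
      exact col_free R s (m := i) (Or.inr h) _ y (by omega) (by omega) (by omega)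
        (by omega)
  rw [Vt_parity _ _ _ 1 (6 + 12 * i - 1) (by omega), Vt_parity _ _ _ 0 (6 + 12 * j) (by omega)]
  rw [Vt_parity _ _ _ (5 + 12 * (i : ℤ)) (6 + 12 * i - 1) (by omega)] at s2
  exact (((s1.trans1 s2).trans0 s3).trans s4).trans0 s5

theorem wire_world_rl (s : ℕ → ℕ) {i j : ℕ} (h : R.Wire i j) :
    Leads (Vt (R.World s) (6 + 12 * j) (11 + 12 * (j / 5 : ℕ)) 1)
      (Vt (R.World s) (6 + 12 * i) (11 + 12 * (i / 5 : ℕ)) 0) := by
  have hij := R.wire_lt h
  have hjN := R.wire_N h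
  have s1 : Leads0 (Vt (R.World s) (6 + 12 * j) (11 + 12 * (j / 5 : ℕ)) (6 + 12 * j - 1))
      (Vt (R.World s) (6 + 12 * j) (-1 + 12 * (R.N + i)) (6 + 12 * j - 1)) := by
    refine Up_flight (by omega) ?_
    intro y hy hy'
    refine ⟨?_, ?_, ?_⟩ <;>
      exact col_free R s (m := i) (Or.inr h) _ y (by omega) (by omega) (by omega)
        (by omega)
  have s2 := CR_up (K := R.World s) (12 * j) (12 * (R.N + i))
    (fun t y h1 h2 h3 h4 => tile_right R s h t y h1 h2 h3 h4)
  have s3 : Leads0 (Hz (R.World s) (-1 + 12 * j) (3 + 12 * (R.N + i)) (-1 + 12 * j))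
      (Hz (R.World s) (11 + 12 * i) (3 + 12 * (R.N + i)) (11 + 12 * i)) := by
    refine Lf_flight (by omega) ?_ ?_
    · intro t ht ht'
      rw [show (3 : ℤ) + 12 * (R.N + i) - 1 = 2 + 12 * (R.N + i) by ring]
      exact middle R s h t 2 (by omega) (by omega) (by norm_num) (by norm_num)
    · intro t ht ht'
      exact middle R s h t 3 (by omega) (by omega) (by norm_num) (by norm_num)
  have s4 := CL_left (K := R.World s) (12 * i) (12 * (R.N + i))
    (fun t y h1 h2 h3 h4 => tile_left R s h t y h1 h2 h3 h4)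
  have s5 : Leads0 (Vt (R.World s) (6 + 12 * i) (-1 + 12 * (R.N + i)) (6 + 12 * i))
      (Vt (R.World s) (6 + 12 * i) (11 + 12 * (i / 5 : ℕ)) (6 + 12 * i)) := by
    refine Dn_flight (by omega) ?_
    intro y hy hy'
    refine ⟨?_, ?_, ?_⟩ <;>
      exact col_free R s (m := i) (Or.inl ⟨j, h, rfl⟩) _ y (by omega) (by omega) (by omega)
        (by omega)
  rw [Vt_parity _ _ _ 1 (6 + 12 * j - 1) (by omega), Vt_parity _ _ _ 0 (6 + 12 * i) (by omega)]
  rw [Vt_parity _ _ _ (5 + 12 * (j : ℤ)) (6 + 12 * j - 1) (by omega)] at s2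
  exact (((s1.trans1 s2).trans0 s3).trans s4).trans0 s5

/-- the mover is about to enter the port in tile column `i` -/
noncomputable def Net.At (s : ℕ → ℕ) (i : ℕ) : Config :=
  Vt (R.World s) (6 + 12 * i) (11 + 12 * (i / 5 : ℕ)) 0

/-- one step of the network: traverse a block, then the wire at its exit -/
theorem net_step {s : ℕ → ℕ} {b : ℕ} {κ : Kind} (hb : R.Blk b κ) {p s' p' j : ℕ}
    (hp : p < 5) (hp' : p' < 5)
    (h : BT κ (s b) p s' p') (hj : R.Wire (5 * b + p') j ∨ R.Wire j (5 * b + p')) :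
    Leads (R.At s (5 * b + p)) (R.At (Function.update s b s') j) := by
  have h1 := block_world R hb h
  have e1 : (5 * b + p) / 5 = b := by omega
  have e2 : (5 * b + p') / 5 = b := by omega
  unfold Net.At
  rw [e1]
  refine h1.trans ?_
  rcases hj with hj | hj
  · have := wire_world_lr R (Function.update s b s') hj
    rw [e2] at this
    exact this
  · have := wire_world_rl R (Function.update s b s') hj
    rw [e2] at this
    exact this

end Pool.Agent.SPCA81
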