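import Pool.Agent.Lib.MP_abc193_lc.Compile

namespace Pool.Agent.SPCA81

open Pool.Agent.AttrHIF (eqB)

set_option linter.unusedSimpArgs false

/-! ## The network of a counter machine -/

def code (B : Blk) : ℕ := Nat.pair B.1 (Nat.pair B.2.1 B.2.2)
def dcode (b : ℕ) : Blk := ((Nat.unpair b).1, Nat.unpair (Nat.unpair b).2)

theorem dcode_code (B : Blk) : dcode (code B) = B := by
  simp [dcode, code]

theorem code_dcode (b : ℕ) : code (dcode b) = b := by
  simp [dcode, code]

theorem code_inj {B B' : Blk} (h : code B = code B') : B = B' := by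
  rw [← dcode_code B, h, dcode_code]

def kindB (B : Blk) : Kind := if B.1 = 1 then .L else .X

def idx (P : Port) : ℕ := 5 * code P.1 + P.2

theorem idx_inj {P Q : Port} (hP : P.2 < 5) (hQ : Q.2 < 5) (h : idx P = idx Q) : P = Q := by
  unfold idx at h
  have h1 : code P.1 = code Q.1 := by omega
  have h2 : P.2 = Q.2 := by omega
  exact Prod.ext (code_inj h1) h2

def nN (M : Machine) : ℕ := ((blocks M).map code).sum + 1

theorem code_lt {M : Machine} {B : Blk} (h : B ∈ blocks M) : code B < nN M := by
  have : code B ≤ ((blocks M).map code).sum := List.single_le_sum (by simp) _ (List.mem_map_of_mem h)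
  unfold nN
  omega

def theNet (M : Machine) : Net where
  N := nN M
  Blk b κ := ∃ B ∈ blocks M, code B = b ∧ kindB B = κ
  Wire i j := i < j ∧ ∃ P Q, PV M P ∧ PV M Q ∧ partner M P = Q ∧ idx P = i ∧ idx Q = j
  blk_lt := by
    rintro b κ ⟨B, hB, rfl, _⟩
    exact code_lt hB
  blk_uniq := by
    rintro b κ κ' ⟨B, hB, rfl, rfl⟩ ⟨B', hB', h, rfl⟩
    rw [code_inj h]
  wire_lt := fun h => h.1
  wire_N := by
    rintro i j ⟨_, P, Q, _, hQ, _, _, rfl⟩
    have h1 := code_lt hQ.1
    have h2 := hQ.2
    unfold idx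
    omega
  wire_r := by
    rintro i j j' ⟨_, P, Q, hP, hQ, h, rfl, rfl⟩ ⟨_, P', Q', hP', hQ', h', e, rfl⟩
    have := idx_inj hP'.2 hP.2 e
    subst this
    rw [← h, ← h']
  wire_l := by
    rintro i i' j ⟨_, P, Q, hP, hQ, h, rfl, rfl⟩ ⟨_, P', Q', hP', hQ', h', rfl, e⟩
    have := idx_inj hQ'.2 hQ.2 e
    subst this
    have h1 := (partner_spec M P hP).2
    have h2 := (partner_spec M P' hP').2
    rw [h] at h1
    rw [h'] at h2
    rw [← h1, ← h2]
  wire_m := by
    rintro i j k ⟨hij, P, Q, hP, hQ, h, rfl, rfl⟩ ⟨hjk, P', Q', hP', hQ', h', e, rfl⟩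
    have := idx_inj hP'.2 hQ.2 e
    subst this
    have h1 := (partner_spec M P hP).2
    rw [h, h'] at h1
    subst h1
    omega

/-- the mover is about to enter the port `P`, the states of the blocks are `st` -/
noncomputable def C (M : Machine) (st : Blk → ℕ) (P : Port) : Config :=
  (theNet M).At (fun b => st (dcode b)) (idx P)

theorem step_lemma {M : Machine} {st : Blk → ℕ} {B : Blk} {p s' p' : ℕ} (hB : B ∈ blocks M)
    (h : BT (kindB B) (st B) p s' p') (hp : p < 5) (hp' : p' < 5) {Q : Port}
    (hQ : partner M (B, p') = Q) (hne : Q ≠ (B, p')) :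
    Leads (C M st (B, p)) (C M (Function.update st B s') Q) := by
  have hb : (theNet M).Blk (code B) (kindB B) := ⟨B, hB, rfl, rfl⟩
  have hPV : PV M (B, p') := ⟨hB, hp'⟩
  have hsp := partner_spec M _ hPV
  rw [hQ] at hsp
  have hst : (fun b => Function.update st B s' (dcode b)) =
      Function.update (fun b => st (dcode b)) (code B) s' := by
    funext b
    by_cases e : b = code B
    · subst e
      rw [dcode_code, Function.update_self, Function.update_self]
    · rw [Function.update_of_ne e, Function.update_of_ne]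
      intro h
      apply e
      rw [← h, code_dcode]
  have h1 : BT (kindB B) ((fun b => st (dcode b)) (code B)) p s' p' := by
    simp only [dcode_code]
    exact h
  unfold C
  rw [hst]
  refine net_step (theNet M) hb hp hp' h1 ?_
  have hidx : idx Q ≠ idx (B, p') := fun e => hne (idx_inj hsp.1.2 hp' e)
  rcases Nat.lt_or_gt_of_ne hidx with h2 | h2
  · right
    exact ⟨h2, Q, (B, p'), hsp.1, hPV, hsp.2, rfl, rfl⟩
  · left
    exact ⟨h2, (B, p'), Q, hPV, hsp.1, hQ, rfl, rfl⟩

/-! ### loops -/

def site (l m : ℕ) : Blk := (2, m / 2, 2 * l + m % 2)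

def lp (M : Machine) (l m : ℕ) : Port := if m < 2 * nE M then (site l m, 0) else ((1, l, 0), 1)
def lq (l m : ℕ) : Port := if m = 0 then ((1, l, 0), 0) else (site l (m - 1), 1)

theorem site_mem {M : Machine} {l m : ℕ} (hl : l < nL M) (hm : m < 2 * nE M) :
    site l m ∈ blocks M := by
  rw [mem_blocks]
  refine Or.inr (Or.inr ⟨rfl, ?_, ?_⟩)
  · show m / 2 < nE M
    omega
  · show 2 * l + m % 2 < 2 * nL M
    omega

theorem site_inj {l m m' : ℕ} (h : site l m = site l m') : m = m' := by
  simp only [site, Prod.mk.injEq] at h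
  omega

theorem lp_next {M : Machine} {l m : ℕ} (hm : m < 2 * nE M) :
    partner M (site l m, 1) = lp M l (m + 1) := by
  rcases Nat.mod_two_eq_zero_or_one m with h | h
  · have e : site l m = (2, m / 2, 2 * l) := by simp [site, h]
    rw [e, pa_S1e]
    have h1 : m + 1 < 2 * nE M := by omega
    unfold lp
    rw [if_pos h1]
    have h2 : (m + 1) / 2 = m / 2 := by omega
    have h3 : (m + 1) % 2 = 1 := by omega
    simp [site, h2, h3]
  · have e : site l m = (2, m / 2, 2 * l + 1) := by simp [site, h]
    rw [e, pa_S1o]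
    unfold lp
    split_ifs with h1 h2 h2
    · omega
    · rfl
    · have h3 : (m + 1) / 2 = m / 2 + 1 := by omega
      have h4 : (m + 1) % 2 = 0 := by omega
      simp [site, h3, h4]
    · omega

theorem lq_prev {M : Machine} {l m : ℕ} : partner M (site l m, 0) = lq l m := by
  rcases Nat.mod_two_eq_zero_or_one m with h | h
  · have e : site l m = (2, m / 2, 2 * l) := by simp [site, h]
    rw [e, pa_S0e]
    unfold lq
    split_ifs with h1 h2 h2
    · rfl
    · omega
    · omega
    · have h3 : (m - 1) / 2 = m / 2 - 1 := by omega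
      have h4 : (m - 1) % 2 = 1 := by omega
      simp [site, h3, h4]
  · have e : site l m = (2, m / 2, 2 * l + 1) := by simp [site, h]
    rw [e, pa_S0o]
    unfold lq
    rw [if_neg (by omega)]
    have h3 : (m - 1) / 2 = m / 2 := by omega
    have h4 : (m - 1) % 2 = 0 := by omega
    simp [site, h3, h4]

theorem lane_out0 {M : Machine} {l : ℕ} (h : 0 < nE M) :
    partner M ((1, l, 0), 0) = lp M l 0 := by
  rw [pa_L0, if_neg (by omega)]
  unfold lp
  rw [if_pos (by omega)]
  simp [site]

theorem lane_out1 {M : Machine} {l : ℕ} (h : 0 < nE M) :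
    partner M ((1, l, 0), 1) = lq l (2 * nE M) := by
  rw [pa_L1, if_neg (by omega)]
  unfold lq
  rw [if_neg (by omega)]
  have h3 : (2 * nE M - 1) / 2 = nE M - 1 := by omega
  have h4 : (2 * nE M - 1) % 2 = 1 := by omega
  simp [site, h3, h4]

theorem kind_site (l m : ℕ) : kindB (site l m) = .X := rfl
theorem kind_lane (l : ℕ) : kindB (1, l, 0) = .L := rfl
theorem kind_D (q : ℕ) : kindB (0, q, 0) = .X := rfl

theorem lp_ne {M : Machine} {l m m' : ℕ} (_ : m < m') : lp M l m' ≠ (site l m, 1) := by
  unfold lp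
  split_ifs with h
  · intro h2
    have := congrArg Prod.snd h2
    simp at this
  · intro h2
    have := congrArg (fun x => x.1.1) h2
    simp [site] at this

theorem lq_ne {l m : ℕ} : lq l m ≠ (site l m, 0) := by
  unfold lq
  split_ifs with h
  · intro h2
    have := congrArg (fun x => x.1.1) h2
    simp [site] at this
  · intro h2
    have := congrArg Prod.snd h2
    simp at this

theorem pass_up {M : Machine} {st : Blk → ℕ} {l : ℕ} (hl : l < nL M) {m m' : ℕ} (hm : m ≤ m')
    (hm' : m' ≤ 2 * nE M) (h : ∀ i, m ≤ i → i < m' → st (site l i) = 0) :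
    Leads0 (C M st (lp M l m)) (C M st (lp M l m')) := by
  induction m', hm using Nat.le_induction with
  | base => exact Leads0.refl _
  | succ m' hm ih =>
    refine (ih (by omega) (fun i h1 h2 => h i h1 (by omega))).trans ?_
    have h0 := h m' hm (by omega)
    have hlp : lp M l m' = (site l m', 0) := by
      unfold lp
      rw [if_pos (by omega)]
    rw [hlp]
    have hBT : BT (kindB (site l m')) (st (site l m')) 0 0 1 := by
      rw [h0, kind_site]
      exact BT.x01
    have := step_lemma (site_mem hl (by omega)) hBT (by norm_num) (by norm_num)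
      (lp_next (by omega)) (lp_ne (by omega))
    have e : Function.update st (site l m') 0 = st := by
      conv_rhs => rw [← Function.update_eq_self (site l m') st]
      rw [h0]
    rw [e] at this
    exact this.to0

theorem pass_dn {M : Machine} {st : Blk → ℕ} {l : ℕ} (hl : l < nL M) {m m' : ℕ} (hm : m ≤ m')
    (hm' : m' ≤ 2 * nE M) (h : ∀ i, m ≤ i → i < m' → st (site l i) = 0) :
    Leads0 (C M st (lq l m')) (C M st (lq l m)) := by
  induction m', hm using Nat.le_induction with
  | base => exact Leads0.refl _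
  | succ m' hm ih =>
    refine Leads0.trans ?_ (ih (by omega) (fun i h1 h2 => h i h1 (by omega)))
    have h0 := h m' hm (by omega)
    have hlq : lq l (m' + 1) = (site l m', 1) := by
      unfold lq
      rw [if_neg (by omega)]
      simp
    rw [hlq]
    have hBT : BT (kindB (site l m')) (st (site l m')) 1 0 0 := by
      rw [h0, kind_site]
      exact BT.x10
    have := step_lemma (site_mem hl (by omega)) hBT (by norm_num) (by norm_num)
      (lq_prev (M := M)) lq_ne
    have e : Function.update st (site l m') 0 = st := by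
      conv_rhs => rw [← Function.update_eq_self (site l m') st]
      rw [h0]
    rw [e] at this
    exact this.to0

theorem lane_mem {M : Machine} {l : ℕ} (hl : l < nL M) : (1, l, 0) ∈ blocks M := by
  rw [mem_blocks]
  exact Or.inr (Or.inl ⟨rfl, hl, rfl⟩)

theorem site_ne_lane (l m l' : ℕ) : site l m ≠ (1, l', 0) := by
  intro h
  have := congrArg Prod.fst h
  simp [site] at this

theorem inc_op {M : Machine} {st : Blk → ℕ} {l m : ℕ} (hl : l < nL M) (hm : m < 2 * nE M)
    (h : ∀ i < 2 * nE M, st (site l i) = 0) {Q : Port} (hQ : partner M (site l m, 3) = Q)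
    (hne : Q ≠ (site l m, 3)) :
    Leads (C M st (site l m, 2)) (C M (Function.update st (1, l, 0) (st (1, l, 0) + 1)) Q) := by
  have hE : 0 < nE M := by omega
  -- enter
  have s1 : Leads (C M st (site l m, 2)) (C M (Function.update st (site l m) 1) (lp M l (m + 1))) := by
    have hBT : BT (kindB (site l m)) (st (site l m)) 2 1 1 := by
      rw [h m hm, kind_site]
      exact BT.x2
    exact step_lemma (site_mem hl hm) hBT (by norm_num) (by norm_num) (lp_next hm)
      (lp_ne (by omega))
  set st1 := Function.update st (site l m) 1 with hst1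
  have z1 : ∀ i < 2 * nE M, i ≠ m → st1 (site l i) = 0 := by
    intro i hi hne
    rw [hst1, Function.update_of_ne (fun e => hne (site_inj e)), h i hi]
  have s2 : Leads0 (C M st1 (lp M l (m + 1))) (C M st1 (lp M l (2 * nE M))) :=
    pass_up hl (by omega) le_rfl (fun i h1 h2 => z1 i h2 (by omega))
  have e2 : lp M l (2 * nE M) = ((1, l, 0), 1) := by
    unfold lp
    rw [if_neg (by omega)]
  rw [e2] at s2
  have hl1 : st1 (1, l, 0) = st (1, l, 0) := by
    rw [hst1, Function.update_of_ne (site_ne_lane l m l).symm]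
  have s3 : Leads (C M st1 ((1, l, 0), 1))
      (C M (Function.update st1 (1, l, 0) (st (1, l, 0) + 1)) (lp M l 0)) := by
    have hBT : BT (kindB (1, l, 0)) (st1 (1, l, 0)) 1 (st (1, l, 0) + 1) 0 := by
      rw [hl1, kind_lane]
      exact BT.inc _
    refine step_lemma (lane_mem hl) hBT (by norm_num) (by norm_num) (lane_out0 hE) ?_
    unfold lp
    rw [if_pos (by omega)]
    intro h2
    exact site_ne_lane _ _ _ (congrArg Prod.fst h2)
  set st2 := Function.update st1 (1, l, 0) (st (1, l, 0) + 1) with hst2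
  have z2 : ∀ i, st2 (site l i) = st1 (site l i) := by
    intro i
    rw [hst2, Function.update_of_ne (site_ne_lane _ _ _)]
  have s4 : Leads0 (C M st2 (lp M l 0)) (C M st2 (lp M l m)) :=
    pass_up hl (by omega) (by omega) (fun i h1 h2 => by rw [z2]; exact z1 i (by omega) (by omega))
  have e4 : lp M l m = (site l m, 0) := by
    unfold lp
    rw [if_pos (by omega)]
  rw [e4] at s4
  have s5 : Leads (C M st2 (site l m, 0)) (C M (Function.update st2 (site l m) 0) Q) := by
    have hBT : BT (kindB (site l m)) (st2 (site l m)) 0 0 3 := by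
      rw [z2, hst1, Function.update_self, kind_site]
      exact BT.y0
    exact step_lemma (site_mem hl hm) hBT (by norm_num) (by norm_num) hQ hne
  have e5 : Function.update st2 (site l m) 0 = Function.update st (1, l, 0) (st (1, l, 0) + 1) := by
    funext B
    by_cases hB : B = site l m
    · subst hB
      rw [Function.update_self, Function.update_of_ne (site_ne_lane _ _ _), h m hm]
    · rw [Function.update_of_ne hB, hst2]
      by_cases hB' : B = (1, l, 0)
      · subst hB'
        rw [Function.update_self, Function.update_self]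
      · rw [Function.update_of_ne hB', Function.update_of_ne hB', hst1,
          Function.update_of_ne hB]
  rw [e5] at s5
  exact (((s1.trans0 s2).trans s3).trans0 s4).trans s5

theorem dec_op {M : Machine} {st : Blk → ℕ} {l m d : ℕ} (hl : l < nL M) (hm : m < 2 * nE M)
    (h : ∀ i < 2 * nE M, st (site l i) = 0) (hd : st (1, l, 0) = d + 1) {Q : Port}
    (hQ : partner M (site l m, 2) = Q) (hne : Q ≠ (site l m, 2)) :
    Leads (C M st (site l m, 3)) (C M (Function.update st (1, l, 0) d) Q) := by
  have hE : 0 < nE M := by omega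
  -- enter
  have s1 : Leads (C M st (site l m, 3)) (C M (Function.update st (site l m) 1) (lq l m)) := by
    have hBT : BT (kindB (site l m)) (st (site l m)) 3 1 0 := by
      rw [h m hm, kind_site]
      exact BT.x3
    exact step_lemma (site_mem hl hm) hBT (by norm_num) (by norm_num) lq_prev lq_ne
  set st1 := Function.update st (site l m) 1 with hst1
  have z1 : ∀ i < 2 * nE M, i ≠ m → st1 (site l i) = 0 := by
    intro i hi hne
    rw [hst1, Function.update_of_ne (fun e => hne (site_inj e)), h i hi]
  have s2 : Leads0 (C M st1 (lq l m)) (C M st1 (lq l 0)) :=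
    pass_dn hl (by omega) (by omega) (fun i h1 h2 => z1 i (by omega) (by omega))
  have e2 : lq l 0 = ((1, l, 0), 0) := by
    unfold lq
    rw [if_pos rfl]
  rw [e2] at s2
  have hl1 : st1 (1, l, 0) = d + 1 := by
    rw [hst1, Function.update_of_ne (site_ne_lane l m l).symm, hd]
  have s3 : Leads (C M st1 ((1, l, 0), 0))
      (C M (Function.update st1 (1, l, 0) d) (lq l (2 * nE M))) := by
    have hBT : BT (kindB (1, l, 0)) (st1 (1, l, 0)) 0 d 1 := by
      rw [hl1, kind_lane]
      exact BT.dec _
    refine step_lemma (lane_mem hl) hBT (by norm_num) (by norm_num) (lane_out1 hE) ?_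
    unfold lq
    rw [if_neg (by omega)]
    intro h2
    exact site_ne_lane _ _ _ (congrArg Prod.fst h2)
  set st2 := Function.update st1 (1, l, 0) d with hst2
  have z2 : ∀ i, st2 (site l i) = st1 (site l i) := by
    intro i
    rw [hst2, Function.update_of_ne (site_ne_lane _ _ _)]
  have s4 : Leads0 (C M st2 (lq l (2 * nE M))) (C M st2 (lq l (m + 1))) :=
    pass_dn hl (by omega) le_rfl (fun i h1 h2 => by rw [z2]; exact z1 i (by omega) (by omega))
  have e4 : lq l (m + 1) = (site l m, 1) := by
    unfold lq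
    rw [if_neg (by omega)]
    simp
  rw [e4] at s4
  have s5 : Leads (C M st2 (site l m, 1)) (C M (Function.update st2 (site l m) 0) Q) := by
    have hBT : BT (kindB (site l m)) (st2 (site l m)) 1 0 2 := by
      rw [z2, hst1, Function.update_self, kind_site]
      exact BT.y1
    exact step_lemma (site_mem hl hm) hBT (by norm_num) (by norm_num) hQ hne
  have e5 : Function.update st2 (site l m) 0 = Function.update st (1, l, 0) d := by
    funext B
    by_cases hB : B = site l m
    · subst hB
      rw [Function.update_self, Function.update_of_ne (site_ne_lane _ _ _), h m hm]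
    · rw [Function.update_of_ne hB, hst2]
      by_cases hB' : B = (1, l, 0)
      · subst hB'
        rw [Function.update_self, Function.update_self]
      · rw [Function.update_of_ne hB', Function.update_of_ne hB', hst1,
          Function.update_of_ne hB]
  rw [e5] at s5
  exact (((s1.trans0 s2).trans s3).trans0 s4).trans s5

/-! ### chains -/

/-- where the mover goes when it is about to enter the `j`-th site of the chain of `e` -/
def nx (M : Machine) (e j : ℕ) : Port :=
  if j < 2 * nL M then ((2, e, j), pin M e j) else fin M e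

theorem nx_succ {M : Machine} {e j : ℕ} (hj : j < 2 * nL M) :
    partner M ((2, e, j), pout M e j) = nx M e (j + 1) := by
  rw [pa_Sout]
  unfold nx
  split_ifs with h1 h2 h2
  · omega
  · rfl
  · rfl
  · omega

/-- one site of a chain -/
theorem site_op {M : Machine} {st : Blk → ℕ} {e j : ℕ} (he : e < nE M) (hj : j < 2 * nL M)
    (h : ∀ e' j', st (2, e', j') = 0)
    (hne : nx M e (j + 1) ≠ ((2, e, j), pout M e j)) (d' : ℕ)
    (hd : (dirI M e j = true ∧ d' = st (1, j / 2, 0) + 1) ∨
      (dirI M e j = false ∧ st (1, j / 2, 0) = d' + 1)) :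
    Leads (C M st (nx M e j)) (C M (Function.update st (1, j / 2, 0) d') (nx M e (j + 1))) := by
  have hs : ((2, e, j) : Blk) = site (j / 2) (2 * e + j % 2) := by
    simp only [site, Prod.mk.injEq, true_and]
    omega
  have hnx : nx M e j = ((2, e, j), pin M e j) := by
    unfold nx
    rw [if_pos hj]
  have hQ := nx_succ (M := M) (e := e) hj
  rw [hnx]
  rcases hd with ⟨hdir, rfl⟩ | ⟨hdir, hd⟩
  · have h1 : pin M e j = 2 := by unfold pin; rw [hdir]; rfl
    have h2 : pout M e j = 3 := by unfold pout; rw [hdir]; rfl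
    rw [h2, hs] at hQ hne
    rw [h1, hs]
    exact inc_op (by omega) (by omega) (fun i _ => h _ _) hQ hne
  · have h1 : pin M e j = 3 := by unfold pin; rw [hdir]; rfl
    have h2 : pout M e j = 2 := by unfold pout; rw [hdir]; rfl
    rw [h2, hs] at hQ hne
    rw [h1, hs]
    exact dec_op (by omega) (by omega) (fun i _ => h _ _) hd hQ hne

/-- effect of a rule on the counters -/
def Eff (M : Machine) (e : ℕ) (n n' : ℕ → ℕ) : Prop :=
  ((op M e = 0 ∨ op M e = 1 ∨ op M e = 3) ∧ n' = n) ∨
  (op M e = 2 ∧ 0 < n (ctr M e) ∧ n' = Function.update n (ctr M e) (n (ctr M e) - 1)) ∨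
  (op M e = 4 ∧ n' = Function.update n (ctr M e) (n (ctr M e) + 1))

/-- states of the blocks while the lanes `< l` have been updated -/
def stl (M : Machine) (n n' : ℕ → ℕ) (l : ℕ) : Blk → ℕ := fun B =>
  if B.1 = 1 then (if B.2.1 < l then 2 * n' (lc M B.2.1) else 2 * n (lc M B.2.1)) else 0

theorem stl_succ {M : Machine} {n n' : ℕ → ℕ} {l : ℕ} {B : Blk} (hB : B.2.2 = 0) :
    stl M n n' (l + 1) B = Function.update (stl M n n' l) (1, l, 0) (2 * n' (lc M l)) B := by
  obtain ⟨a, b, c⟩ := B
  simp only at hB
  subst hB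
  by_cases h : ((a, b, 0) : Blk) = (1, l, 0)
  · rw [h, Function.update_self]
    simp [stl]
  · rw [Function.update_of_ne h]
    simp only [Prod.mk.injEq, and_true] at h
    unfold stl
    by_cases ha : a = 1
    · have hb : b ≠ l := fun e => h ⟨ha, e⟩
      simp only [ha, if_true]
      by_cases h1 : b < l
      · rw [if_pos h1, if_pos (by omega)]
      · rw [if_neg h1, if_neg (by omega)]
    · simp [ha]

theorem World_congr (R : Net) {s s' : ℕ → ℕ} (h : ∀ b κ, R.Blk b κ → s b = s' b) :
    R.World s = R.World s' := by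
  funext t y
  apply propext
  constructor
  · rintro (⟨b', κ', hb', h' | h'⟩ | h')
    · exact Or.inl ⟨b', κ', hb', Or.inl h'⟩
    · rw [h _ _ hb'] at h'
      exact Or.inl ⟨b', κ', hb', Or.inr h'⟩
    · exact Or.inr h'
  · rintro (⟨b', κ', hb', h' | h'⟩ | h')
    · exact Or.inl ⟨b', κ', hb', Or.inl h'⟩
    · rw [← h _ _ hb'] at h'
      exact Or.inl ⟨b', κ', hb', Or.inr h'⟩
    · exact Or.inr h'

theorem C_congr {M : Machine} {st st' : Blk → ℕ} (h : ∀ B ∈ blocks M, st B = st' B) (P : Port) :
    C M st P = C M st' P := by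
  unfold C Net.At
  rw [World_congr (theNet M) (s' := fun b => st' (dcode b))]
  rintro b κ ⟨B, hB, rfl, _⟩
  simp only [dcode_code]
  exact h B hB

theorem nx_ne {M : Machine} {e j : ℕ} (_ : e < nE M) (hj : j < 2 * nL M)
    (hfin : fin M e ≠ ((2, e, 2 * nL M - 1), pout M e (2 * nL M - 1))) :
    nx M e (j + 1) ≠ ((2, e, j), pout M e j) := by
  unfold nx
  split_ifs with h
  · intro h2
    have := congrArg (fun x => x.1.2.2) h2
    simp at this
  · have : j = 2 * nL M - 1 := by omega
    rw [this]
    exact hfin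

theorem chain_lane {M : Machine} {n n' : ℕ → ℕ} {e l : ℕ} (he : e < nE M) (hl : l < nL M)
    (hfin : fin M e ≠ ((2, e, 2 * nL M - 1), pout M e (2 * nL M - 1))) (hE : Eff M e n n') :
    Leads (C M (stl M n n' l) (nx M e (2 * l)))
      (C M (stl M n n' (l + 1)) (nx M e (2 * (l + 1)))) := by
  have hS : ∀ e' j', stl M n n' l (2, e', j') = 0 := fun e' j' => by simp [stl]
  have hL : stl M n n' l (1, l, 0) = 2 * n (lc M l) := by simp [stl]
  have hne1 := nx_ne (j := 2 * l) he (by omega) hfin
  have hne2 := nx_ne (j := 2 * l + 1) he (by omega) hfin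
  have d1 : 2 * l / 2 = l := by omega
  have d2 : (2 * l + 1) / 2 = l := by omega
  have m1 : 2 * l % 2 = 0 := by omega
  have m2 : (2 * l + 1) % 2 = 1 := by omega
  have hfinal : C M (stl M n n' (l + 1)) (nx M e (2 * (l + 1))) =
      C M (Function.update (stl M n n' l) (1, l, 0) (2 * n' (lc M l))) (nx M e (2 * (l + 1))) := by
    apply C_congr
    intro B hB
    rw [mem_blocks] at hB
    rcases hB with ⟨_, _, h⟩ | ⟨_, _, h⟩ | ⟨h1, _, _⟩
    · exact stl_succ h
    · exact stl_succ h
    · have : B ≠ (1, l, 0) := by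
        intro h
        rw [h] at h1
        simp at h1
      rw [Function.update_of_ne this]
      simp [stl, h1]
  rw [hfinal]
  -- two unit operations
  have two : ∀ d₁ d₂ : ℕ,
      ((dirI M e (2 * l) = true ∧ d₁ = 2 * n (lc M l) + 1) ∨
        (dirI M e (2 * l) = false ∧ 2 * n (lc M l) = d₁ + 1)) →
      ((dirI M e (2 * l + 1) = true ∧ d₂ = d₁ + 1) ∨
        (dirI M e (2 * l + 1) = false ∧ d₁ = d₂ + 1)) →
      Leads (C M (stl M n n' l) (nx M e (2 * l)))
        (C M (Function.update (stl M n n' l) (1, l, 0) d₂) (nx M e (2 * (l + 1)))) := by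
    intro d₁ d₂ h1 h2
    have s1 := site_op (M := M) (st := stl M n n' l) (e := e) (j := 2 * l) he (by omega) hS hne1 d₁
      (by rw [d1, hL]; exact h1)
    rw [d1] at s1
    have s2 := site_op (M := M) (st := Function.update (stl M n n' l) (1, l, 0) d₁) (e := e)
      (j := 2 * l + 1) he (by omega)
      (fun e' j' => by
        rw [Function.update_of_ne]
        · exact hS e' j'
        · intro h
          simp at h) hne2 d₂
      (by rw [d2, Function.update_self]; exact h2)
    rw [d2, Function.update_idem] at s2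
    exact s1.trans s2
  -- the two directions
  have hd : ∀ j, dirI M e j = if lc M (j / 2) = ctr M e ∧ op M e = 4 then true
      else if lc M (j / 2) = ctr M e ∧ op M e = 2 then false else decide (j % 2 = 0) := by
    intro j
    unfold dirI
    simp only [cond_if, Bool.and_eq_true, Pool.Agent.AttrHIF.eqB_iff]
    rfl
  have h1 := hd (2 * l)
  have h2 := hd (2 * l + 1)
  rw [d1, m1] at h1
  rw [d2, m2] at h2
  by_cases c4 : lc M l = ctr M e ∧ op M e = 4
  · rw [if_pos c4] at h1 h2
    refine two (2 * n (lc M l) + 1) _ (Or.inl ⟨h1, rfl⟩) (Or.inl ⟨h2, ?_⟩)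
    rcases hE with ⟨h, _⟩ | ⟨h, _⟩ | ⟨_, rfl⟩
    · rw [c4.2] at h
      rcases h with h | h | h <;> exact absurd h (by decide)
    · rw [c4.2] at h
      exact absurd h (by decide)
    · rw [c4.1, Function.update_self]
      omega
  · rw [if_neg c4] at h1 h2
    by_cases c2 : lc M l = ctr M e ∧ op M e = 2
    · rw [if_pos c2] at h1 h2
      rcases hE with ⟨h, _⟩ | ⟨_, hpos, rfl⟩ | ⟨h, _⟩
      · rw [c2.2] at h
        rcases h with h | h | h <;> exact absurd h (by decide)
      · have hpos' : 0 < n (lc M l) := by rw [c2.1]; exact hpos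
        refine two (2 * n (lc M l) - 1) _ (Or.inr ⟨h1, by omega⟩) (Or.inr ⟨h2, ?_⟩)
        rw [c2.1, Function.update_self]
        omega
      · rw [c2.2] at h
        exact absurd h (by decide)
    · rw [if_neg c2] at h1 h2
      refine two (2 * n (lc M l) + 1) _ (Or.inl ⟨by simpa using h1, rfl⟩)
        (Or.inr ⟨by simpa using h2, ?_⟩)
      rcases hE with ⟨_, rfl⟩ | ⟨h, _, rfl⟩ | ⟨h, rfl⟩
      · rfl
      · rw [Function.update_of_ne (fun e' => c2 ⟨e', h⟩)]
      · rw [Function.update_of_ne (fun e' => c4 ⟨e', h⟩)]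

theorem chain {M : Machine} {n n' : ℕ → ℕ} {e : ℕ} (he : e < nE M)
    (hfin : fin M e ≠ ((2, e, 2 * nL M - 1), pout M e (2 * nL M - 1))) (hE : Eff M e n n') :
    Leads0 (C M (stl M n n' 0) (nx M e 0)) (C M (stl M n n' (nL M)) (fin M e)) := by
  have : ∀ l ≤ nL M, Leads0 (C M (stl M n n' 0) (nx M e 0))
      (C M (stl M n n' l) (nx M e (2 * l))) := by
    intro l hl
    induction l with
    | zero => exact Leads0.refl _
    | succ l ih => exact (ih (by omega)).trans (chain_lane he (by omega) hfin hE).to0
  have h := this (nL M) le_rfl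
  have e1 : nx M e (2 * nL M) = fin M e := by
    unfold nx
    rw [if_neg (by omega)]
  rwa [e1] at h

/-- rest state of the blocks -/
def st0 (M : Machine) (n : ℕ → ℕ) : Blk → ℕ := fun B =>
  if B.1 = 1 then 2 * n (lc M B.2.1) else 0

theorem stl_zero (M : Machine) (n n' : ℕ → ℕ) : stl M n n' 0 = st0 M n := by
  funext B
  simp [stl, st0]

theorem C_stl_last (M : Machine) (n n' : ℕ → ℕ) (P : Port) :
    C M (stl M n n' (nL M)) P = C M (st0 M n') P := by
  apply C_congr
  intro B hB
  rw [mem_blocks] at hB
  rcases hB with ⟨h, _⟩ | ⟨h, h2, _⟩ | ⟨h, _⟩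
  · simp [stl, st0, h]
  · simp [stl, st0, h, h2]
  · simp [stl, st0, h]

/-- the junction conditions -/
def SC (M : Machine) (q e : ℕ) (n : ℕ → ℕ) : Prop :=
  (kO M q = 1 ∧ eO M q = e) ∨ (kO M q = 2 ∧ oZ M q = e ∧ n (lc M (2 * q + 1)) = 0) ∨
    (kO M q = 2 ∧ oN M q = e ∧ 0 < n (lc M (2 * q + 1)))

def FC (M : Machine) (q e : ℕ) (n : ℕ → ℕ) : Prop :=
  (kI M q = 1 ∧ eI M q = e) ∨ (kI M q = 2 ∧ iZ M q = e ∧ n (lc M (2 * q)) = 0) ∨
    (kI M q = 2 ∧ iN M q = e ∧ 0 < n (lc M (2 * q)))

theorem upd_self {st : Blk → ℕ} {B : Blk} {v : ℕ} (h : st B = v) : Function.update st B v = st := by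
  rw [← h, Function.update_eq_self]

theorem start_ok {M : Machine} {q e : ℕ} {n : ℕ → ℕ} (hq : q < M.2.1) (h : SC M q e n) :
    Leads (C M (st0 M n) ((0, q, 0), 0)) (C M (st0 M n) (nx M e 0)) := by
  have hD : ((0, q, 0) : Blk) ∈ blocks M := by
    rw [mem_blocks]
    exact Or.inl ⟨rfl, hq, rfl⟩
  have hlt : 2 * q + 1 < nL M := by unfold nL; omega
  have hnx : nx M e 0 = ((2, e, 0), pin M e 0) := by
    unfold nx
    rw [if_pos (by omega)]
  have hst : st0 M n (0, q, 0) = 0 := by simp [st0]
  have hBT : BT (kindB (0, q, 0)) (st0 M n (0, q, 0)) 0 0 1 := by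
    rw [hst, kind_D]
    exact BT.x01
  rcases h with ⟨h1, h2⟩ | h
  · have hpa := pa_D1 M q
    rw [if_pos h1, h2, ← hnx] at hpa
    have := step_lemma hD hBT (by norm_num) (by norm_num) hpa (by
      rw [hnx]
      intro h
      have := congrArg (fun x => x.1.1) h
      simp at this)
    rwa [upd_self hst] at this
  · have h1 : kO M q = 2 := by rcases h with h | h <;> exact h.1
    have hpa := pa_D1 M q
    rw [if_neg (by omega), if_pos h1] at hpa
    have s1 := step_lemma hD hBT (by norm_num) (by norm_num) hpa (by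
      intro h
      have := congrArg (fun x => x.1.1) h
      simp at this)
    rw [upd_self hst] at s1
    refine s1.trans ?_
    have hlm := lane_mem hlt
    have hsl : st0 M n (1, 2 * q + 1, 0) = 2 * n (lc M (2 * q + 1)) := by simp [st0]
    rcases h with ⟨_, h2, h3⟩ | ⟨_, h2, h3⟩
    · have hs0 : st0 M n (1, 2 * q + 1, 0) = 0 := by rw [hsl, h3]
      have hBT : BT (kindB (1, 2 * q + 1, 0)) (st0 M n (1, 2 * q + 1, 0)) 2 0 3 := by
        rw [hs0, kind_lane]
        exact BT.t0
      have hpa := pa_Lo3 M q hq h1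
      rw [h2, ← hnx] at hpa
      have := step_lemma hlm hBT (by norm_num) (by norm_num) hpa (by
        rw [hnx]
        intro h
        have := congrArg (fun x => x.1.1) h
        simp at this)
      rwa [upd_self hs0] at this
    · have hBT : BT (kindB (1, 2 * q + 1, 0)) (st0 M n (1, 2 * q + 1, 0)) 2
          (st0 M n (1, 2 * q + 1, 0)) 4 := by
        rw [kind_lane]
        exact BT.tp _ (by rw [hsl]; omega)
      have hpa := pa_Lo4 M q hq h1
      rw [h2, ← hnx] at hpa
      have := step_lemma hlm hBT (by norm_num) (by norm_num) hpa (by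
        rw [hnx]
        intro h
        have := congrArg (fun x => x.1.1) h
        simp at this)
      rwa [upd_self rfl] at this

theorem fin_ok {M : Machine} {q e : ℕ} {n : ℕ → ℕ} (hq : q < M.2.1) (h : FC M q e n) :
    Leads0 (C M (st0 M n) (fin M e)) (C M (st0 M n) ((0, q, 0), 0)) := by
  rcases h with ⟨h1, rfl⟩ | h
  · rw [fin_one h1]
    exact Leads0.refl _
  · have h1 : kI M q = 2 := by rcases h with h | h <;> exact h.1
    have hlt : 2 * q < nL M := by unfold nL; omega
    have hlm := lane_mem hlt
    have hsl : st0 M n (1, 2 * q, 0) = 2 * n (lc M (2 * q)) := by simp [st0]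
    have hpa := pa_Le2 M q hq h1
    have hne : (((0, q, 0), 0) : Port) ≠ ((1, 2 * q, 0), 2) := by
      intro h
      have := congrArg (fun x => x.1.1) h
      simp at this
    rcases h with ⟨_, rfl, h3⟩ | ⟨_, rfl, h3⟩
    · have hs0 : st0 M n (1, 2 * q, 0) = 0 := by rw [hsl, h3]
      have hBT : BT (kindB (1, 2 * q, 0)) (st0 M n (1, 2 * q, 0)) 3 0 2 := by
        rw [hs0, kind_lane]
        exact BT.r0
      have := step_lemma hlm hBT (by norm_num) (by norm_num) hpa hne
      rw [upd_self hs0] at this
      rw [fin_twoZ h1]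
      exact this.to0
    · have hBT : BT (kindB (1, 2 * q, 0)) (st0 M n (1, 2 * q, 0)) 4
          (st0 M n (1, 2 * q, 0)) 2 := by
        rw [kind_lane]
        exact BT.rp _ (by rw [hsl]; omega)
      have := step_lemma hlm hBT (by norm_num) (by norm_num) hpa hne
      rw [upd_self rfl] at this
      rw [fin_twoN h1]
      exact this.to0

theorem fin_ne_of_FC {M : Machine} {q e : ℕ} {n : ℕ → ℕ} (h : FC M q e n) :
    fin M e ≠ ((2, e, 2 * nL M - 1), pout M e (2 * nL M - 1)) := by
  rcases h with ⟨h1, rfl⟩ | ⟨h1, rfl, _⟩ | ⟨h1, rfl, _⟩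
  · rw [fin_one h1]
    intro h
    have := congrArg (fun x => x.1.1) h
    simp at this
  · rw [fin_twoZ h1]
    intro h
    have := congrArg (fun x => x.1.1) h
    simp at this
  · rw [fin_twoN h1]
    intro h
    have := congrArg (fun x => x.1.1) h
    simp at this

/-- simulation of one step of the counter machine -/
theorem big_step {M : Machine} {q q' e : ℕ} {n n' : ℕ → ℕ} (hq : q < M.2.1) (hq' : q' < M.2.1)
    (he : e < nE M) (hS : SC M q e n) (hF : FC M q' e n') (hE : Eff M e n n') :
    Leads (C M (st0 M n) ((0, q, 0), 0)) (C M (st0 M n') ((0, q', 0), 0)) := by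
  have s1 := start_ok hq hS
  have s2 := chain he (fin_ne_of_FC hF) hE
  rw [stl_zero, C_stl_last] at s2
  exact (s1.trans0 s2).trans0 (fin_ok hq' hF)

end Pool.Agent.SPCA81
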