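import Pool.Agent.Lib.MP_abc193_lc.Run

namespace Pool.Agent.SPCA81

open Pool.Agent.AttrHIF (eqB)

set_option linter.unusedSimpArgs false

/-! ## From reversible counter machines to the junction conditions -/

theorem fin5_cases (x : Fin 5) : x = 0 ∨ x = 1 ∨ x = 2 ∨ x = 3 ∨ x = 4 := by
  revert x
  decide

section
variable {M : Machine}

theorem step_of_edge {e : ℕ} (he : e < nE M) {q q' : Fin M.m} {n n' : Fin M.k → ℕ}
    (hq : src M e = q) (hq' : dst M e = q')
    (h : Act (op M e) ⟨ctr M e, (rl_valid he).2.2.1⟩ n n') : M.Step (q, n) (q', n') :=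
  ⟨rl M e, (rl_valid he).1, ⟨ctr M e, (rl_valid he).2.2.1⟩, hq, rfl, hq', h⟩

theorem edge_of_step {q q' : Fin M.m} {n n' : Fin M.k → ℕ} (h : M.Step (q, n) (q', n')) :
    ∃ (e : ℕ) (he : e < nE M), src M e = q ∧ dst M e = q' ∧
      Act (op M e) ⟨ctr M e, (rl_valid he).2.2.1⟩ n n' := by
  obtain ⟨r, hr, i, h1, h2, h3, h4⟩ := h
  have hr' : r ∈ rules' M := by
    rw [rules', List.mem_filter]
    refine ⟨hr, ?_⟩
    simp only at h1 h3
    simp only [Bool.and_eq_true, decide_eq_true_eq, h1, h2, h3]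
    exact ⟨q.2, i.2, q'.2⟩
  obtain ⟨e, he, hre⟩ := List.getElem_of_mem hr'
  have hrl : rl M e = r := by
    unfold rl
    rw [List.getD_eq_getElem _ _ he, hre]
  refine ⟨e, he, ?_, ?_, ?_⟩
  · unfold src; rw [hrl]; exact h1
  · unfold dst; rw [hrl]; exact h3
  · have e1 : (⟨ctr M e, (rl_valid he).2.2.1⟩ : Fin M.k) = i := by
      apply Fin.ext
      show ctr M e = i
      unfold ctr
      rw [hrl, h2]
    rw [e1]
    unfold op
    rw [hrl]
    exact h4

theorem det_edges (hM : M.Rev) {a b : ℕ} (ha : a < nE M) (hb : b < nE M)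
    (hs : src M a = src M b) {n na nb : Fin M.k → ℕ}
    (h1 : Act (op M a) ⟨ctr M a, (rl_valid ha).2.2.1⟩ n na)
    (h2 : Act (op M b) ⟨ctr M b, (rl_valid hb).2.2.1⟩ n nb) :
    dst M a = dst M b ∧ na = nb := by
  have s1 : M.Step (⟨src M a, (rl_valid ha).2.1⟩, n) (⟨dst M a, (rl_valid ha).2.2.2⟩, na) :=
    step_of_edge ha rfl rfl h1
  have s2 : M.Step (⟨src M a, (rl_valid ha).2.1⟩, n) (⟨dst M b, (rl_valid hb).2.2.2⟩, nb) :=
    step_of_edge hb hs.symm rfl h2
  have := hM.2.1 _ _ _ s1 s2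
  simpa using this

theorem inj_edges (hM : M.Rev) {a b : ℕ} (ha : a < nE M) (hb : b < nE M)
    (hs : dst M a = dst M b) {n na nb : Fin M.k → ℕ}
    (h1 : Act (op M a) ⟨ctr M a, (rl_valid ha).2.2.1⟩ na n)
    (h2 : Act (op M b) ⟨ctr M b, (rl_valid hb).2.2.1⟩ nb n) :
    src M a = src M b ∧ na = nb := by
  have s1 : M.Step (⟨src M a, (rl_valid ha).2.1⟩, na) (⟨dst M a, (rl_valid ha).2.2.2⟩, n) :=
    step_of_edge ha rfl rfl h1
  have s2 : M.Step (⟨src M b, (rl_valid hb).2.1⟩, nb) (⟨dst M a, (rl_valid ha).2.2.2⟩, n) :=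
    step_of_edge hb rfl hs.symm h2
  have := hM.2.2 _ _ _ s1 s2
  simpa using this

/-- two non-`Z` operations have the same effect -/
def SameEff (M : Machine) (a b : ℕ) : Prop :=
  ((op M a = 1 ∨ op M a = 3) ∧ (op M b = 1 ∨ op M b = 3)) ∨
    (op M a = op M b ∧ ctr M a = ctr M b)

/-- successor of the all-one vector -/
theorem one_act {k : ℕ} {x : Fin 5} (i : Fin k) (hx : x ≠ 0) :
    Act x i (fun _ => 1) (if x = 2 then Function.update (fun _ => 1) i 0 else
      if x = 4 then Function.update (fun _ => 1) i 2 else fun _ => 1) := by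
  rcases fin5_cases x with rfl | rfl | rfl | rfl | rfl
  · exact absurd rfl hx
  · exact Or.inr (Or.inl ⟨rfl, by norm_num, rfl⟩)
  · exact Or.inr (Or.inr (Or.inl ⟨rfl, by norm_num, rfl⟩))
  · exact Or.inr (Or.inr (Or.inr (Or.inl ⟨rfl, rfl⟩)))
  · exact Or.inr (Or.inr (Or.inr (Or.inr ⟨rfl, rfl⟩)))

/-- predecessor of the all-one vector -/
theorem act_one {k : ℕ} {x : Fin 5} (i : Fin k) (hx : x ≠ 0) :
    Act x i (if x = 2 then Function.update (fun _ => 1) i 2 else
      if x = 4 then Function.update (fun _ => 1) i 0 else fun _ => 1) (fun _ => 1) := by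
  rcases fin5_cases x with rfl | rfl | rfl | rfl | rfl
  · exact absurd rfl hx
  · exact Or.inr (Or.inl ⟨rfl, one_pos, rfl⟩)
  · refine Or.inr (Or.inr (Or.inl ⟨rfl, by simp, ?_⟩))
    funext j
    by_cases h : j = i
    · subst h; simp
    · simp [Function.update_of_ne h]
  · exact Or.inr (Or.inr (Or.inr (Or.inl ⟨rfl, rfl⟩)))
  · refine Or.inr (Or.inr (Or.inr (Or.inr ⟨rfl, ?_⟩)))
    funext j
    by_cases h : j = i
    · subst h; simp
    · simp [Function.update_of_ne h]

theorem sameEff_core {k : ℕ} (x y : Fin 5) (i j : Fin k) (hx : x ≠ 0) (hy : y ≠ 0)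
    (u v : ℕ) (hu : u ≠ 1) (hv : v ≠ 1) (huv : u ≠ v)
    (h : (if x = 2 then Function.update (fun _ => 1) i u else
      if x = 4 then Function.update (fun _ => 1) i v else fun _ => 1) =
      (if y = 2 then Function.update (fun _ => 1) j u else
      if y = 4 then Function.update (fun _ => 1) j v else fun _ => 1)) :
    ((x = 1 ∨ x = 3) ∧ (y = 1 ∨ y = 3)) ∨ (x = y ∧ i = j) := by
  have n24 : (2 : Fin 5) ≠ 4 := by decide
  have n42 : (4 : Fin 5) ≠ 2 := by decide
  have n12 : (1 : Fin 5) ≠ 2 := by decide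
  have n14 : (1 : Fin 5) ≠ 4 := by decide
  have n32 : (3 : Fin 5) ≠ 2 := by decide
  have n34 : (3 : Fin 5) ≠ 4 := by decide
  have key : ∀ (a b : ℕ), a ≠ 1 → (∀ p : Fin k, (if p = i then a else 1) = (if p = j then b else 1)) →
      i = j ∧ a = b := by
    intro a b ha hh
    have h1 := hh i
    rw [if_pos rfl] at h1
    by_cases e : i = j
    · rw [if_pos e] at h1
      exact ⟨e, h1⟩
    · rw [if_neg e] at h1
      exact absurd h1 ha
  have key1 : ∀ (a : ℕ) (c : Fin k), a ≠ 1 → ¬ (∀ p : Fin k, (if p = c then a else 1) = 1) := by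
    intro a c ha hh
    have h1 := hh c
    rw [if_pos rfl] at h1
    exact ha h1
  rcases fin5_cases x with rfl | rfl | rfl | rfl | rfl <;>
  rcases fin5_cases y with rfl | rfl | rfl | rfl | rfl <;>
  try simp only [n24, n42, n12, n14, n32, n34, if_true, if_false] at h
  all_goals first
    | exact absurd rfl hx
    | exact absurd rfl hy
    | (left; exact ⟨by decide, by decide⟩)
    | skip
  all_goals
    have h3 := fun p : Fin k => congrFun h p
    simp only [Function.update_apply] at h3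
  all_goals first
    | exact absurd h3 (key1 _ _ hu)
    | exact absurd h3 (key1 _ _ hv)
    | exact absurd (fun p => (h3 p).symm) (key1 _ _ hu)
    | exact absurd (fun p => (h3 p).symm) (key1 _ _ hv)
    | exact Or.inr ⟨rfl, (key _ _ hu h3).1⟩
    | exact Or.inr ⟨rfl, (key _ _ hv h3).1⟩
    | exact absurd (key _ _ hu h3).2 huv
    | exact absurd (key _ _ hv h3).2 huv.symm

theorem actF {k : ℕ} (i j : Fin k) {y : Fin 5} (hy : y ≠ 0) :
    (∃ n na nb : Fin k → ℕ, Act 0 i n na ∧ Act y j n nb ∧ (na = nb → y = 1 ∨ y = 3)) ∨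
      (i = j ∧ (y = 1 ∨ y = 2)) := by
  by_cases hij : i = j
  · subst hij
    rcases fin5_cases y with rfl | rfl | rfl | rfl | rfl
    · exact absurd rfl hy
    · exact Or.inr ⟨rfl, Or.inl rfl⟩
    · exact Or.inr ⟨rfl, Or.inr rfl⟩
    · exact Or.inl ⟨fun _ => 0, fun _ => 0, fun _ => 0, Or.inl ⟨rfl, rfl, rfl⟩,
        Or.inr (Or.inr (Or.inr (Or.inl ⟨rfl, rfl⟩))), fun _ => Or.inr rfl⟩
    · refine Or.inl ⟨fun _ => 0, fun _ => 0, Function.update (fun _ => 0) i 1,
        Or.inl ⟨rfl, rfl, rfl⟩, Or.inr (Or.inr (Or.inr (Or.inr ⟨rfl, rfl⟩))), fun h => ?_⟩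
      have := congrFun h i
      simp at this
  · have hji : j ≠ i := Ne.symm hij
    have h0 : (Function.update (fun _ => 1) i 0 : Fin k → ℕ) i = 0 := by simp
    have h1 : (Function.update (fun _ => 1) i 0 : Fin k → ℕ) j = 1 := by
      simp [Function.update_of_ne hji]
    left
    rcases fin5_cases y with rfl | rfl | rfl | rfl | rfl
    · exact absurd rfl hy
    · exact ⟨Function.update (fun _ => 1) i 0, Function.update (fun _ => 1) i 0,
        Function.update (fun _ => 1) i 0, Or.inl ⟨rfl, h0, rfl⟩,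
        Or.inr (Or.inl ⟨rfl, by rw [h1]; exact one_pos, rfl⟩), fun _ => Or.inl rfl⟩
    · refine ⟨Function.update (fun _ => 1) i 0, Function.update (fun _ => 1) i 0,
        Function.update (Function.update (fun _ => 1) i 0) j
          (Function.update (fun _ => 1) i 0 j - 1), Or.inl ⟨rfl, h0, rfl⟩,
        Or.inr (Or.inr (Or.inl ⟨rfl, by rw [h1]; exact one_pos, rfl⟩)), fun h => ?_⟩
      have := congrFun h j
      rw [Function.update_self, h1] at this
      exact absurd this (by norm_num)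
    · exact ⟨Function.update (fun _ => 1) i 0, Function.update (fun _ => 1) i 0,
        Function.update (fun _ => 1) i 0, Or.inl ⟨rfl, h0, rfl⟩,
        Or.inr (Or.inr (Or.inr (Or.inl ⟨rfl, rfl⟩))), fun _ => Or.inr rfl⟩
    · refine ⟨Function.update (fun _ => 1) i 0, Function.update (fun _ => 1) i 0,
        Function.update (Function.update (fun _ => 1) i 0) j
          (Function.update (fun _ => 1) i 0 j + 1), Or.inl ⟨rfl, h0, rfl⟩,
        Or.inr (Or.inr (Or.inr (Or.inr ⟨rfl, rfl⟩))), fun h => ?_⟩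
      have := congrFun h j
      rw [Function.update_self, h1] at this
      exact absurd this (by norm_num)

theorem actB {k : ℕ} (i j : Fin k) {y : Fin 5} (hy : y ≠ 0) :
    (∃ n na nb : Fin k → ℕ, Act 0 i na n ∧ Act y j nb n ∧ (na = nb → y = 1 ∨ y = 3)) ∨
      (i = j ∧ (y = 1 ∨ y = 4)) := by
  by_cases hij : i = j
  · subst hij
    rcases fin5_cases y with rfl | rfl | rfl | rfl | rfl
    · exact absurd rfl hy
    · exact Or.inr ⟨rfl, Or.inl rfl⟩
    · refine Or.inl ⟨fun _ => 0, fun _ => 0, Function.update (fun _ => 0) i 1,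
        Or.inl ⟨rfl, rfl, rfl⟩, Or.inr (Or.inr (Or.inl ⟨rfl, by simp, ?_⟩)), fun h => ?_⟩
      · funext c
        by_cases h : c = i
        · subst h; simp
        · simp [Function.update_of_ne h]
      · have := congrFun h i
        simp at this
    · exact Or.inl ⟨fun _ => 0, fun _ => 0, fun _ => 0, Or.inl ⟨rfl, rfl, rfl⟩,
        Or.inr (Or.inr (Or.inr (Or.inl ⟨rfl, rfl⟩))), fun _ => Or.inr rfl⟩
    · exact Or.inr ⟨rfl, Or.inr rfl⟩
  · have hji : j ≠ i := Ne.symm hij
    have h0 : (Function.update (fun _ => 1) i 0 : Fin k → ℕ) i = 0 := by simp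
    have h1 : (Function.update (fun _ => 1) i 0 : Fin k → ℕ) j = 1 := by
      simp [Function.update_of_ne hji]
    left
    rcases fin5_cases y with rfl | rfl | rfl | rfl | rfl
    · exact absurd rfl hy
    · exact ⟨Function.update (fun _ => 1) i 0, Function.update (fun _ => 1) i 0,
        Function.update (fun _ => 1) i 0, Or.inl ⟨rfl, h0, rfl⟩,
        Or.inr (Or.inl ⟨rfl, by rw [h1]; exact one_pos, rfl⟩), fun _ => Or.inl rfl⟩
    · refine ⟨Function.update (fun _ => 1) i 0, Function.update (fun _ => 1) i 0,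
        Function.update (Function.update (fun _ => 1) i 0) j 2, Or.inl ⟨rfl, h0, rfl⟩,
        Or.inr (Or.inr (Or.inl ⟨rfl, by simp, ?_⟩)), fun h => ?_⟩
      · funext c
        by_cases h : c = j
        · subst h; rw [Function.update_self, Function.update_self, h1]
        · rw [Function.update_of_ne h, Function.update_of_ne h]
      · have := congrFun h j
        rw [Function.update_self, h1] at this
        exact absurd this (by norm_num)
    · exact ⟨Function.update (fun _ => 1) i 0, Function.update (fun _ => 1) i 0,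
        Function.update (fun _ => 1) i 0, Or.inl ⟨rfl, h0, rfl⟩,
        Or.inr (Or.inr (Or.inr (Or.inl ⟨rfl, rfl⟩))), fun _ => Or.inr rfl⟩
    · refine ⟨Function.update (fun _ => 1) i 0, Function.update (fun _ => 1) i 0,
        Function.update (Function.update (fun _ => 1) i 0) j 0, Or.inl ⟨rfl, h0, rfl⟩,
        Or.inr (Or.inr (Or.inr (Or.inr ⟨rfl, ?_⟩))), fun h => ?_⟩
      · funext c
        by_cases h : c = j
        · subst h; rw [Function.update_self, Function.update_self, h1]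
        · rw [Function.update_of_ne h, Function.update_of_ne h]
      · have := congrFun h j
        rw [Function.update_self, h1] at this
        exact absurd this (by norm_num)

theorem F1 (hM : M.Rev) {a b : ℕ} (ha : a < nE M) (hb : b < nE M) (hs : src M a = src M b)
    (h0 : op M a ≠ 0) (h0' : op M b ≠ 0) : dst M a = dst M b ∧ SameEff M a b := by
  have h := det_edges hM ha hb hs (one_act _ h0) (one_act _ h0')
  refine ⟨h.1, ?_⟩
  rcases sameEff_core _ _ _ _ h0 h0' 0 2 (by norm_num) (by norm_num) (by norm_num) h.2 with h | h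
  · exact Or.inl h
  · exact Or.inr ⟨h.1, by simpa using h.2⟩

theorem B1 (hM : M.Rev) {a b : ℕ} (ha : a < nE M) (hb : b < nE M) (hs : dst M a = dst M b)
    (h0 : op M a ≠ 0) (h0' : op M b ≠ 0) : src M a = src M b ∧ SameEff M a b := by
  have h := inj_edges hM ha hb hs (act_one _ h0) (act_one _ h0')
  refine ⟨h.1, ?_⟩
  rcases sameEff_core _ _ _ _ h0 h0' 2 0 (by norm_num) (by norm_num) (by norm_num) h.2 with h | h
  · exact Or.inl h
  · exact Or.inr ⟨h.1, by simpa using h.2⟩

theorem F2 (hM : M.Rev) {a b : ℕ} (ha : a < nE M) (hb : b < nE M) (hs : src M a = src M b)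
    (h0 : op M a = 0) (h0' : op M b = 0) : dst M a = dst M b :=
  (det_edges hM ha hb hs (n := fun _ => 0) (na := fun _ => 0) (nb := fun _ => 0)
    (Or.inl ⟨h0, rfl, rfl⟩) (Or.inl ⟨h0', rfl, rfl⟩)).1

theorem B2 (hM : M.Rev) {a b : ℕ} (ha : a < nE M) (hb : b < nE M) (hs : dst M a = dst M b)
    (h0 : op M a = 0) (h0' : op M b = 0) : src M a = src M b :=
  (inj_edges hM ha hb hs (n := fun _ => 0) (na := fun _ => 0) (nb := fun _ => 0)
    (Or.inl ⟨h0, rfl, rfl⟩) (Or.inl ⟨h0', rfl, rfl⟩)).1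

theorem F3 (hM : M.Rev) {a b : ℕ} (ha : a < nE M) (hb : b < nE M) (hs : src M a = src M b)
    (h0 : op M a = 0) (h0' : op M b ≠ 0) :
    (dst M a = dst M b ∧ (op M b = 1 ∨ op M b = 3)) ∨
      (ctr M a = ctr M b ∧ (op M b = 1 ∨ op M b = 2)) := by
  rcases actF ⟨ctr M a, (rl_valid ha).2.2.1⟩ ⟨ctr M b, (rl_valid hb).2.2.1⟩ h0' with
    ⟨n, na, nb, h1, h2, h3⟩ | ⟨h1, h2⟩
  · have := det_edges hM ha hb hs (by rw [h0]; exact h1) h2
    exact Or.inl ⟨this.1, h3 this.2⟩
  · exact Or.inr ⟨by simpa using h1, h2⟩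

theorem B3 (hM : M.Rev) {a b : ℕ} (ha : a < nE M) (hb : b < nE M) (hs : dst M a = dst M b)
    (h0 : op M a = 0) (h0' : op M b ≠ 0) :
    (src M a = src M b ∧ (op M b = 1 ∨ op M b = 3)) ∨
      (ctr M a = ctr M b ∧ (op M b = 1 ∨ op M b = 4)) := by
  rcases actB ⟨ctr M a, (rl_valid ha).2.2.1⟩ ⟨ctr M b, (rl_valid hb).2.2.1⟩ h0' with
    ⟨n, na, nb, h1, h2, h3⟩ | ⟨h1, h2⟩
  · have := inj_edges hM ha hb hs (by rw [h0]; exact h1) h2
    exact Or.inl ⟨this.1, h3 this.2⟩
  · exact Or.inr ⟨by simpa using h1, h2⟩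

/-- extension of the counters by `0` -/
def ext {k : ℕ} (n : Fin k → ℕ) (i : ℕ) : ℕ := if h : i < k then n ⟨i, h⟩ else 0

theorem ext_update {k : ℕ} (n : Fin k → ℕ) (i : Fin k) (v : ℕ) :
    ext (Function.update n i v) = Function.update (ext n) i v := by
  funext c
  by_cases h : c = i
  · subst h
    simp [ext, i.2]
  · rw [Function.update_of_ne h]
    unfold ext
    split_ifs with h2
    · rw [Function.update_of_ne]
      intro e
      exact h (congrArg Fin.val e)
    · rfl

theorem ext_val {k : ℕ} (n : Fin k → ℕ) {i : ℕ} (h : i < k) : ext n i = n ⟨i, h⟩ := by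
  simp [ext, h]

theorem Eff_of {e : ℕ} (he : e < nE M) {n n' : Fin M.k → ℕ}
    (h : Act (op M e) ⟨ctr M e, (rl_valid he).2.2.1⟩ n n') : Eff M e (ext n) (ext n') := by
  have hc := (rl_valid he).2.2.1
  rcases h with ⟨h, _, rfl⟩ | ⟨h, _, rfl⟩ | ⟨h, h2, rfl⟩ | ⟨h, rfl⟩ | ⟨h, rfl⟩
  · exact Or.inl ⟨Or.inl h, rfl⟩
  · exact Or.inl ⟨Or.inr (Or.inl h), rfl⟩
  · refine Or.inr (Or.inl ⟨h, ?_, ?_⟩)
    · rw [ext_val n hc]; exact h2
    · rw [ext_update, ext_val n hc]
  · exact Or.inl ⟨Or.inr (Or.inr h), rfl⟩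
  · refine Or.inr (Or.inr ⟨h, ?_⟩)
    rw [ext_update, ext_val n hc]

theorem Eff_same {a b : ℕ} {n n' : ℕ → ℕ} (h : SameEff M a b) (hE : Eff M a n n') :
    Eff M b n n' := by
  rcases h with ⟨h1, h2⟩ | ⟨h1, h2⟩
  · rcases hE with ⟨_, rfl⟩ | ⟨h, _⟩ | ⟨h, _⟩
    · exact Or.inl ⟨Or.inr h2, rfl⟩
    · rw [h] at h1
      rcases h1 with h1 | h1 <;> exact absurd h1 (by decide)
    · rw [h] at h1
      rcases h1 with h1 | h1 <;> exact absurd h1 (by decide)
  · unfold Eff at hE ⊢
    rw [h1, h2] at hE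
    exact hE

theorem nop_iff {e : ℕ} : nop M e = true ↔ op M e = 1 ∨ op M e = 3 := by
  simp [nop]

theorem kO_same {q : ℕ} (h1 : oZ M q < nE M) (h2 : oN M q < nE M) :
    kO M q = if (op M (oN M q) = 1 ∨ op M (oN M q) = 3) ∧
      dst M (oZ M q) = dst M (oN M q) then 1 else 2 := by
  unfold kO
  simp only [h1, h2, decide_true, cond_true, cond_if, Bool.and_eq_true, nop_iff,
    Pool.Agent.AttrHIF.eqB_iff, if_true]

theorem kI_same {q : ℕ} (h1 : iZ M q < nE M) (h2 : iN M q < nE M) :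
    kI M q = if (op M (iN M q) = 1 ∨ op M (iN M q) = 3) ∧
      src M (iZ M q) = src M (iN M q) then 1 else 2 := by
  unfold kI
  simp only [h1, h2, decide_true, cond_true, cond_if, Bool.and_eq_true, nop_iff,
    Pool.Agent.AttrHIF.eqB_iff, if_true]

theorem kO_Z {q : ℕ} (h1 : oZ M q < nE M) (h2 : ¬ oN M q < nE M) : kO M q = 1 := by
  unfold kO; simp [h1, h2]
theorem kO_N {q : ℕ} (h1 : ¬ oZ M q < nE M) (h2 : oN M q < nE M) : kO M q = 1 := by
  unfold kO; simp [h1, h2]
theorem kI_Z {q : ℕ} (h1 : iZ M q < nE M) (h2 : ¬ iN M q < nE M) : kI M q = 1 := by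
  unfold kI; simp [h1, h2]
theorem kI_N {q : ℕ} (h1 : ¬ iZ M q < nE M) (h2 : iN M q < nE M) : kI M q = 1 := by
  unfold kI; simp [h1, h2]
theorem eO_Z {q : ℕ} (h1 : oZ M q < nE M) : eO M q = oZ M q := by
  unfold eO; simp [h1]
theorem eO_N {q : ℕ} (h1 : ¬ oZ M q < nE M) : eO M q = oN M q := by
  unfold eO; simp [h1]
theorem eI_Z {q : ℕ} (h1 : iZ M q < nE M) : eI M q = iZ M q := by
  unfold eI; simp [h1]
theorem eI_N {q : ℕ} (h1 : ¬ iZ M q < nE M) : eI M q = iN M q := by
  unfold eI; simp [h1]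

theorem oZ_ex {a q : ℕ} (ha : a < nE M) (h1 : src M a = q) (h2 : op M a = 0) :
    oZ M q < nE M := lt_of_le_of_lt (first_le ha (by simp [h1, h2])) ha
theorem oN_ex {a q : ℕ} (ha : a < nE M) (h1 : src M a = q) (h2 : op M a ≠ 0) :
    oN M q < nE M := lt_of_le_of_lt (first_le ha (by simp [h1, (eqB_false _ _).2 h2])) ha
theorem iZ_ex {a q : ℕ} (ha : a < nE M) (h1 : dst M a = q) (h2 : op M a = 0) :
    iZ M q < nE M := lt_of_le_of_lt (first_le ha (by simp [h1, h2])) ha
theorem iN_ex {a q : ℕ} (ha : a < nE M) (h1 : dst M a = q) (h2 : op M a ≠ 0) :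
    iN M q < nE M := lt_of_le_of_lt (first_le ha (by simp [h1, (eqB_false _ _).2 h2])) ha

theorem oZ_eq_iZ (hM : M.Rev) {a q q' : ℕ} (ha : a < nE M) (h1 : src M a = q)
    (h2 : dst M a = q') (h3 : op M a = 0) : oZ M q = iZ M q' := by
  apply first_congr
  intro e he
  rw [Bool.eq_iff_iff]
  simp only [Bool.and_eq_true, Pool.Agent.AttrHIF.eqB_iff]
  constructor
  · rintro ⟨h4, h5⟩
    exact ⟨by rw [← h2]; exact F2 hM he ha (by rw [h4, h1]) h5 h3, h5⟩
  · rintro ⟨h4, h5⟩
    exact ⟨by rw [← h1]; exact B2 hM he ha (by rw [h4, h2]) h5 h3, h5⟩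

theorem oN_eq_iN (hM : M.Rev) {a q q' : ℕ} (ha : a < nE M) (h1 : src M a = q)
    (h2 : dst M a = q') (h3 : op M a ≠ 0) : oN M q = iN M q' := by
  apply first_congr
  intro e he
  rw [Bool.eq_iff_iff]
  simp only [Bool.and_eq_true, Pool.Agent.AttrHIF.eqB_iff, Bool.not_eq_true', eqB_false]
  constructor
  · rintro ⟨h4, h5⟩
    exact ⟨by rw [← h2]; exact (F1 hM he ha (by rw [h4, h1]) h5 h3).1, h5⟩
  · rintro ⟨h4, h5⟩
    exact ⟨by rw [← h1]; exact (B1 hM he ha (by rw [h4, h2]) h5 h3).1, h5⟩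

theorem lc_even {q : ℕ} (hq : q < M.2.1) : lc M (2 * q) = ctr M (iZ M q) := by
  have h1 : 2 * q < 2 * M.2.1 := by omega
  have h2 : 2 * q / 2 = q := by omega
  have h3 : 2 * q % 2 = 0 := by omega
  unfold lc
  simp [h1, h2, h3, cond_if]

theorem lc_odd {q : ℕ} (hq : q < M.2.1) : lc M (2 * q + 1) = ctr M (oZ M q) := by
  have h1 : 2 * q + 1 < 2 * M.2.1 := by omega
  have h2 : (2 * q + 1) / 2 = q := by omega
  have h3 : (2 * q + 1) % 2 = 1 := by omega
  unfold lc
  simp [h1, h2, h3, cond_if]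

theorem sem (hM : M.Rev) {q q' : Fin M.m} {n n' : Fin M.k → ℕ} (h : M.Step (q, n) (q', n')) :
    ∃ e < nE M, SC M q e (ext n) ∧ FC M q' e (ext n') ∧ Eff M e (ext n) (ext n') := by
  obtain ⟨e0, he0, hs, hd, hA⟩ := edge_of_step h
  have hE0 := Eff_of he0 hA
  have hc0 := (rl_valid he0).2.2.1
  have hq : (q : ℕ) < M.2.1 := q.2
  have hq' : (q' : ℕ) < M.2.1 := q'.2
  by_cases hop : op M e0 = 0
  · -- a zero test
    have hZ := oZ_ex he0 hs hop
    have hZs := oZ_spec hZ
    have hZd : dst M (oZ M q) = q' := by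
      rw [← hd]; exact F2 hM hZ he0 (by rw [hZs.1, hs]) hZs.2 hop
    have hZi : oZ M q = iZ M q' := oZ_eq_iZ hM he0 hs hd hop
    have hiZ : iZ M q' < nE M := by rw [← hZi]; exact hZ
    have hnn : n' = n := by
      rcases hA with ⟨_, _, h⟩ | ⟨h, _⟩ | ⟨h, _⟩ | ⟨h, _⟩ | ⟨h, _⟩
      · exact h
      all_goals (rw [hop] at h; exact absurd h (by decide))
    have hn0 : ext n (ctr M e0) = 0 := by
      rw [ext_val n hc0]
      rcases hA with ⟨_, h, _⟩ | ⟨h, _⟩ | ⟨h, _⟩ | ⟨h, _⟩ | ⟨h, _⟩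
      · exact h
      all_goals (rw [hop] at h; exact absurd h (by decide))
    subst hnn
    refine ⟨oZ M q, hZ, ?_, ?_, Or.inl ⟨Or.inl hZs.2, rfl⟩⟩
    · by_cases hN : oN M q < nE M
      · have hNs := oN_spec hN
        have hk := kO_same hZ hN
        split_ifs at hk with hc
        · exact Or.inl ⟨hk, eO_Z hZ⟩
        · refine Or.inr (Or.inl ⟨hk, rfl, ?_⟩)
          rw [lc_odd hq]
          have f1 := F3 hM hZ hN (by rw [hZs.1, hNs.1]) hZs.2 hNs.2
          have f2 := F3 hM he0 hN (by rw [hs, hNs.1]) hop hNs.2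
          have g1 : ctr M (oZ M q) = ctr M (oN M q) := by
            rcases f1 with f1 | f1
            · exact absurd ⟨f1.2, f1.1⟩ hc
            · exact f1.1
          have g2 : ctr M e0 = ctr M (oN M q) := by
            rcases f2 with f2 | f2
            · exact absurd ⟨f2.2, by rw [hZd, ← hd, f2.1]⟩ hc
            · exact f2.1
          rw [g1, ← g2]
          exact hn0
      · exact Or.inl ⟨kO_Z hZ hN, eO_Z hZ⟩
    · by_cases hN : iN M q' < nE M
      · have hNs := iN_spec hN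
        have hk := kI_same hiZ hN
        split_ifs at hk with hc
        · exact Or.inl ⟨hk, by rw [eI_Z hiZ, hZi]⟩
        · refine Or.inr (Or.inl ⟨hk, hZi.symm, ?_⟩)
          rw [lc_even hq']
          have hiZs := iZ_spec hiZ
          have f1 := B3 hM hiZ hN (by rw [hiZs.1, hNs.1]) hiZs.2 hNs.2
          have f2 := B3 hM he0 hN (by rw [hd, hNs.1]) hop hNs.2
          have g1 : ctr M (iZ M q') = ctr M (iN M q') := by
            rcases f1 with f1 | f1
            · exact absurd ⟨f1.2, f1.1⟩ hc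
            · exact f1.1
          have g2 : ctr M e0 = ctr M (iN M q') := by
            rcases f2 with f2 | f2
            · exact absurd ⟨f2.2, by rw [← hZi, hZs.1, ← hs, f2.1]⟩ hc
            · exact f2.1
          rw [g1, ← g2]
          exact hn0
      · exact Or.inl ⟨kI_Z hiZ hN, by rw [eI_Z hiZ, hZi]⟩
  · -- another operation
    have hN := oN_ex he0 hs hop
    have hNs := oN_spec hN
    have hF1 := F1 hM he0 hN (by rw [hNs.1, hs]) hop hNs.2
    have hNd : dst M (oN M q) = q' := by rw [← hF1.1, hd]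
    have hNi : oN M q = iN M q' := oN_eq_iN hM he0 hs hd hop
    have hiN : iN M q' < nE M := by rw [← hNi]; exact hN
    have hEN : Eff M (oN M q) (ext n) (ext n') := Eff_same hF1.2 hE0
    have hnopN : op M e0 = 1 ∨ op M e0 = 3 → op M (oN M q) = 1 ∨ op M (oN M q) = 3 := by
      intro h
      rcases hF1.2 with h' | h'
      · exact h'.2
      · rw [← h'.1]; exact h
    by_cases hpar : (∃ a < nE M, src M a = q ∧ dst M a = q' ∧ op M a = 0) ∧
        (op M (oN M q) = 1 ∨ op M (oN M q) = 3)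
    · obtain ⟨⟨a, ha, has, had, hao⟩, hno⟩ := hpar
      have hZ := oZ_ex ha has hao
      have hZs := oZ_spec hZ
      have hZd : dst M (oZ M q) = q' := by
        rw [← had]; exact F2 hM hZ ha (by rw [hZs.1, has]) hZs.2 hao
      have hZi : oZ M q = iZ M q' := oZ_eq_iZ hM ha has had hao
      have hiZ : iZ M q' < nE M := by rw [← hZi]; exact hZ
      refine ⟨oZ M q, hZ, Or.inl ⟨?_, eO_Z hZ⟩, Or.inl ⟨?_, by rw [eI_Z hiZ, hZi]⟩, ?_⟩
      · rw [kO_same hZ hN, if_pos ⟨hno, by rw [hZd, hNd]⟩]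
      · rw [kI_same hiZ hiN, ← hZi, ← hNi, if_pos ⟨hno, by rw [hZs.1, hNs.1]⟩]
      · refine Or.inl ⟨Or.inl hZs.2, ?_⟩
        rcases hEN with ⟨_, h⟩ | ⟨h, _⟩ | ⟨h, _⟩
        · exact h
        · rw [h] at hno
          rcases hno with h | h <;> exact absurd h (by decide)
        · rw [h] at hno
          rcases hno with h | h <;> exact absurd h (by decide)
    · refine ⟨oN M q, hN, ?_, ?_, hEN⟩
      · by_cases hZ : oZ M q < nE M
        · have hZs := oZ_spec hZ
          have hk := kO_same hZ hN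
          split_ifs at hk with hc
          · exact absurd ⟨⟨oZ M q, hZ, hZs.1, by rw [hc.2, hNd], hZs.2⟩, hc.1⟩ hpar
          · refine Or.inr (Or.inr ⟨hk, rfl, ?_⟩)
            rw [lc_odd hq]
            have f := F3 hM hZ he0 (by rw [hZs.1, hs]) hZs.2 hop
            rcases f with f | f
            · exact absurd ⟨⟨oZ M q, hZ, hZs.1, by rw [f.1, hd], hZs.2⟩, hnopN f.2⟩ hpar
            · rw [f.1, ext_val n hc0]
              rcases hA with ⟨h, _⟩ | ⟨_, h, _⟩ | ⟨_, h, _⟩ | ⟨h, _⟩ | ⟨h, _⟩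
              · exact absurd h hop
              · exact h
              · exact h
              · rw [h] at f
                rcases f.2 with f | f <;> exact absurd f (by decide)
              · rw [h] at f
                rcases f.2 with f | f <;> exact absurd f (by decide)
        · exact Or.inl ⟨kO_N hZ hN, eO_N hZ⟩
      · by_cases hZ : iZ M q' < nE M
        · have hZs := iZ_spec hZ
          have hk := kI_same hZ hiN
          split_ifs at hk with hc
          · refine absurd ⟨⟨iZ M q', hZ, ?_, hZs.1, hZs.2⟩, ?_⟩ hpar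
            · rw [hc.2, ← hNi, hNs.1]
            · rw [hNi]; exact hc.1
          · refine Or.inr (Or.inr ⟨hk, hNi.symm, ?_⟩)
            rw [lc_even hq']
            have f := B3 hM hZ he0 (by rw [hZs.1, hd]) hZs.2 hop
            rcases f with f | f
            · exact absurd ⟨⟨iZ M q', hZ, by rw [f.1, hs], hZs.1, hZs.2⟩, hnopN f.2⟩ hpar
            · rw [f.1, ext_val n' hc0]
              rcases hA with ⟨h, _⟩ | ⟨_, h, h'⟩ | ⟨h, _⟩ | ⟨h, _⟩ | ⟨_, h⟩
              · exact absurd h hop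
              · rw [h']; exact h
              · rw [h] at f
                rcases f.2 with f | f <;> exact absurd f (by decide)
              · rw [h] at f
                rcases f.2 with f | f <;> exact absurd f (by decide)
              · rw [h, Function.update_self]
                omega
        · exact Or.inl ⟨kI_N hZ hiN, by rw [eI_N hZ, hNi]⟩

end

/-- every step of the reversible counter machine is simulated -/
theorem simulate {M : Machine} (hM : M.Rev) {q q' : Fin M.m} {n n' : Fin M.k → ℕ}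
    (h : M.Step (q, n) (q', n')) :
    Leads (C M (st0 M (ext n)) ((0, (q : ℕ), 0), 0)) (C M (st0 M (ext n')) ((0, (q' : ℕ), 0), 0)) := by
  obtain ⟨e, he, h1, h2, h3⟩ := sem hM h
  exact big_step q.2 q'.2 he h1 h2 h3

end Pool.Agent.SPCA81
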