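import Pool.Agent.Lib.MP_abc193_lc.Defs

namespace Pool.Agent.SPCA81

set_option linter.unusedSimpArgs false

/-! ## The rule -/

/-- the three values -/
inductive V3 | z | o | w
  deriving DecidableEq, Fintype

open V3

def V3.toFin : V3 → Fin 3
  | z => 0
  | o => 1
  | w => 2

def V3.ofFin (a : Fin 3) : V3 := if a = 0 then z else if a = 1 then o else w

@[simp] theorem ofFin_toFin (a : V3) : V3.ofFin a.toFin = a := by cases a <;> rfl

/-- vertex rule: values on the edges S, W, N, E of a vertex, before and after -/
def g : V3 → V3 → V3 → V3 → V3 × V3 × V3 × V3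
  | z, o, z, z => (z, z, w, z)
  | z, z, w, z => (z, o, z, z)
  | z, z, z, o => (w, z, z, z)
  | w, z, z, z => (z, z, z, o)
  | z, w, z, z => (z, z, z, w)
  | z, z, z, w => (z, w, z, z)
  | w, o, z, z => (o, w, z, z)
  | o, w, z, z => (w, o, z, z)
  | z, w, o, z => (z, z, w, o)
  | z, z, w, o => (z, w, o, z)
  | o, o, z, z => (w, z, o, z)
  | w, z, o, z => (o, o, z, z)
  | z, o, o, z => (z, z, o, o)
  | z, z, o, o => (z, o, o, z)
  | o, z, z, o => (z, z, o, w)
  | z, z, o, w => (o, z, z, o)
  | o, z, z, w => (o, z, w, z)
  | o, z, w, z => (o, z, z, w)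
  | o, w, o, z => (o, z, o, o)
  | o, z, o, o => (o, w, o, z)
  | o, z, o, w => (o, o, o, z)
  | o, o, o, z => (o, z, o, w)
  | w, o, o, z => (z, w, w, o)
  | z, w, w, o => (w, o, o, z)
  | w, z, z, w => (z, o, z, w)
  | z, o, z, w => (w, z, z, w)
  | a, b, c, d => (a, b, c, d)

/-- the local function `f(t,r,b,l)` -/
def f (c : Cell) : Cell :=
  let r := g (V3.ofFin c.1) (V3.ofFin c.2.1) (V3.ofFin c.2.2.1) (V3.ofFin c.2.2.2)
  (r.2.2.1.toFin, r.2.2.2.toFin, r.1.toFin, r.2.1.toFin)

theorem f_invol : ∀ c : Cell, frev (f (frev (f c))) = c := by decide +kernel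

theorem frev_invol (c : Cell) : frev (frev c) = c := rfl

theorem f_bij : Function.Bijective f := by
  refine Function.bijective_iff_has_inverse.2 ⟨fun c => frev (f (frev c)), f_invol, ?_⟩
  intro c
  have := f_invol (frev c)
  have h2 : frev (frev (f (frev (f (frev c))))) = frev (frev c) := by rw [this]
  simpa [frev_invol] using h2

theorem f_zero : f 0 = 0 := by decide +kernel

theorem Hrev_apply (α : Config) (p : ℤ × ℤ) :
    Hrev α p = ((α (p.1, p.2 + 1)).2.2.1, (α (p.1 + 1, p.2)).2.2.2, (α (p.1, p.2 - 1)).1,
      (α (p.1 - 1, p.2)).2.1) := rfl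

theorem Hrev_Hrev (α : Config) : Hrev (Hrev α) = α := by
  funext p
  simp [Hrev_apply]

theorem FHF (α : Config) : globalMap f (Hrev (globalMap f α)) = Hrev α := by
  funext ⟨x, y⟩
  have h1 : ∀ c : Cell, f (frev (f c)) = frev c := by
    intro c
    have := congrArg frev (f_invol c)
    simpa [frev_invol] using this
  have h2 := h1 ((α (x, y - 1)).1, (α (x - 1, y)).2.1, (α (x, y + 1)).2.2.1,
    (α (x + 1, y)).2.2.2)
  simp only [globalMap, Hrev_apply, add_sub_cancel_right, sub_add_cancel] at h2 ⊢
  exact h2

theorem strict : StrictlyTSymmetric f := by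
  refine ⟨f_bij, fun α => ?_, fun α => ?_⟩
  · show Hrev (globalMap f (Hrev (globalMap f α))) = α
    rw [FHF, Hrev_Hrev]
  · show globalMap f (Hrev (globalMap f (Hrev α))) = α
    rw [FHF, Hrev_Hrev]

/-! ## The edge picture, in the coordinates `t = x - y`, `y` -/

/-- edges: `(true, t, y)` is the edge above the vertex `(t,y)` (leading to `(t-1,y+1)`),
`(false, t, y)` is the edge to the right of `(t,y)` (leading to `(t+1,y)`). -/
abbrev Edge := Bool × ℤ × ℤ

/-- apply the vertex rule at the vertex `(t,y)` -/
def G (σ : Edge → V3) (t y : ℤ) : V3 × V3 × V3 × V3 :=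
  g (σ (true, t + 1, y - 1)) (σ (false, t - 1, y)) (σ (true, t, y)) (σ (false, t, y))

/-- one step of the edge dynamics: the vertices with `t ≡ p (mod 2)` are active -/
def U (p : ℤ) (σ : Edge → V3) : Edge → V3
  | (true, t, y) => if (t - p) % 2 = 0 then (G σ t y).2.2.1 else (G σ (t - 1) (y + 1)).1
  | (false, t, y) => if (t - p) % 2 = 0 then (G σ t y).2.2.2 else (G σ (t + 1) y).2.1

/-- the configuration of an edge state: the cells with `t ≢ p` carry the values -/
def cfg (σ : Edge → V3) (p : ℤ) : Config := fun c =>
  if (c.1 - c.2 - p) % 2 = 0 then 0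
  else ((σ (true, c.1 - c.2, c.2)).toFin, (σ (false, c.1 - c.2, c.2)).toFin,
    (σ (true, c.1 - c.2 + 1, c.2 - 1)).toFin, (σ (false, c.1 - c.2 - 1, c.2)).toFin)

theorem F_cfg (σ : Edge → V3) (p : ℤ) : globalMap f (cfg σ p) = cfg (U p σ) (p + 1) := by
  funext ⟨x, y⟩
  rcases Int.emod_two_eq_zero_or_one (x - y - p) with h | h
  · have e1 : ¬ (x - (y - 1) - p) % 2 = 0 := by omega
    have e2 : ¬ (x - 1 - y - p) % 2 = 0 := by omega
    have e3 : ¬ (x - (y + 1) - p) % 2 = 0 := by omega
    have e4 : ¬ (x + 1 - y - p) % 2 = 0 := by omega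
    have e5 : ¬ (x - y - (p + 1)) % 2 = 0 := by omega
    have e6 : ¬ (x - y + 1 - p) % 2 = 0 := by omega
    have e7 : ¬ (x - y - 1 - p) % 2 = 0 := by omega
    simp only [globalMap, cfg, e1, e2, e3, e4, e5, if_false, f, ofFin_toFin, U, h, if_true, e6, e7]
    have a1 : x - (y - 1) = x - y + 1 := by ring
    have a2 : x - 1 - y = x - y - 1 := by ring
    have a3 : x - (y + 1) = x - y - 1 := by ring
    have a4 : x + 1 - y = x - y + 1 := by ring
    have a5 : x - y - 1 + 1 = x - y := by ring
    have a6 : y + 1 - 1 = y := by ring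
    have a7 : x - y + 1 - 1 = x - y := by ring
    have a8 : y - 1 + 1 = y := by ring
    simp only [a1, a2, a3, a4, a5, a6, a7, a8, G]
  · have e1 : (x - (y - 1) - p) % 2 = 0 := by omega
    have e2 : (x - 1 - y - p) % 2 = 0 := by omega
    have e3 : (x - (y + 1) - p) % 2 = 0 := by omega
    have e4 : (x + 1 - y - p) % 2 = 0 := by omega
    have e5 : (x - y - (p + 1)) % 2 = 0 := by omega
    simp only [globalMap, cfg, e1, e2, e3, e4, e5, if_true]
    exact f_zero

/-- the background edge state: value `1` on the vertical edges in `K`, `0` elsewhere -/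
noncomputable def base (K : ℤ → ℤ → Prop) : Edge → V3
  | (true, t, y) => open Classical in if K t y then o else z
  | (false, _, _) => z

/-- background with finitely many overrides -/
noncomputable def ov (K : ℤ → ℤ → Prop) (M : List (Edge × V3)) (e : Edge) : V3 :=
  (M.lookup e).getD (base K e)

/-! ## Local simulation -/

/-- local background given by a list -/
def kb (k : List (ℤ × ℤ)) : Edge → V3
  | (true, t, y) => if (t, y) ∈ k then o else z
  | (false, _, _) => z

def lv (k : List (ℤ × ℤ)) (M : List (Edge × V3)) (e : Edge) : V3 :=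
  (M.lookup e).getD (kb k e)

/-- the active endpoint of an edge -/
def endp (p : ℤ) : Edge → ℤ × ℤ
  | (true, t, y) => if (t - p) % 2 = 0 then (t, y) else (t - 1, y + 1)
  | (false, t, y) => if (t - p) % 2 = 0 then (t, y) else (t + 1, y)

def verts (p : ℤ) (M : List (Edge × V3)) : List (ℤ × ℤ) :=
  M.foldr (fun e acc => if endp p e.1 ∈ acc then acc else endp p e.1 :: acc) []

def keep (k : List (ℤ × ℤ)) (e : Edge) (v : V3) : List (Edge × V3) :=
  if v = kb k e then [] else [(e, v)]

def out (k : List (ℤ × ℤ)) (M : List (Edge × V3)) (c : ℤ × ℤ) : List (Edge × V3) :=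
  let r := g (lv k M (true, c.1 + 1, c.2 - 1)) (lv k M (false, c.1 - 1, c.2))
    (lv k M (true, c.1, c.2)) (lv k M (false, c.1, c.2))
  keep k (true, c.1 + 1, c.2 - 1) r.1 ++ (keep k (false, c.1 - 1, c.2) r.2.1 ++
    (keep k (true, c.1, c.2) r.2.2.1 ++ keep k (false, c.1, c.2) r.2.2.2))

def stepM (k : List (ℤ × ℤ)) (p : ℤ) (M : List (Edge × V3)) : List (Edge × V3) :=
  (verts p M).flatMap (out k M)

def run (k : List (ℤ × ℤ)) (P : ℤ → ℤ → Bool) : ℤ → List (Edge × V3) → ℕ →
    Option (List (Edge × V3))
  | _, M, 0 => some M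
  | p, M, n + 1 =>
    if (verts p M).all (fun c => P (c.1 + 1) (c.2 - 1) && P c.1 c.2) then
      run k P (p + 1) (stepM k p M) n
    else none


theorem lookup_keep (k : List (ℤ × ℤ)) (e e' : Edge) (v : V3) :
    (keep k e' v).lookup e = if e = e' ∧ v ≠ kb k e' then some v else none := by
  unfold keep
  by_cases h : v = kb k e'
  · simp [h]
  · by_cases h2 : e = e'
    · subst h2
      simp [h, List.lookup]
    · have : (e == e') = false := by simpa using h2
      simp [h, h2, List.lookup, this]

theorem lookup_out (k : List (ℤ × ℤ)) (M : List (Edge × V3)) (c : ℤ × ℤ) (e : Edge) :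
    (out k M c).lookup e =
      let r := g (lv k M (true, c.1 + 1, c.2 - 1)) (lv k M (false, c.1 - 1, c.2))
        (lv k M (true, c.1, c.2)) (lv k M (false, c.1, c.2))
      (if e = (true, c.1 + 1, c.2 - 1) ∧ r.1 ≠ kb k (true, c.1 + 1, c.2 - 1) then some r.1
        else none).or
      ((if e = (false, c.1 - 1, c.2) ∧ r.2.1 ≠ kb k (false, c.1 - 1, c.2) then some r.2.1
        else none).or
      ((if e = (true, c.1, c.2) ∧ r.2.2.1 ≠ kb k (true, c.1, c.2) then some r.2.2.1
        else none).or
      (if e = (false, c.1, c.2) ∧ r.2.2.2 ≠ kb k (false, c.1, c.2) then some r.2.2.2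
        else none))) := by
  simp only [out, List.lookup_append, lookup_keep]

theorem endp_parity (p : ℤ) (e : Edge) : ((endp p e).1 - p) % 2 = 0 := by
  obtain ⟨b, t, y⟩ := e
  cases b <;> simp only [endp] <;> split_ifs <;> simp only [] <;> omega

theorem lookup_out_ne (k : List (ℤ × ℤ)) (p : ℤ) (M : List (Edge × V3)) (c : ℤ × ℤ) (e : Edge)
    (hc : (c.1 - p) % 2 = 0) (h : endp p e ≠ c) : (out k M c).lookup e = none := by
  obtain ⟨c1, c2⟩ := c
  simp only at hc
  have n1 : e ≠ (true, c1 + 1, c2 - 1) := by
    rintro rfl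
    apply h
    have : ¬ (c1 + 1 - p) % 2 = 0 := by omega
    simp only [endp, this, if_false, Prod.mk.injEq]
    constructor <;> omega
  have n2 : e ≠ (false, c1 - 1, c2) := by
    rintro rfl
    apply h
    have : ¬ (c1 - 1 - p) % 2 = 0 := by omega
    simp only [endp, this, if_false, Prod.mk.injEq]
    constructor <;> first | omega | trivial
  have n3 : e ≠ (true, c1, c2) := by
    rintro rfl
    apply h
    simp only [endp, hc, if_true]
  have n4 : e ≠ (false, c1, c2) := by
    rintro rfl
    apply h
    simp only [endp, hc, if_true]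
  rw [lookup_out]
  simp [n1, n2, n3, n4]

theorem lookup_flatMap {α : Type*} (F : α → List (Edge × V3)) (e : Edge) (c0 : α)
    (l : List α) (h : ∀ c ∈ l, c ≠ c0 → (F c).lookup e = none) :
    (c0 ∈ l → (l.flatMap F).lookup e = (F c0).lookup e) ∧
      (c0 ∉ l → (l.flatMap F).lookup e = none) := by
  classical
  induction l with
  | nil => simp
  | cons a l ih =>
    have ih' := ih (fun c hc => h c (List.mem_cons_of_mem _ hc))
    rw [List.flatMap_cons, List.lookup_append]
    by_cases ha : a = c0
    · subst ha
      by_cases hm : a ∈ l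
      · simp [hm, ih'.1 hm]
      · simp [ih'.2 hm]
    · rw [h a (by simp) ha]
      have : (c0 ∈ a :: l) ↔ c0 ∈ l := by
        simp [Ne.symm ha]
      simp only [this, Option.none_or]
      exact ih'

theorem mem_verts {p : ℤ} {M : List (Edge × V3)} {c : ℤ × ℤ} :
    c ∈ verts p M ↔ ∃ e ∈ M, endp p e.1 = c := by
  induction M with
  | nil => simp [verts]
  | cons a M ih =>
    have hv : verts p (a :: M) =
        if endp p a.1 ∈ verts p M then verts p M else endp p a.1 :: verts p M := rfl
    rw [hv]
    split_ifs with h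
    · rw [ih]
      constructor
      · rintro ⟨e, he, h'⟩
        exact ⟨e, List.mem_cons_of_mem _ he, h'⟩
      · rintro ⟨e, he, h'⟩
        rcases List.mem_cons.1 he with rfl | he
        · rw [h'] at h
          exact ih.1 h
        · exact ⟨e, he, h'⟩
    · rw [List.mem_cons, ih]
      constructor
      · rintro (rfl | ⟨e, he, h'⟩)
        · exact ⟨a, by simp, rfl⟩
        · exact ⟨e, List.mem_cons_of_mem _ he, h'⟩
      · rintro ⟨e, he, h'⟩
        rcases List.mem_cons.1 he with rfl | he
        · exact Or.inl h'.symm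
        · exact Or.inr ⟨e, he, h'⟩

theorem lookup_none {p : ℤ} {M : List (Edge × V3)} {e : Edge} (h : endp p e ∉ verts p M) :
    M.lookup e = none := by
  rw [List.lookup_eq_none_iff]
  rintro x hx
  by_contra h2
  apply h
  rw [mem_verts]
  refine ⟨x, hx, ?_⟩
  have : e = x.1 := by simpa using h2
  rw [this]

theorem base_kb {K : ℤ → ℤ → Prop} {k : List (ℤ × ℤ)} {t y : ℤ} (h : K t y ↔ (t, y) ∈ k) :
    base K (true, t, y) = kb k (true, t, y) := by
  classical
  simp only [base, kb, h]

theorem g_quiet (K : ℤ → ℤ → Prop) (t y t' y' : ℤ) (e1 e2 : Edge) (h1 : e1.1 = false)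
    (h2 : e2.1 = false) :
    g (base K (true, t, y)) (base K e1) (base K (true, t', y')) (base K e2) =
      (base K (true, t, y), z, base K (true, t', y'), z) := by
  obtain ⟨b, e1⟩ := e1
  obtain ⟨b', e2⟩ := e2
  simp only at h1 h2
  subst h1 h2
  classical
  by_cases ha : K t y <;> by_cases hb : K t' y' <;> simp only [base, ha, hb, if_true, if_false] <;> rfl

theorem U_ov {K : ℤ → ℤ → Prop} {k : List (ℤ × ℤ)} {P : ℤ → ℤ → Bool} {p : ℤ}
    {M : List (Edge × V3)}
    (hP : ∀ c ∈ verts p M, P (c.1 + 1) (c.2 - 1) = true ∧ P c.1 c.2 = true)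
    (hK : ∀ t y, P t y = true → (K t y ↔ (t, y) ∈ k)) :
    U p (ov K M) = ov K (stepM k p M) := by
  -- values around an active vertex
  have hov : ∀ c ∈ verts p M, G (ov K M) c.1 c.2 =
      g (lv k M (true, c.1 + 1, c.2 - 1)) (lv k M (false, c.1 - 1, c.2))
        (lv k M (true, c.1, c.2)) (lv k M (false, c.1, c.2)) := by
    intro c hc
    obtain ⟨h1, h2⟩ := hP c hc
    unfold G ov lv
    rw [base_kb (hK _ _ h1), base_kb (hK _ _ h2)]
    rfl
  have hstep : ∀ e, (endp p e ∈ verts p M → (stepM k p M).lookup e =
      (out k M (endp p e)).lookup e) ∧ (endp p e ∉ verts p M →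
        (stepM k p M).lookup e = none) := by
    intro e
    refine lookup_flatMap _ e (endp p e) _ ?_
    intro c hc hne
    obtain ⟨e', _, he'⟩ := mem_verts.1 hc
    exact lookup_out_ne k p M c e (by rw [← he']; exact endp_parity p _) (Ne.symm hne)
  funext e
  have hov' : ∀ c, c ∉ verts p M → (c.1 - p) % 2 = 0 → G (ov K M) c.1 c.2 =
      (base K (true, c.1 + 1, c.2 - 1), z, base K (true, c.1, c.2), z) := by
    rintro ⟨c1, c2⟩ hc hpar
    simp only at hpar
    have n1 : ¬ (c1 + 1 - p) % 2 = 0 := by omega
    have n2 : ¬ (c1 - 1 - p) % 2 = 0 := by omega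
    have a1 : c1 + 1 - 1 = c1 := by ring
    have a2 : c2 - 1 + 1 = c2 := by ring
    have a3 : c1 - 1 + 1 = c1 := by ring
    have l1 : M.lookup (true, c1 + 1, c2 - 1) = none := by
      apply lookup_none (p := p)
      simpa only [endp, n1, if_false, a1, a2] using hc
    have l2 : M.lookup (false, c1 - 1, c2) = none := by
      apply lookup_none (p := p)
      simpa only [endp, n2, if_false, a3] using hc
    have l3 : M.lookup (true, c1, c2) = none := by
      apply lookup_none (p := p)
      simpa only [endp, hpar, if_true] using hc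
    have l4 : M.lookup (false, c1, c2) = none := by
      apply lookup_none (p := p)
      simpa only [endp, hpar, if_true] using hc
    simp only [G, ov, l1, l2, l3, l4, Option.getD_none]
    exact g_quiet K _ _ _ _ _ _ rfl rfl
  rcases e with ⟨b, t, y⟩
  have hfold : (fun e => (List.lookup e M).getD (base K e)) = ov K M := rfl
  have hs := hstep (b, t, y)
  cases b
  · -- horizontal
    by_cases hpar : (t - p) % 2 = 0
    · have he : endp p (false, t, y) = (t, y) := by simp only [endp, hpar, if_true]
      rw [he] at hs
      simp only [U, hpar, if_true]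
      by_cases hm : (t, y) ∈ verts p M
      · have h := hov _ hm
        simp only at h
        rw [h]
        unfold ov
        rw [hs.1 hm, lookup_out]
        simp only [Prod.mk.injEq, Bool.false_eq_true, false_and, if_false, true_and,
          Option.none_or, reduceCtorEq]
        have hne : ¬ (t = t - 1) := by omega
        simp only [hne, false_and, if_false, Option.none_or, true_and, and_true]
        split_ifs with h3
        · rfl
        · push Not at h3
          exact h3
      · have h := hov' _ hm hpar
        simp only at h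
        rw [h]
        unfold ov
        rw [hs.2 hm]
        rfl
    · have he : endp p (false, t, y) = (t + 1, y) := by simp only [endp, hpar, if_false]
      rw [he] at hs
      simp only [U, hpar, if_false]
      have a1 : t + 1 - 1 = t := by ring
      by_cases hm : (t + 1, y) ∈ verts p M
      · have h := hov _ hm
        simp only [a1] at h
        rw [h]
        unfold ov
        rw [hs.1 hm, lookup_out]
        simp only [Prod.mk.injEq, Bool.false_eq_true, false_and, if_false, true_and,
          Option.none_or, reduceCtorEq, a1, and_true]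
        have hne : ¬ (t = t + 1) := by omega
        simp only [hne, false_and, if_false, Option.or_none]
        split_ifs with h3
        · rfl
        · push Not at h3
          exact h3
      · have hpar' : (t + 1 - p) % 2 = 0 := by omega
        have h := hov' _ hm hpar'
        simp only at h
        rw [h]
        unfold ov
        rw [hs.2 hm]
        rfl
  · -- vertical
    by_cases hpar : (t - p) % 2 = 0
    · have he : endp p (true, t, y) = (t, y) := by simp only [endp, hpar, if_true]
      rw [he] at hs
      simp only [U, hpar, if_true]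
      by_cases hm : (t, y) ∈ verts p M
      · have h := hov _ hm
        simp only at h
        rw [h]
        unfold ov
        rw [hs.1 hm, lookup_out]
        have hne : ¬ (t = t + 1) := by omega
        simp only [Prod.mk.injEq, Bool.true_eq_false, false_and, if_false, true_and,
          Option.none_or, reduceCtorEq, hne, and_true]
        obtain ⟨_, hp2⟩ := hP _ hm
        rw [base_kb (hK _ _ hp2)]
        split_ifs with h3
        · rfl
        · push Not at h3
          exact h3
      · have h := hov' _ hm hpar
        simp only at h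
        rw [h]
        unfold ov
        rw [hs.2 hm]
        rfl
    · have he : endp p (true, t, y) = (t - 1, y + 1) := by simp only [endp, hpar, if_false]
      rw [he] at hs
      simp only [U, hpar, if_false]
      have a1 : t - 1 + 1 = t := by ring
      have a2 : y + 1 - 1 = y := by ring
      by_cases hm : (t - 1, y + 1) ∈ verts p M
      · have h := hov _ hm
        simp only [a1, a2] at h
        rw [h]
        unfold ov
        rw [hs.1 hm, lookup_out]
        have hne : ¬ (t = t - 1) := by omega
        simp only [Prod.mk.injEq, Bool.true_eq_false, false_and, if_false, true_and,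
          Option.none_or, reduceCtorEq, hne, a1, a2, and_true, Option.or_none]
        obtain ⟨hp1, _⟩ := hP _ hm
        simp only [a1, a2] at hp1
        rw [base_kb (hK _ _ hp1)]
        split_ifs with h3
        · rfl
        · push Not at h3
          exact h3
      · have hpar' : (t - 1 - p) % 2 = 0 := by omega
        have h := hov' _ hm hpar'
        simp only [a1, a2] at h
        rw [h]
        unfold ov
        rw [hs.2 hm]
        rfl

theorem run_spec {K : ℤ → ℤ → Prop} {k : List (ℤ × ℤ)} {P : ℤ → ℤ → Bool}
    (hK : ∀ t y, P t y = true → (K t y ↔ (t, y) ∈ k)) (n : ℕ) :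
    ∀ (p : ℤ) (M M' : List (Edge × V3)), run k P p M n = some M' →
      (globalMap f)^[n] (cfg (ov K M) p) = cfg (ov K M') (p + n) := by
  induction n with
  | zero =>
    intro p M M' h
    simp only [run, Option.some.injEq] at h
    simp [h]
  | succ n ih =>
    intro p M M' h
    rw [run] at h
    split_ifs at h with hv
    rw [List.all_eq_true] at hv
    have hP : ∀ c ∈ verts p M, P (c.1 + 1) (c.2 - 1) = true ∧ P c.1 c.2 = true := by
      intro c hc
      simpa using hv c hc
    rw [Function.iterate_succ_apply, F_cfg, U_ov hP hK, ih _ _ _ h]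
    congr 1
    push_cast
    ring

end Pool.Agent.SPCA81
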